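import Mathlib
import Pool.Graph.R_seed8.Y703.XL.Stm

/-!
# Project JL (helper451): the joint law of several systems (abstract part)

`V` is a finite vector space over the field `F` with three elements, `|V| = 3 ^ n`, and `S` a uniform
random symmetric bilinear form on `V`. A *system* on `V` is a finite space `L` with linear maps
`y : L → V`, `b : L → V*`; its set of solutions for the form `S` is
`R(S) = {p ∈ L | S (y p) = b p}`, a subspace. For `k` systems with `|L_j| = |V|` which are symmetric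
(`b p (y q) = b q (y p)`), injective and in general position to each other, the probability that
all `R_j(S)` are zero is close to `c9 ^ k`.

Proof (all the parts are stated below): the moments `E ∏_j I_{d_j}(R_j(S))`, where `I_d(R)` is the
number of the linearly independent `d`-tuples in `R`, are close to `∏_j 3 ^ C(d_j, 2)`
(`S_MOM`, from `S_P`, `S_D`, `S_M`); the indicator of `R = 0` is a truncated alternating sum of the
`I_d(R)` (`S_Q`, `S_TR`); the limit is identified by the case `k = 1` and the library's `S_LIM`.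
-/

set_option autoImplicit false
set_option linter.unusedVariables false

open scoped Classical

namespace Pool.Agent.H451.JL

open Finset
open Pool.Agent.Y759.CX (fr)
open Pool.Agent.Y85.XK (Sy)
open Pool.Agent.Y703.XK (c9)

/-- the field with three elements -/
abbrev F := ZMod 3

/-- `k` systems on `V` -/
structure Sys (V : Type) [AddCommGroup V] [Module F V] (k : ℕ) where
  L : Fin k → Type
  [g : ∀ j, AddCommGroup (L j)]
  [m : ∀ j, Module F (L j)]
  [f : ∀ j, Fintype (L j)]
  y : ∀ j, L j →ₗ[F] V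
  b : ∀ j, L j →ₗ[F] V →ₗ[F] F

attribute [instance] Sys.g Sys.m Sys.f

section defs

variable {V : Type} [AddCommGroup V] [Module F V] {k : ℕ}

/-- the conditions on the systems: symmetric, injective, `|L_j| = |V|`; `y_j` has a kernel of at
most `|V| / 3 ^ N` elements, and so has each pairing `b_i p (y_j q) - b_j q (y_i p)` of two
different systems on the left. -/
structure Sys.OK (s : Sys V k) (N : ℕ) : Prop where
  card : ∀ j, Nat.card (s.L j) = Nat.card V
  sym : ∀ j p q, s.b j p (s.y j q) = s.b j q (s.y j p)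
  inj : ∀ j p, s.y j p = 0 → s.b j p = 0 → p = 0
  ker : ∀ j, Nat.card {p : s.L j // s.y j p = 0} * 3 ^ N ≤ Nat.card V
  cross : ∀ i j, i ≠ j →
    Nat.card {p : s.L i // ∀ q : s.L j, s.b i p (s.y j q) = s.b j q (s.y i p)} * 3 ^ N ≤ Nat.card V

variable (s : Sys V k) {D : ℕ} (c : Fin D → Fin k)

/-- a tuple of elements; the `a`-th one is in the system number `c a`, the *colour* of `a` -/
abbrev Sys.Tu := ∀ a : Fin D, s.L (c a)

/-- the `V`-parts of a tuple -/
def Sys.Y (t : s.Tu c) (a : Fin D) : V := s.y (c a) (t a)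

/-- the `V*`-parts of a tuple -/
def Sys.B (t : s.Tu c) (a : Fin D) : V →ₗ[F] F := s.b (c a) (t a)

/-- all elements of the tuple are solutions for the form `S` -/
def Sys.Sat (t : s.Tu c) (S : Sy V) : Prop := ∀ a, S.1 (s.Y c t a) = s.B c t a

/-- the elements of each colour are linearly independent -/
def Sys.BI (t : s.Tu c) : Prop := ∀ g : Fin D → F, (∃ j, ∀ a, g a ≠ 0 → c a = j) →
  ∑ a, g a • s.Y c t a = 0 → ∑ a, g a • s.B c t a = 0 → g = 0

/-- the tuple is compatible with symmetric forms -/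
def Sys.Sym (t : s.Tu c) : Prop := ∀ a a', s.B c t a (s.Y c t a') = s.B c t a' (s.Y c t a)

/-- the number of the pairs of different colours -/
def Pc {D k : ℕ} (c : Fin D → Fin k) : ℕ :=
  (univ.filter fun e : Fin D × Fin D => e.1 < e.2 ∧ c e.1 ≠ c e.2).card

/-- the number of the pairs of equal colours -/
def Qc {D k : ℕ} (c : Fin D → Fin k) : ℕ :=
  (univ.filter fun e : Fin D × Fin D => e.1 < e.2 ∧ c e.1 = c e.2).card

/-- the space of the solutions -/
def Sys.R (j : Fin k) (S : Sy V) : Submodule F (s.L j) :=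
  LinearMap.ker (S.1 ∘ₗ s.y j - s.b j)

end defs

/-- the number of the linearly independent `d`-tuples in a space of dimension `r` -/
def In (d r : ℕ) : ℝ := ∏ i ∈ range d, ((3 : ℝ) ^ r - 3 ^ i)

/-- the coefficients -/
noncomputable def mu (d : ℕ) : ℝ := (-1) ^ d * 3 ^ (d.choose 2) / In d d

/-- the truncated sums of the limits -/
noncomputable def sT (t : ℕ) : ℝ := ∑ d ∈ range (t + 1), mu d * 3 ^ (d.choose 2)

/-- the limits of the errors -/
noncomputable def eT (t : ℕ) : ℝ := |mu (t + 1)| * 3 ^ ((t + 1).choose 2)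

/-- JL-P: the probability that a random symmetric form takes given values at linearly independent
vectors `Y_a`, `a < D`.

Proof. If `S (Y_a) = B_a` for all `a` then `B_a (Y_a') = S(Y_a, Y_a') = B_a' (Y_a)`, so the
probability is zero if this fails. Otherwise extend `(Y_a)` to a basis `(e_i)_{i ∈ ι}` of `V`,
`Fin D ⊆ ι`, `|ι| = n`, `|V| = 3 ^ n`. The symmetric forms correspond to the functions
`Sym2 ι → F` (matrix in the basis; see `Pool.Agent.Y85.XK.card_symm` and the proof of
`Pool.Agent.Y85.XK.fr_Ns` in `Pool/Graph/R_seed8/Y85/XK/Abs.lean`), and the condition prescribes the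
values at the pairs which meet `Fin D` (consistently). The number of the pairs not meeting `Fin D` is
`C(n - D + 1, 2)`, hence the probability is `3 ^ (C(n - D + 1, 2) - C(n + 1, 2))` and
`C(n + 1, 2) - C(n - D + 1, 2) = n D - C(D, 2)`.
(Alternatively by induction on `n` or on `D`.) -/
def S_P : Prop := ∀ (V : Type) [AddCommGroup V] [Module F V] [Finite V] (D : ℕ) (Y : Fin D → V)
  (B : Fin D → V →ₗ[F] F), LinearIndependent F Y →
  fr (fun S : Sy V => ∀ a, S.1 (Y a) = B a) * (Nat.card V : ℝ) ^ D =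
    if ∀ a a', B a (Y a') = B a' (Y a) then (3 : ℝ) ^ (D.choose 2) else 0

/-- JL-D: the contribution of the tuples with linearly dependent `V`-parts.

Proof. Write `|V| = 3 ^ n`. Let `t` be a tuple with `BI t`, `Y` dependent and `Sat t S` for at
least one `S`. Choose `A ⊂ Fin D` maximal with `(Y_a)_{a ∈ A}` linearly independent (so `A` is not
everything) and `μ_{l,a}` with `Y_l = ∑_{a ∈ A} μ_{l,a} Y_a` for `l ∉ A`; as `S Y_l = B_l` also
`B_l = ∑_{a ∈ A} μ_{l,a} B_a` for `l ∉ A`. Let `Z(A, μ)` be the set of the tuples `t` with `BI t`,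
`(Y_a)_{a ∈ A}` linearly independent and these two identities for `l ∉ A`.

(1) By `S_P` (after numbering `A` by `Fin |A|`) for `t ∈ Z(A, μ)`:
`fr (Sat t) ≤ fr (∀ a ∈ A, S Y_a = B_a) ≤ 3 ^ C(|A|, 2) / 3 ^ (n |A|) ≤ 3 ^ (D ^ 2) / 3 ^ (n |A|)`.

(2) `|Z(A, μ)| ≤ 3 ^ (n |A|) / 3 ^ N`: the restriction `t ↦ t|_A` is injective on `Z(A, μ)` by
`OK.inj` (`Y_l` and `B_l` are determined for `l ∉ A`, and `p ↦ (y p, b p)` is injective). Fix `l ∉ A`
and let `j = c l`. If `Z(A, μ)` is not empty there is `a₀ ∈ A` with `c a₀ ≠ j` and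
`μ_{l,a₀} ≠ 0`: otherwise the relation `g = e_l - ∑_{a ∈ A} μ_{l,a} e_a` is supported in the colour
`j` and contradicts `BI t`. For fixed `(t_a)_{a ∈ A, a ≠ a₀}` there are at most `3 ^ n / 3 ^ N`
possible `t_{a₀}` in `L_i`, `i = c a₀`: if `p, p'` are two of them, then subtracting the two
relations for `l` gives `q ∈ L_j` with `y_j q = μ_{l,a₀} y_i (p - p')`,
`b_j q = μ_{l,a₀} b_i (p - p')`; hence for all `q' ∈ L_j`
`μ b_i (p - p') (y_j q') = b_j q (y_j q') = b_j q' (y_j q) = μ b_j q' (y_i (p - p'))`, so that `p - p'`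
is in the left kernel of `OK.cross i j`, which has at most `3 ^ n / 3 ^ N` elements. So
`|Z(A, μ)| ≤ (3 ^ n) ^ (|A| - 1) * 3 ^ n / 3 ^ N`.

(3) There are at most `2 ^ D` sets `A` and `3 ^ (D ^ 2)` matrices `μ`. -/
def S_D : Prop := ∀ (V : Type) [AddCommGroup V] [Module F V] [Finite V] (k N : ℕ) (s : Sys V k)
  (D : ℕ) (c : Fin D → Fin k), s.OK N →
  (∑ t : s.Tu c, if s.BI c t ∧ ¬ LinearIndependent F (s.Y c t) then fr (s.Sat c t) else 0) * 3 ^ N ≤
    2 ^ D * 3 ^ (2 * D ^ 2)

/-- JL-M: the number of the compatible tuples.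

Proof. Write `Φ_{a,a'}(t) = B_a (Y_a') - B_a' (Y_a)`; it vanishes for `c a = c a'` by `OK.sym` (this
needs a cast along `c a = c a'`; `obtain`/`subst`-style argument for general `i = j`, `p : L i`,
`q : L j`). So `Sym t` iff `Φ_e(t) = 0` for the `P = Pc c` pairs `e = (a, a')`, `a < a'`,
`c a ≠ c a'`. With the additive character `ez : F → ℂ` (`Pool.Agent.Y699.E.ez`, or
`ZMod.stdAddChar`) the number of the `t` with `Sym t` is
`3 ^ (-P) ∑_{m : pairs → F} ∑_t ez (∑_e m_e Φ_e(t))`. The term `m = 0` is `|Tu| = |V| ^ D`. Let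
`m ≠ 0`, `m_e ≠ 0` for `e = (a, a')`, `i = c a`, `j = c a'`. For fixed `t_d`, `d ≠ a'`, the exponent is
(a constant plus) a linear form of `t_a' ∈ L_j`; the sum over `t_a'` is `|V|` or `0`, and it is `|V|`
only if this linear form is zero; if this happens for `t_a = p` and `t_a = p'` (with the same `t_d`
for `d ≠ a, a'`) then `m_e (b_i (p - p') (y_j q) - b_j q (y_i (p - p'))) = 0` for all `q ∈ L_j`
(the other pairs with `a'` do not involve `t_a`). By `OK.cross i j` there are at most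
`|V| / 3 ^ N` such `t_a`. So the sum over `t` has absolute value at most `|V| ^ D / 3 ^ N`. -/
def S_M : Prop := ∀ (V : Type) [AddCommGroup V] [Module F V] [Finite V] (k N : ℕ) (s : Sys V k)
  (D : ℕ) (c : Fin D → Fin k), s.OK N →
  |((univ.filter fun t : s.Tu c => s.Sym c t).card : ℝ) - (Nat.card V : ℝ) ^ D / 3 ^ Pc c| ≤
    (Nat.card V : ℝ) ^ D / 3 ^ N

/-- JL-MOM: the moments.

Proof. Split the sum into the `t` with `Y` linearly independent (which implies `BI t`) and the others,
estimated by `S_D`. By `S_P` the first part is `3 ^ C(D, 2) / |V| ^ D` times the number of the `t` with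
`Sym t` and `Y` independent. This number differs from the number of the `t` with `Sym t` (`S_M`) by at
most the number of the `t` with `Y` dependent, i.e. `∑ g_a Y_a = 0` for some `g ≠ 0`; for each
`g` (there are at most `3 ^ D`), say `g_a ≠ 0`, and fixed `t_d`, `d ≠ a`, the possible `t_a` are a
coset of the kernel of `y_j` (or none), at most `|V| / 3 ^ N` elements by `OK.ker`. Finally
`C(D, 2) = Pc c + Qc c`. So the error is at most
`(3 ^ C(D, 2) (1 + 3 ^ D) + 2 ^ D 3 ^ (2 D ^ 2)) / 3 ^ N`. -/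
def S_MOM : Prop := ∀ (V : Type) [AddCommGroup V] [Module F V] [Finite V] (k N : ℕ) (s : Sys V k)
  (D : ℕ) (c : Fin D → Fin k), s.OK N →
  |(∑ t : s.Tu c, if s.BI c t then fr (s.Sat c t) else 0) - 3 ^ Qc c| * 3 ^ N ≤ 3 ^ (3 * D ^ 2 + 2)

/-- JL-EX: the moments in terms of the dimensions of the spaces of the solutions.

Proof. For each `S` the number of the families `(t_j : Fin (d j) → R_j(S))_j` with all `t_j` linearly
independent is `∏_j In (d j) (finrank R_j(S))` (`card_linearIndependent` in Mathlib; zero if `d j` is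
larger than the dimension). With `D = ∑ d j` and the bijection `e : (Σ j, Fin (d j)) ≃ Fin D`
(`finSigmaFinEquiv`), `c a = (e.symm a).1`, these families are the `t : Tu c` with `BI t` and
`Sat t S` (for one colour: `∑ g_a Y_a = 0`, `∑ g_a B_a = 0` means `∑ g_a t_a = 0` in `L_j` by
`OK.inj` and linearity). Exchange the sums over `S` and `t` and use `S_MOM`; `Qc c = ∑_j C(d j, 2)`
(count the pairs in each fibre of `c`). -/
def S_EX : Prop := ∀ (V : Type) [AddCommGroup V] [Module F V] [Finite V] (k N : ℕ) (s : Sys V k)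
  (d : Fin k → ℕ), s.OK N → ∀ (i : Fintype (Sy V)),
  |(∑ S : Sy V, ∏ j, In (d j) (Module.finrank F (s.R j S))) / (Fintype.card (Sy V) : ℝ) -
      ∏ j, (3 : ℝ) ^ ((d j).choose 2)| * 3 ^ N ≤ 3 ^ (3 * (∑ j, d j) ^ 2 + 2)

/-- JL-Q: the truncated alternating sums.

Proof. For `r = 0` all terms with `d ≥ 1` vanish. For `r ≥ 1` prove by induction on `t` the identity
`∑_{d ≤ t} mu d * In d r = (-1) ^ t 3 ^ C(t + 1, 2) In t (r - 1) / In t t` (the `q`-binomial
theorem; with `[r, d] = In d r / In d d`: `mu d * In d r = (-1) ^ d 3 ^ C(d, 2) [r, d]` and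
`[r, d] = [r - 1, d - 1] + 3 ^ d [r - 1, d]`), and
`In t (r - 1) / In t t = [r - 1, t] ≤ [r, t + 1]`. All `In d r ≥ 0` (one factor is zero if `r < d`). -/
def S_Q : Prop := ∀ t r : ℕ,
  |(if r = 0 then 1 else 0) - ∑ d ∈ range (t + 1), mu d * In d r| ≤ |mu (t + 1)| * In (t + 1) r

/-- JL-E: the errors tend to zero. `eT t = 3 ^ (t (t + 1)) / In (t + 1) (t + 1)` and
`In m m = 3 ^ (m ^ 2) ∏_{i = 1}^m (1 - 3 ^ (-i)) ≥ 3 ^ (m ^ 2) (1 - ∑ 3 ^ (-i)) ≥ 3 ^ (m ^ 2) / 2`. -/
def S_E : Prop := ∀ t : ℕ, 0 ≤ eT t ∧ eT t ≤ (1 / 3 : ℝ) ^ t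

/-- JL-TR: the truncation.

Proof. Put `f_j = 1 [r_j = 0]`, `P_j = ∑_{d ≤ t} mu d * In d r_j`, `e_j = |mu (t + 1)| In (t + 1) r_j ≥ 0`;
`|f_j - P_j| ≤ e_j` by `S_Q` and `|f_j| ≤ 1`. So `|∏ f_j - ∏ P_j| ≤ ∏ (1 + e_j) - 1` (induction on the
number of factors). Take the mean over `ω`: the mean of `∏ P_j = ∑_{d : Fin k → range (t + 1)}
(∏_j mu (d j)) ∏_j In (d j) (r_j)` differs from `(sT t) ^ k` by at most `C₁ δ`, and the mean of
`∏ (1 + e_j)`, also a combination of the moments with `d j ∈ {0, t + 1}` (`In 0 r = 1`), differs from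
`(1 + eT t) ^ k` by at most `C₂ δ`. -/
def S_TR : Prop := ∀ k t : ℕ, ∃ C : ℝ, 0 ≤ C ∧ ∀ (Ω : Type) [Fintype Ω] (r : Ω → Fin k → ℕ)
  (δ : ℝ), 0 < Fintype.card Ω → 0 ≤ δ →
  (∀ d : Fin k → ℕ, (∀ j, d j ≤ t + 1) → |(∑ ω, ∏ j, In (d j) (r ω j)) / (Fintype.card Ω : ℝ) -
    ∏ j, (3 : ℝ) ^ ((d j).choose 2)| ≤ δ) →
  |((univ.filter fun ω => ∀ j, r ω j = 0).card : ℝ) / (Fintype.card Ω : ℝ) - sT t ^ k| ≤
    (1 + eT t) ^ k - 1 + C * δ

/-- JL-C: the limit. Apply `S_EX` and `S_TR` to `k = 1` and the system `L = V`, `y = id`, `b = 0` on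
`V = Fin n → F` (`OK N` for `N = n`; the cross condition is empty), whose space of the solutions is the
radical, and compare with `S_LIM` for the dimension zero (`cr 0 = c9`); let `n → ∞`. -/
def S_C : Prop := ∀ t : ℕ, |sT t - c9| ≤ eT t

/-- **JL**: the joint law (from `S_EX`, `S_TR`, `S_C`, `S_E`, `0 < c9 < 1`). -/
def S_JL : Prop := ∀ (k : ℕ) (ε : ℝ), 0 < ε → ∃ N : ℕ, ∀ (V : Type) [AddCommGroup V] [Module F V]
  [Finite V] (s : Sys V k), s.OK N →
  |fr (fun S : Sy V => ∀ j, ∀ p : s.L j, S.1 (s.y j p) = s.b j p → p = 0) - c9 ^ k| ≤ ε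

end Pool.Agent.H451.JL
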