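import Mathlib
import Pool.Agent.H451.JL.Stm
import Pool.Graph.R_seed8.Y696.XL.Key
import Pool.Graph.R_seed8.Y433.XK.Gen

/-!
# Project JL (helper451): the joint law of the cubic twists `β_j D` (arithmetic part)

Weights: `w j : Ei → F`, `w j π = 1` for `π ∉ U`, where `U` is a fixed finite set of primary primes;
`w j` stands for the element `∏_{u ∈ U} u ^ (w j u)` times the product `D` of the primes in a set `S`
disjoint from `U`. The library (`Pool/Graph/R_seed8/Y703/XK/Stm.lean`, `.../Y703/XL/Stm.lean` and the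
proofs of their parts) treats one system and `U = ∅`.
-/

set_option autoImplicit false
set_option linter.unusedVariables false

open scoped Classical

namespace Pool.Agent.H451.JL

open Finset
open Pool.Agent.Y692.QS (Ei w nr toC)
open Pool.Agent.Y715.T.Rec (cs)
open Pool.Agent.Y715.T.RecG (Pq)
open Pool.Agent.Y699.E (ez nrm QB)
open Pool.Agent.Y703.XK (Nd SS RR HB prs ext c9 sm la bl S_BIL S_EQ S_C9 Cl)
open Pool.Agent.Y703.CX (XX kk zz)
open Pool.Agent.Y703.XL (nA S_LIM)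

/-- JL-SYS: several Laplacian block systems with the same random symmetric block.

Proof. Reduce every system as in `Pool.Agent.Y994.XL.nA_eq` (file
`Pool/Graph/R_seed8/Y994/XL/LA.lean`): with `V = {l : J // l ≠ ks} → F`, `X_j = U j → F`,
`A_j' = bf (mA (A j) (B j))`, `c_j = bf (mC ks (B j))`, `Δ_j = bf (mZ ks (B j))`, `T = bf (mL ks α)`
(`= (pa ks α).1`, uniform in `Sy V` by `pa_surj` and `fr_comp`) one has
`nA (A j) (B j) (ext α) = 3 * nG A_j' c_j (T + Δ_j)` (`bf_add`), and `nG` counts the `(x, y)` with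
(i) `A_j' x x' + c_j x' y = 0` for all `x'`, (ii) `c_j x y' + T y y' + Δ_j y y' = 0` for all `y'`.
Let `L_j ⊆ X_j × V` be the space of the `(x, y)` with (i), `y_j = snd`, `b_j (x, y) = - c_j x - Δ_j y`.
So `nA = 3` iff `R_j(T) = 0`. Conditions of `Sys.OK N` (take `N` from `S_JL` for `k`, `ε`),
`n = |J| - 1 = dim V`:
* `card`: `(x, y) ↦ A_j' x + c_j (·) y ∈ X_j*` is surjective because `c_j : X_j → V*` is injective
  (the hypothesis on `ks`), so `|L_j| = |X_j| |V| / |X_j*| = |V|`.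
* `sym`: `b_j (x,y) (y') = - c_j x y' - Δ_j y y'` and by (i) for `(x', y')`: `c_j x y' = - A_j' x' x`,
  symmetric (`mA_symm`, `mZ_symm`, `bf_symm`).
* `inj`: `y = 0` and `c_j x = 0` gives `x = 0`.
* `ker`: the kernel of `snd` is contained in `X_j`, at most `3 ^ m` elements, `m + N ≤ n`.
* `cross`: let `p = (x, y) ∈ L_i` with `b_i p (y') = b_j (x', y') (y)` for all `(x', y') ∈ L_j`. Taking
  `x' = 0`: for all `y'` with `c_j (·) y' = 0`: `(Δ_j - Δ_i) y y' = c_i x y'`. By duality there is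
  `x'' ∈ X_j` with `(Δ_j - Δ_i) y = c_i x + c_j x''`. The map `p ↦ (x, x'')` (choose `x''`) has fibres
  of at most `|ker (Δ_j - Δ_i)|` elements, so there are at most `3 ^ (2 m) |ker (Δ_j - Δ_i)|` such
  `p`. `Δ_j - Δ_i` is diagonal with entries `∑ B i u l - ∑ B j u l`, `l ≠ ks`; its kernel has at most
  `3 ^ (n - (2 m + N))` elements by the last hypothesis. -/
def S_SYS : Prop := ∀ (k : ℕ) (ε : ℝ), 0 < ε → ∃ N : ℕ, ∀ (U : Fin k → Type) [∀ j, Fintype (U j)]
  (J : Type) [Fintype J] [LinearOrder J] (A : ∀ j, U j → U j → F) (B : ∀ j, U j → J → F) (m : ℕ)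
  (ks : J), (∀ j u v, A j u v = A j v u) → (∀ j, Fintype.card (U j) ≤ m) →
  m + N < Fintype.card J →
  (∀ j (v : U j → F), (∃ u, v u ≠ 0) → ∃ l, l ≠ ks ∧ ∑ u, v u * B j u l ≠ 0) →
  (∀ i j, i ≠ j →
    2 * m + N < (univ.filter fun l => ∑ u, B i u l ≠ ∑ u, B j u l).card) →
  |((univ.filter fun α : prs J → F => ∀ j, nA (A j) (B j) (ext α) = 3).card : ℝ) /
      3 ^ (prs J).card - c9 ^ k| ≤ ε

/-- the elements of nonzero weight -/
noncomputable def sw (w : Ei → F) (S : Finset Ei) : Finset Ei := S.filter fun π => w π ≠ 0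

/-- the number of the solutions of the weighted Laplacian system -/
noncomputable def nW (w : Ei → F) (S : Finset Ei) : ℕ :=
  Nat.card {v : sw w S → F // ∀ π : sw w S, ∑ ρ : sw w S, cs π ρ * w ρ * (v ρ - v π) = 0}

/-- all the weighted systems have only the constant solutions -/
def GW {k : ℕ} (w : Fin k → Ei → F) (S : Finset Ei) : Prop := ∀ j, nW (w j) S = 3

/-- the labels of the large primes `S₁` with respect to the small ones `S₀` are not degenerate -/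
def NdV {k : ℕ} (w : Fin k → Ei → F) (V : ℕ) (S₀ S₁ : Finset Ei) : Prop :=
  Nd S₀ S₁ ∧ S₀.card + V < S₁.card ∧ ∀ i j, i ≠ j → 2 * S₀.card + V <
    (S₁.filter fun π => ∑ u ∈ S₀, w i u * cs u π ≠ ∑ u ∈ S₀, w j u * cs u π).card

/-- the count in a box -/
def BXJ {k : ℕ} (w : Fin k → Ei → F) (U : Finset Ei) (V : ℕ) (ε : ℝ) : Prop :=
  ∀ (ι : Type) [Fintype ι] [LinearOrder ι]
  (C : ι → Finset Ei) (X : ι → ℕ) (κ : ℝ) (S₀ : Finset Ei), 0 ≤ κ → (∀ i, (C i).card ≤ X i) →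
  HB C X κ → (∀ u ∈ S₀, Pq u) → (∀ i, ∀ π ∈ C i, Pq π ∧ π ∉ S₀) →
  (∀ i l, i ≠ l → Disjoint (C i) (C l)) → U ⊆ S₀ →
  |(((Fintype.piFinset C).filter fun p => NdV w V S₀ (univ.image p) ∧
        GW w (S₀ ∪ univ.image p)).card : ℝ) -
      c9 ^ k * (((Fintype.piFinset C).filter fun p => NdV w V S₀ (univ.image p)).card : ℝ)| ≤
    ε * (((Fintype.piFinset C).filter fun p => NdV w V S₀ (univ.image p)).card : ℝ) +
    3 ^ (S₀.card * Fintype.card ι + (prs ι).card) * (κ * ∏ j, (X j : ℝ))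

/-- JL-BOX: the count in a box.

Proof. Adapt `Pool.Agent.Y170.XL.t_BOX` (`Pool/Graph/R_seed8/Y170/XL/BOX.lean`). Take `V = N` from
`S_SYS` for `k`, `ε`. For a tuple `p` of the box, `w j (p l) = 1` as `p l ∉ U`, and
`sw (w j) (S₀ ∪ univ.image p) = sw (w j) S₀ ∪ univ.image p`; multiplying the equation for
`u ∈ sw (w j) S₀` by `w j u ≠ 0` the weighted system becomes the block system
`nA (A j) (B j) (ext fun e => cs (p e.1.1) (p e.1.2))` with `U j = ↥(sw (w j) S₀)`,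
`A j u v = w j u * w j v * cs u v`, `B j u l = w j u * cs u (p l)` (compare `nS_eq`; `em`, `fe`,
`sum_em` there can be used with `sw (w j) S₀` in place of `S₀`; `cs_symm`, `ext_sum`, `lb`, `LN`, `HB_sub`,
`nd_iff` are in `Pool/Graph/R_seed8/Y688/XK/BOX.lean`). For given labels
`β l u = cs u (p l)`, `u ∈ S₀`, both conditions `Nd S₀ (univ.image p)` and
`NdV w V S₀ (univ.image p)` depend only on `β` (`p` is injective, so the cardinality in `NdV` is the
number of the `l` with `∑ w i u β l u ≠ ∑ w j u β l u`, and `∑_{u ∈ S₀} w j u * cs u π` is the sum over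
`sw (w j) S₀`). `S_EQ` gives the number of the tuples with given labels and
`Q (fun e => cs (p e.1.1) (p e.1.2))`, `Q α = ∀ j, nA (A j) (B j) (ext α) = 3`, and `S_SYS` the proportion
of the `α` with `Q α`: with `m = |S₀|`, and `ks` from `Pool.Agent.Y85.XK.exists_ks` for
`B u l = cs u (p l)`, `u ∈ S₀` (the injectivity for `S₀` implies the one for `sw (w j) S₀`: given
`v ≠ 0` on `sw (w j) S₀` apply it to `w j u * v u`, extended by `0`). Sum over the labels. -/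
def S_BOXJ : Prop := ∀ (k : ℕ) (w : Fin k → Ei → F) (U : Finset Ei),
  (∀ j, ∀ π, π ∉ U → w j π = 1) → ∀ ε : ℝ, 0 < ε → ∃ V : ℕ, BXJ w U V ε

/-- the sets considered: disjoint from `U`, the residue of the norm modulo `9` in `R` -/
def CondJ (U : Finset Ei) (R : Set ℕ) (S : Finset Ei) : Prop :=
  Disjoint S U ∧ (∏ π ∈ S, nrm π) % 9 ∈ R

/-- the sum over the boxes -/
def KEJ {k : ℕ} (w : Fin k → Ei → F) (U : Finset Ei) (R : Set ℕ) (V : ℕ) (ε : ℝ) : Prop :=
  ∃ C : ℝ, 1 ≤ C ∧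
  ∀ (X z H K N : ℕ) (κ : ℝ), 1 ≤ X → 1 ≤ H → 1 ≤ z → 0 ≤ κ → C ≤ κ ^ 24 * z →
  (∀ u ∈ U, nrm u ≤ z) → U.card ≤ K → (H : ℝ) * Real.log X < N →
  |(((RR X z H K V).filter fun S => (CondJ U R S ∧ NdV w V (sm z S ∪ U) (la z S)) ∧
        GW w (S ∪ U)).card : ℝ) -
      c9 ^ k * (((RR X z H K V).filter fun S => CondJ U R S ∧
        NdV w V (sm z S ∪ U) (la z S)).card : ℝ)| ≤
    ε * ((RR X z H K V).card : ℝ) +
    (9 * N + 9 : ℝ) ^ K * (3 ^ (9 * K ^ 2 + 9) * κ) * (X * (1 + Real.log X))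

/-- JL-KEY (by helper451, adaptation of `Pool.Agent.XLK.t_KEG`) -/
def S_KEJ : Prop := S_BIL → ∀ (k : ℕ) (w : Fin k → Ei → F) (U : Finset Ei) (R : Set ℕ) (V : ℕ)
  (ε : ℝ), 0 ≤ ε → (∀ u ∈ U, Pq u) → BXJ w U V ε → KEJ w U R V ε

/-- JL-FEW: for a nontrivial combination of the symbols `cs u`, `u ∈ U`, few sets have few large primes
at which it does not vanish.

Proof. Adapt `Pool.Agent.Y433.XK.t_FEW` (`few_count`, `pair_count` in
`Pool/Graph/R_seed8/Y433/XK/Few.lean`, `gen` in `.../Gen.lean`, `hallG`, `hall1`, `hall3`, `conv_bound` in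
`Pool/Graph/R_seed8/Y699/E/Hal2.lean`, `.../Hall.lean`). Let `A = ∏ u` over `a u = 1` and `B = ∏ u` over
`a u = -1`, `χ = xab A B`; for a prime `π ∉ U` the combination vanishes iff `χ π = 1`. Use the weight
`g π = (1 + 2 Re (χ π)) / 3 + 1 / 24`, so that `g π ≥ 1` if `χ π = 1` and `g π ≥ 1 / 24` otherwise (take
`min 1` of it if convenient). For the sets `S` with given small part `S₀ = sm z S` counted in `FEW`:
`∏_{π ∈ la z S} g π ≥ (1 / 24) ^ (2 |S₀| + V)`, so by `fiber_le` their number is at most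
`24 ^ (2 |S₀| + V) ∑_{n ∈ SB (X / pN S₀)} mf g n`. Let `Y = X / pN S₀`. By `hall1`
`(∑_{SB Y} mf g) log Y ≤ 7 Y ∑_{SB Y} mf g n / nrm n` (for `g ≤ 1`), and by multiplicativity
`∑_{SB Y} mf g n / nrm n ≤ (∑_{SB Y} mf g₁ n / nrm n) (∑_{SB Y} mf (1/24) n / nrm n)` with
`g₁ = (1 + 2 Re χ) / 3`. The first factor is `≤ C (lg Y) ^ (2/3)` by `hall3` and `conv_bound`, `chs_log` (as
in the proof of `hallG`), the second one `≤ exp ((1/24) ∑_{π ∈ QB Y} 1 / nrm π) ≤ C (lg Y) ^ (1/12)` by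
`eulerE` and `M_le` in `Gen.lean`. So the number is
`≤ C 24 ^ (2 |S₀|) Y (lg Y) ^ (-1/4)`, and the theorem `gen` (its proof works verbatim with the exponent
`-1/4` in place of `-1/3`, e.g. final comparison with `exp (-(1/16) ℓ)`) gives the result. The primes of `U`
are not in `la (zz X) S` as soon as `zz X ≥ nrm u` for all `u ∈ U` (`zz X → ∞`). -/
def S_FEWJ : Prop := ∀ (U : Finset Ei) (a : Ei → F), (∀ u ∈ U, Pq u) → (∃ u ∈ U, a u ≠ 0) →
  ∀ (V : ℕ) (ε : ℝ), 0 < ε → ∃ X₀ : ℕ, ∀ X : ℕ, X₀ ≤ X →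
  (((SS X).filter fun S => S.card ≤ kk X ∧
    ((la (zz X) S).filter fun π => ∑ u ∈ U, a u * cs u π ≠ 0).card ≤
      2 * (sm (zz X) S).card + V).card : ℝ) ≤ ε * X

/-- JL-BAD: few sets have degenerate labels.

Proof. Adapt `bad_count` and `t_BAD` in `Pool/Graph/R_seed8/Y433/XK/Few.lean`: for a set `S` disjoint from
`U` and `X` with `nrm u ≤ zz X` for all `u ∈ U`, the sets `A`, `B` of `notNd` are subsets of
`sm z S ∪ U`, and `nrm A * nrm B ≤ pN S₀ * pN U`; there are at most `4 ^ (|S₀| + |U|)` pairs, and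
`lg (m * n) ≤ 2 lg m * lg n` or so; use `gen 4 b` with a constant `b` depending on `U` (the predicate
`Q X S` of `gen` may be `Disjoint S U ∧ (∀ u ∈ U, nrm u ≤ zz X) ∧ ¬ Nd ...`). -/
def S_BADJ : Prop := ∀ U : Finset Ei, (∀ u ∈ U, Pq u) → ∀ ε : ℝ, 0 < ε → ∃ X₀ : ℕ, ∀ X : ℕ,
  X₀ ≤ X → (((SS X).filter fun S => S.card ≤ kk X ∧ Disjoint S U ∧
    ¬ Nd (sm (zz X) S ∪ U) (la (zz X) S)).card : ℝ) ≤ ε * X

/-- JL-LOW: a lower bound for the number of the sets considered.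

Proof. From the library's lower bound `Pool.Agent.Y550.XK.NS.t_LOW` (`c X ≤ |SS X|`). There are two
primary primes `q₁ ≠ q₂` outside `U` with `nrm q ≡ 4` modulo `9`: `q = -p` for the rational primes
`p ≡ 2` modulo `9` (infinitely many by Dirichlet, `Nat.setOf_prime_and_eq_mod_infinite`), `p` is inert in
`ℤ[ω]`, `nrm q = p ^ 2`, `-p ≡ 1` modulo `3`. For `S ∈ SS X` let `S' = S \ U`, and let `r ∈ R`, `r = 4` or
`r = 7`. Replacing `S'` by the symmetric difference `S''` with one of `∅, {q₁}, {q₂}, {q₁, q₂}` one can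
multiply the norm modulo `9` by any of `1, 4, 7` (adding `q` multiplies by `4`, removing it by `7`; check
the four cases of `S' ∩ {q₁, q₂}`), so that `nrm S'' ≡ r`, `S''` disjoint from `U`,
`nrm S'' ≤ X * nrm q₁ * nrm q₂`. The map `S ↦ S''` has fibres of at most `4 * 2 ^ |U|` elements. So
`|{S'' ∈ SS (X * nrm q₁ * nrm q₂), CondJ U R S''}| ≥ c X / (4 * 2 ^ |U|)`. -/
def S_LOWJ : Prop := ∀ (U : Finset Ei) (R : Set ℕ), (∀ u ∈ U, Pq u) → (4 ∈ R ∨ 7 ∈ R) →
  ∃ (c : ℝ) (X₀ : ℕ), 0 < c ∧ ∀ X : ℕ, X₀ ≤ X → c * X ≤ (((SS X).filter (CondJ U R)).card : ℝ)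

/-- **JL-DQ** the joint law for the sets (by helper451) -/
def S_DQJ : Prop := ∀ (k : ℕ) (w : Fin k → Ei → F) (U : Finset Ei) (R : Set ℕ), (∀ u ∈ U, Pq u) →
  (∀ j, ∀ π, π ∉ U → w j π = 1) → (∀ i j, i ≠ j → ∃ u ∈ U, w i u ≠ w j u) → (4 ∈ R ∨ 7 ∈ R) →
  Filter.Tendsto (fun X : ℕ => (((SS X).filter fun S => CondJ U R S ∧ GW w (S ∪ U)).card : ℝ) /
    (((SS X).filter (CondJ U R)).card : ℝ)) Filter.atTop (nhds (c9 ^ k))

end Pool.Agent.H451.JL
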