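import Mathlib
import Pool.Agent.H451.JL.Stm2
import Pool.Agent.H451.BB.Good
import Pool.Agent.H451.BB.Link

/-!
# Project JL (helper451): translation to the parameters `D_T` of diagonal cubic hypersurfaces
-/

set_option autoImplicit false
set_option linter.unusedVariables false

open scoped Classical

namespace Pool.Agent.H451.JL

open Finset
open Pool.Agent.Y692.QS (Ei w nr toC)
open Pool.Agent.Y715.T.Rec (cs)
open Pool.Agent.Y715.T.RecG (Pq)
open Pool.Agent.H451.BB (Base DD)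

/-- the element with the exponents `δ * w` -/
noncomputable def eD (δ : F) (w : Ei → F) (T : Finset Ei) : Ei := ∏ ρ ∈ sw w T, ρ ^ (δ * w ρ).val

/-- JL-BASE. Number the elements of `sw w T` (there is at least one, otherwise `nW w T = 1`) by
`Fin (n + 1)`, `e i = δ * w (π i)`; a solution of the system in `Ker π e` gives (transported and divided
by `δ`) an element of the set counted by `nW w T = 3`, which contains the three constants, so it is
constant. `Dt.nd` follows from `Pool.Agent.Y699.E.eq_of_dvd`. -/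
def S_BASE : Prop := ∀ (T : Finset Ei) (w : Ei → F) (δ : F), (∀ π ∈ T, Pq π) → δ ≠ 0 →
  nW w T = 3 → ¬ (9 : ℤ) ∣ nr (eD δ w T) - 1 → Base (eD δ w T)

/-- the exponent of `u` in `D_T` -/
def eE {n : ℕ} (e : Fin n → Ei → ℕ) (T : Finset (Fin (n + 1))) (u : Ei) : ℕ :=
  ∑ i, e i u + ∑ i ∈ univ.filter (fun i : Fin n => i.castSucc ∈ T), e i u

/-- the sign -/
def dE {n : ℕ} (T : Finset (Fin (n + 1))) : F := if Fin.last n ∈ T then -1 else 1

/-- the weights -/
noncomputable def wE {n : ℕ} (e : Fin n → Ei → ℕ) (U : Finset Ei) (T : Finset (Fin (n + 1)))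
    (ρ : Ei) : F := if ρ ∈ U then dE T * (eE e T ρ : F) else 1

/-- JL-FACT. With `a_i = ∏_{u ∈ U} u ^ (e i u)` for `i < n`, and `D = ∏_{π ∈ S} π` as the last
coefficient: `D_T = D ∏_{u ∈ U} u ^ (eE e T u)` if `last ∉ T`, `D ^ 2 ∏_{u ∈ U} u ^ (eE e T u)` if
`last ∈ T`. Take `c = ∏_{u ∈ U} u ^ (eE e T u / 3)`. For `u ∈ U`:
`(dE T * wE e U T u).val = eE e T u % 3`. -/
def S_FACT : Prop := ∀ (n : ℕ) (U S : Finset Ei) (e : Fin n → Ei → ℕ), (∀ π ∈ U, Pq π) →
  Disjoint S U → ∀ T : Finset (Fin (n + 1)), ∃ c : Ei, (3 : Ei) ∣ c - 1 ∧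
    DD (Fin.snoc (α := fun _ => Ei) (fun i => ∏ u ∈ U, u ^ (e i u)) (∏ π ∈ S, π)) T =
      c ^ 3 * eD (dE T) (wE e U T) (S ∪ U)

/-- JL-PRM: the factorisation of finitely many primary elements. (Use
`Pool.Agent.Y699.E.pp_induction` for each, `U = ⋃ PD (a i)`.) -/
def S_PRM : Prop := ∀ (n : ℕ) (a : Fin n → Ei), (∀ i, (3 : Ei) ∣ a i - 1) →
  ∃ (U : Finset Ei) (e : Fin n → Ei → ℕ), (∀ π ∈ U, Pq π) ∧ (∀ π ∈ U, ∃ i, π ∣ a i) ∧
    ∀ i, a i = ∏ u ∈ U, u ^ (e i u)

end Pool.Agent.H451.JL
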