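import Pool.Agent.H451.JL.Stm2
import Pool.Graph.R_seed8.Y433.XK.Few

/-! JL-BAD (helper685): few sets have degenerate labels (with a fixed set `U`). -/

set_option autoImplicit false
set_option linter.unusedVariables false

open scoped Classical

namespace Pool.Agent.H451.JL

open Finset Filter
open Pool.Agent.Y692.QS (Ei)
open Pool.Agent.Y715.T.Rec (cs)
open Pool.Agent.Y715.T.RecG (Pq)
open Pool.Agent.Y699.E
open Pool.Agent.Y703.CX (eL zz kk)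
open Pool.Agent.Y703.XK
open Pool.Agent.Y433.XK (pN pN_pos fiber_le gen Dg notNd)

namespace BAD

theorem lg_mul {m n : ℕ} (hm : 0 < m) (hn : 0 < n) : lg (m * n) ≤ lg m * (2 * lg n) := by
  have h1 : lg (m * n) ≤ lg m + lg n := by
    unfold lg
    have h2 := Nat.lt_pow_succ_log_self (b := 2) (by norm_num) m
    have h3 := Nat.lt_pow_succ_log_self (b := 2) (by norm_num) n
    have h4 : m * n < 2 ^ (Nat.log 2 m + Nat.log 2 n + 2) := by
      calc m * n < 2 ^ (Nat.log 2 m).succ * 2 ^ (Nat.log 2 n).succ :=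
            Nat.mul_lt_mul'' h2 h3
        _ = 2 ^ (Nat.log 2 m + Nat.log 2 n + 2) := by
            rw [← pow_add]; congr 1; simp only [Nat.succ_eq_add_one]; omega
    have h5 : Nat.log 2 (m * n) < Nat.log 2 m + Nat.log 2 n + 2 :=
      Nat.log_lt_of_lt_pow (by positivity) h4
    have h6 : Nat.log 2 (m * n) + 1 ≤ Nat.log 2 m + 1 + (Nat.log 2 n + 1) := by omega
    exact_mod_cast h6
  have h7 := one_le_lg m
  have h8 := one_le_lg n
  nlinarith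

theorem pair_count (X z : ℕ) (S₀ U : Finset Ei) (hS₀ : ∀ u ∈ S₀, Pq u ∧ nrm u ≤ z)
    (hU : ∀ u ∈ U, Pq u ∧ nrm u ≤ z)
    (A B : Finset Ei) (hA : A ⊆ S₀ ∪ U) (hB : B ⊆ S₀ ∪ U) (hd : Disjoint A B) (hAB : A ≠ B)
    (F : Finset (Finset Ei)) (hF : ∀ S ∈ F, (S ∈ SS X ∧ sm z S = S₀) ∧ Dg A B (la z S)) :
    (F.card : ℝ) ≤ (2835 * (2 * lg (pN U))) * lg (pN S₀) * (((X / pN S₀ : ℕ) : ℝ) *
          (lg (X / pN S₀)) ^ (-(1 / 3) : ℝ)) := by
  have hSU : ∀ u ∈ S₀ ∪ U, Pq u ∧ nrm u ≤ z := by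
    intro u hu
    rcases mem_union.1 hu with h | h
    · exact hS₀ u h
    · exact hU u h
  obtain ⟨a1, a2⟩ := PS_prod (S := A) fun π hπ => (hSU π (hA hπ)).1
  obtain ⟨b1, b2⟩ := PS_prod (S := B) fun π hπ => (hSU π (hB hπ)).1
  set a := ∏ π ∈ A, π with ha
  set b := ∏ π ∈ B, π with hb
  have hab : a ≠ b := by
    intro h
    apply hAB
    rw [← a2, ← b2, h]
  have hval : ∀ S ∈ F, ∀ π ∈ la z S, xab a b π = 1 := by
    intro S hS π hπ
    obtain ⟨⟨h1, h2⟩, h3⟩ := hF S hS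
    have hπq : Pq π ∧ ¬ nrm π ≤ z := by
      unfold la at hπ
      rw [mem_filter] at hπ
      unfold SS at h1
      rw [mem_filter] at h1
      exact ⟨h1.2.1.1 π hπ.1, hπ.2⟩
    have hchi : ∀ u ∈ S₀ ∪ U, chi u π = ez (cs u π) := by
      intro u hu
      refine chi_of fun hdv => ?_
      have := eq_of_dvd (hSU u hu).1 hπq.1 hdv
      subst this
      exact hπq.2 (hSU u hu).2
    unfold xab jac
    rw [a2, b2, prod_congr rfl fun u hu => hchi u (hA hu), prod_congr rfl fun u hu => hchi u (hB hu),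
      ← ez_sum, ← ez_sum, conj_ez, ← ez_add, ← sub_eq_add_neg, h3 π hπ, ez_zero]
  have h := fiber_le X z S₀ (fun u hu => (hS₀ u hu).1) F (fun S hS => (hF S hS).1)
    (fun π => (1 + 2 * (xab a b π).re) / 3) (fun π => by
      have := re_nonneg ((xab_ch a1 b1).val π)
      positivity) 1 (fun S hS => by
      refine le_of_eq (prod_eq_one fun π hπ => ?_).symm
      rw [hval S hS π hπ]
      norm_num)
  rw [mul_one] at h
  refine h.trans ((hallG a1 b1 hab _).trans ?_)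
  have hposS : 0 < pN S₀ := pN_pos fun u hu => (hS₀ u hu).1
  have hposU : 0 < pN U := pN_pos fun u hu => (hU u hu).1
  have hnn : nrm a * nrm b ≤ pN S₀ * pN U := by
    rw [ha, hb, nrm_prod, nrm_prod, ← prod_union hd]
    have e1 : ∏ x ∈ A ∪ B, nrm x ≤ ∏ x ∈ S₀ ∪ U, nrm x :=
      prod_le_prod_of_subset_of_one_le' (union_subset hA hB) fun u hu _ =>
        nrm_pos' (pq_ne (hSU u hu).1)
    refine e1.trans ?_
    have e2 : (∏ x ∈ S₀ ∪ U, nrm x) * ∏ x ∈ S₀ ∩ U, nrm x = pN S₀ * pN U :=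
      prod_union_inter
    rw [← e2]
    exact Nat.le_mul_of_pos_right _ (Finset.prod_pos fun u hu =>
      nrm_pos' (pq_ne (hS₀ u (mem_inter.1 hu).1).1))
  have h4 : (lg (nrm a * nrm b)) ^ (1 / 3 : ℝ) ≤ lg (pN S₀) * (2 * lg (pN U)) := by
    calc (lg (nrm a * nrm b)) ^ (1 / 3 : ℝ) ≤ (lg (nrm a * nrm b)) ^ (1 : ℝ) :=
          Real.rpow_le_rpow_of_exponent_le (one_le_lg _) (by norm_num)
      _ = lg (nrm a * nrm b) := Real.rpow_one _
      _ ≤ lg (pN S₀ * pN U) := lg_mono hnn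
      _ ≤ _ := lg_mul hposS hposU
  have hTl : 0 ≤ ((X / pN S₀ : ℕ) : ℝ) * (lg (X / pN S₀)) ^ (-(1 / 3) : ℝ) :=
    mul_nonneg (Nat.cast_nonneg _) (Real.rpow_nonneg (zero_le_one.trans (one_le_lg _)) _)
  calc 2835 * (lg (nrm a * nrm b)) ^ (1 / 3 : ℝ) * (((X / pN S₀ : ℕ) : ℝ) *
        (lg (X / pN S₀)) ^ (-(1 / 3) : ℝ)) ≤
        2835 * (lg (pN S₀) * (2 * lg (pN U))) * (((X / pN S₀ : ℕ) : ℝ) *
        (lg (X / pN S₀)) ^ (-(1 / 3) : ℝ)) := by gcongr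
    _ = _ := by ring

theorem bad_count (U : Finset Ei) (X : ℕ) (S₀ : Finset Ei) (hS₀ : ∀ u ∈ S₀, Pq u ∧ nrm u ≤ zz X)
    (G : Finset (Finset Ei))
    (hG : ∀ S ∈ G, S ∈ SS X ∧ (S.card ≤ kk X ∧ ((∀ u ∈ U, Pq u ∧ nrm u ≤ zz X) ∧
      ¬ Nd (sm (zz X) S ∪ U) (la (zz X) S))) ∧ sm (zz X) S = S₀) : (G.card : ℝ) ≤
        (2835 * (2 * lg (pN U)) * 4 ^ U.card) * 4 ^ S₀.card * lg (pN S₀) *
          (((X / pN S₀ : ℕ) : ℝ) * (lg (X / pN S₀)) ^ (-(1 / 3) : ℝ)) := by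
  have hTl : 0 ≤ ((X / pN S₀ : ℕ) : ℝ) * (lg (X / pN S₀)) ^ (-(1 / 3) : ℝ) :=
    mul_nonneg (Nat.cast_nonneg _) (Real.rpow_nonneg (zero_le_one.trans (one_le_lg _)) _)
  have hlg := lg_pos (pN S₀)
  have hlgU := lg_pos (pN U)
  rcases G.eq_empty_or_nonempty with hGe | ⟨S₁, hS₁⟩
  · rw [hGe, card_empty, Nat.cast_zero]
    positivity
  have hU := (hG S₁ hS₁).2.1.2.1
  set P := ((S₀ ∪ U).powerset ×ˢ (S₀ ∪ U).powerset).filter fun p => Disjoint p.1 p.2 ∧ p.1 ≠ p.2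
    with hP
  have hsub : G ⊆ P.biUnion fun p => G.filter fun S => Dg p.1 p.2 (la (zz X) S) := by
    intro S hS
    obtain ⟨h1, ⟨h2, -, h3⟩, h4⟩ := hG S hS
    rw [h4] at h3
    obtain ⟨A, B, hA, hB, hd, hAB, hDg⟩ := notNd h3
    rw [mem_biUnion]
    refine ⟨(A, B), ?_, ?_⟩
    · rw [hP, mem_filter, mem_product, mem_powerset, mem_powerset]
      exact ⟨⟨hA, hB⟩, hd, hAB⟩
    · rw [mem_filter]
      exact ⟨hS, hDg⟩
  have h1 : (G.card : ℝ) ≤ ∑ p ∈ P, ((G.filter fun S => Dg p.1 p.2 (la (zz X) S)).card : ℝ) := by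
    exact_mod_cast (card_le_card hsub).trans card_biUnion_le
  have h2 : ∀ p ∈ P, ((G.filter fun S => Dg p.1 p.2 (la (zz X) S)).card : ℝ) ≤
      (2835 * (2 * lg (pN U))) * lg (pN S₀) *
        (((X / pN S₀ : ℕ) : ℝ) * (lg (X / pN S₀)) ^ (-(1 / 3) : ℝ)) := by
    intro p hp
    rw [hP, mem_filter, mem_product, mem_powerset, mem_powerset] at hp
    refine pair_count X (zz X) S₀ U hS₀ hU p.1 p.2 hp.1.1 hp.1.2 hp.2.1 hp.2.2 _ ?_
    intro S hS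
    rw [mem_filter] at hS
    have h := hG S hS.1
    exact ⟨⟨h.1, h.2.2⟩, hS.2⟩
  have h3 : (P.card : ℝ) ≤ 4 ^ U.card * 4 ^ S₀.card := by
    have : P.card ≤ 4 ^ U.card * 4 ^ S₀.card := by
      refine (card_filter_le _ _).trans ?_
      rw [card_product, card_powerset, ← mul_pow, ← pow_add]
      have e1 : (S₀ ∪ U).card ≤ U.card + S₀.card := by
        rw [add_comm]
        exact card_union_le _ _
      have e2 : (2 * 2) ^ (S₀ ∪ U).card ≤ 4 ^ (U.card + S₀.card) :=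
        Nat.pow_le_pow_right (by norm_num) e1
      exact e2
    exact_mod_cast this
  calc (G.card : ℝ) ≤ ∑ p ∈ P, (2835 * (2 * lg (pN U))) * lg (pN S₀) * (((X / pN S₀ : ℕ) : ℝ) *
        (lg (X / pN S₀)) ^ (-(1 / 3) : ℝ)) := h1.trans (sum_le_sum h2)
    _ = P.card * ((2835 * (2 * lg (pN U))) * lg (pN S₀) * (((X / pN S₀ : ℕ) : ℝ) *
        (lg (X / pN S₀)) ^ (-(1 / 3) : ℝ))) := by rw [sum_const, nsmul_eq_mul]
    _ ≤ 4 ^ U.card * 4 ^ S₀.card * ((2835 * (2 * lg (pN U))) * lg (pN S₀) *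
        (((X / pN S₀ : ℕ) : ℝ) * (lg (X / pN S₀)) ^ (-(1 / 3) : ℝ))) :=
        mul_le_mul_of_nonneg_right h3 (by positivity)
    _ = _ := by ring

theorem zz_large (M : ℕ) : ∃ X₀ : ℕ, ∀ X : ℕ, X₀ ≤ X → M ≤ zz X := by
  have hlog : Tendsto (fun X : ℕ => Real.log (Real.log (X : ℝ))) atTop atTop :=
    Real.tendsto_log_atTop.comp (Real.tendsto_log_atTop.comp tendsto_natCast_atTop_atTop)
  have h1 : ∀ᶠ X : ℕ in atTop, (M : ℝ) + 1 ≤ Real.log (Real.log (X : ℝ)) :=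
    hlog.eventually_ge_atTop _
  obtain ⟨X₀, hX₀⟩ := eventually_atTop.1 h1
  refine ⟨X₀, fun X hX => ?_⟩
  have h2 := hX₀ X hX
  have hM : (0 : ℝ) ≤ M := Nat.cast_nonneg _
  unfold zz
  rw [Nat.le_floor_iff (Real.exp_pos _).le]
  have h3 : (M : ℝ) + 1 ≤ eL X := h2
  have h4 : (M : ℝ) ≤ eL X ^ 3 := by
    have h5 : (1 : ℝ) ≤ eL X := by linarith
    have h6 : eL X ≤ eL X ^ 3 := by
      calc eL X = eL X ^ 1 := (pow_one _).symm
        _ ≤ eL X ^ 3 := pow_le_pow_right₀ h5 (by norm_num)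
    linarith
  have h7 := Real.add_one_le_exp (eL X ^ 3)
  linarith

end BAD

theorem t_BADJ : S_BADJ := by
  intro U hU ε hε
  obtain ⟨X₁, hX₁⟩ := gen 4 (2835 * (2 * lg (pN U)) * 4 ^ U.card) (by norm_num)
    (by have := lg_pos (pN U); positivity)
    (fun X S => (∀ u ∈ U, Pq u ∧ nrm u ≤ zz X) ∧ ¬ Nd (sm (zz X) S ∪ U) (la (zz X) S))
    (fun X S₀ hS₀ _ F hF => BAD.bad_count U X S₀ hS₀ F hF) ε hε
  obtain ⟨X₂, hX₂⟩ := BAD.zz_large (∑ u ∈ U, nrm u)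
  refine ⟨max X₁ X₂, fun X hX => hX₁ X (le_of_max_le_left hX) _ fun S hS => ?_⟩
  rw [mem_filter] at hS
  refine ⟨hS.1, hS.2.1, fun u hu => ⟨hU u hu, ?_⟩, hS.2.2.2⟩
  exact (Finset.single_le_sum (f := fun u => nrm u) (fun _ _ => Nat.zero_le _) hu).trans
    (hX₂ X (le_of_max_le_right hX))

end Pool.Agent.H451.JL
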