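import Pool.Agent.H451.JL.Stm2
import Pool.Graph.R_seed8.Y170.XL.BOX
import Pool.Graph.R_seed8.Y85.XK.LA

/-! JL-BOX: the count in a box (adapted from `Pool.Agent.Y170.XL.BOX`). -/

set_option autoImplicit false

open scoped Classical

namespace Pool.Agent.H451.JL

open Finset
open Pool.Agent.Y692.QS (Ei)
open Pool.Agent.Y715.T.Rec (cs)
open Pool.Agent.Y715.T.RecG (Pq)
open Pool.Agent.Y703.XK (Nd HB prs S_EQ c9)
open Pool.Agent.Y703.XL (nA)
open Pool.Agent.Y688.XK (lb LN cs_symm nd_iff ext_sum HB_sub)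
open Pool.Agent.Y170.XL (em em_bij fe fe_one fe_two sum_em)

section one
variable {ι : Type} [Fintype ι] [LinearOrder ι] {S₀ : Finset Ei} {p : ι → Ei} {ω : Ei → F}

omit [LinearOrder ι] in
theorem sw_union (h1 : ∀ i, ω (p i) = 1) :
    sw ω (S₀ ∪ univ.image p) = sw ω S₀ ∪ univ.image p := by
  unfold sw
  rw [Finset.filter_union]
  congr 1
  refine Finset.filter_true_of_mem ?_
  intro x hx
  rw [Finset.mem_image] at hx
  obtain ⟨i, -, rfl⟩ := hx
  rw [h1]
  exact one_ne_zero

omit [Fintype ι] [LinearOrder ι] in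
theorem sw_not (hd : ∀ i, p i ∉ S₀) : ∀ i, p i ∉ sw ω S₀ := fun i h =>
  hd i (Finset.mem_filter.1 h).1

theorem sw_ne {S : Finset Ei} (u : sw ω S) : ω u ≠ 0 := (Finset.mem_filter.1 u.2).2

theorem sw_mem {S : Finset Ei} (u : sw ω S) : (u : Ei) ∈ S := (Finset.mem_filter.1 u.2).1

/-- **the numbers of solutions agree** -/
theorem nW_eq (hp : Function.Injective p) (hpr : ∀ i, Pq (p i)) (hS₀ : ∀ u ∈ S₀, Pq u)
    (hd : ∀ i, p i ∉ S₀) (h1 : ∀ i, ω (p i) = 1) :
    nW ω (S₀ ∪ univ.image p) = nA (fun u v : sw ω S₀ => ω u * ω v * cs u v)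
      (fun (u : sw ω S₀) l => ω u * cs u (p l))
      (Pool.Agent.Y703.XK.ext fun e : prs ι => cs (p e.1.1) (p e.1.2)) := by
  have hd' : ∀ i, p i ∉ sw ω S₀ := sw_not hd
  unfold nW nA
  rw [sw_union h1]
  refine Nat.card_congr (Equiv.subtypeEquiv (fe hp hd') fun v => ?_)
  have hsym : ∀ k : ι, ∑ u : sw ω S₀, cs (p k) u * ω u *
        (v (em (sw ω S₀) p (Sum.inl u)) - v (em (sw ω S₀) p (Sum.inr k))) =
      ∑ u : sw ω S₀, ω u * cs u (p k) *
        (v (em (sw ω S₀) p (Sum.inl u)) - v (em (sw ω S₀) p (Sum.inr k))) := by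
    intro k
    refine Finset.sum_congr rfl fun u _ => ?_
    rw [cs_symm (hpr k) (hS₀ u (sw_mem u)), mul_comm (cs _ _) (ω _)]
  have hext := fun k => ext_sum hpr k (fun l => v (em (sw ω S₀) p (Sum.inr l)))
  have hone : ∀ (x : Ei) (y : F), ∑ l, cs x (p l) * ω (p l) * (v (em (sw ω S₀) p (Sum.inr l)) - y) =
      ∑ l, cs x (p l) * (v (em (sw ω S₀) p (Sum.inr l)) - y) := by
    intro x y
    refine Finset.sum_congr rfl fun l _ => ?_
    rw [h1, mul_one]
  have hrow : ∀ u : sw ω S₀,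
      (∑ u' : sw ω S₀, ω u * ω u' * cs u u' *
          (v (em (sw ω S₀) p (Sum.inl u')) - v (em (sw ω S₀) p (Sum.inl u))) +
        ∑ l, ω u * cs u (p l) * (v (em (sw ω S₀) p (Sum.inr l)) -
          v (em (sw ω S₀) p (Sum.inl u)))) =
      ω u * (∑ u' : sw ω S₀, cs u u' * ω u' *
          (v (em (sw ω S₀) p (Sum.inl u')) - v (em (sw ω S₀) p (Sum.inl u))) +
        ∑ l, cs u (p l) * (v (em (sw ω S₀) p (Sum.inr l)) -
          v (em (sw ω S₀) p (Sum.inl u)))) := by
    intro u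
    rw [mul_add, Finset.mul_sum, Finset.mul_sum]
    congr 1
    · refine Finset.sum_congr rfl fun u' _ => ?_
      ring
    · refine Finset.sum_congr rfl fun l _ => ?_
      ring
  constructor
  · intro h
    refine ⟨fun u => ?_, fun k => ?_⟩
    · have h2 := h (em (sw ω S₀) p (Sum.inl u))
      rw [sum_em hp hd'] at h2
      have h3 : ∑ u' : sw ω S₀, cs u u' * ω u' *
          (v (em (sw ω S₀) p (Sum.inl u')) - v (em (sw ω S₀) p (Sum.inl u))) +
        ∑ l, cs u (p l) * ω (p l) * (v (em (sw ω S₀) p (Sum.inr l)) -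
          v (em (sw ω S₀) p (Sum.inl u))) = 0 := h2
      rw [hone] at h3
      have h4 := hrow u
      rw [h3, mul_zero] at h4
      exact h4
    · have h2 := h (em (sw ω S₀) p (Sum.inr k))
      rw [sum_em hp hd'] at h2
      have h3 : ∑ u : sw ω S₀, cs (p k) u * ω u *
            (v (em (sw ω S₀) p (Sum.inl u)) - v (em (sw ω S₀) p (Sum.inr k))) +
          ∑ l, cs (p k) (p l) * ω (p l) * (v (em (sw ω S₀) p (Sum.inr l)) -
            v (em (sw ω S₀) p (Sum.inr k))) = 0 := h2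
      rw [hone, hsym, ← hext k] at h3
      exact h3
  · rintro ⟨h2, h3⟩ x
    obtain ⟨y, rfl⟩ := (em_bij hp hd').2 x
    rw [sum_em hp hd']
    rcases y with u | k
    · have h4 := h2 u
      have h5 : ω u * (∑ u' : sw ω S₀, cs u u' * ω u' *
          (v (em (sw ω S₀) p (Sum.inl u')) - v (em (sw ω S₀) p (Sum.inl u))) +
        ∑ l, cs u (p l) * (v (em (sw ω S₀) p (Sum.inr l)) -
          v (em (sw ω S₀) p (Sum.inl u)))) = 0 := by
        rw [← hrow u]
        exact h4
      have h6 := (mul_eq_zero.1 h5).resolve_left (sw_ne u)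
      rw [← hone] at h6
      exact h6
    · have h4 : ∑ u : sw ω S₀, ω u * cs u (p k) *
            (v (em (sw ω S₀) p (Sum.inl u)) - v (em (sw ω S₀) p (Sum.inr k))) +
        ∑ l, Pool.Agent.Y703.XK.ext (fun e : prs ι => cs (p e.1.1) (p e.1.2)) k l *
          (v (em (sw ω S₀) p (Sum.inr l)) - v (em (sw ω S₀) p (Sum.inr k))) = 0 := h3 k
      rw [hext k, ← hsym, ← hone] at h4
      exact h4

end one

section two
variable {ι : Type} [Fintype ι] [LinearOrder ι] {S₀ : Finset Ei}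

/-- the good labels -/
def LNV {k : ℕ} (w : Fin k → Ei → F) (V : ℕ) (S₀ : Finset Ei) (β : ι → S₀ → F) : Prop :=
  LN S₀ β ∧ S₀.card + V < Fintype.card ι ∧ ∀ i j, i ≠ j → 2 * S₀.card + V <
    (univ.filter fun l : ι => ∑ u : S₀, w i u * β l u ≠ ∑ u : S₀, w j u * β l u).card

omit [LinearOrder ι] in
theorem ndv_iff {k : ℕ} {w : Fin k → Ei → F} {V : ℕ} {p : ι → Ei} (hp : Function.Injective p) :
    NdV w V S₀ (univ.image p) ↔ LNV w V S₀ (fun i => lb S₀ (p i)) := by
  unfold NdV LNV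
  rw [nd_iff, Finset.card_image_of_injective _ hp, Finset.card_univ]
  refine and_congr_right fun _ => and_congr_right fun _ => ?_
  refine forall_congr' fun i => forall_congr' fun j => imp_congr_right fun _ => ?_
  have h : ((univ.image p).filter fun π => ∑ u ∈ S₀, w i u * cs u π ≠ ∑ u ∈ S₀, w j u * cs u π).card =
      (univ.filter fun l : ι => ∑ u : S₀, w i u * lb S₀ (p l) u ≠
        ∑ u : S₀, w j u * lb S₀ (p l) u).card := by
    rw [Finset.filter_image, Finset.card_image_of_injective _ hp]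
    congr 1
    ext l
    simp only [Finset.mem_filter, Finset.mem_univ, true_and]
    rw [← Finset.sum_coe_sort S₀, ← Finset.sum_coe_sort S₀]
    exact Iff.rfl
  rw [h]

/-- sums over the elements of nonzero weight -/
theorem sum_sw {ω : Ei → F} (f : S₀ → F) :
    ∑ u : sw ω S₀, ω u * f ⟨u, sw_mem u⟩ = ∑ u : S₀, ω u * f u := by
  classical
  have h1 : ∑ u : sw ω S₀, ω u * f ⟨u, sw_mem u⟩ =
      ∑ x ∈ sw ω S₀, (if h : x ∈ S₀ then ω x * f ⟨x, h⟩ else 0) := by
    rw [← Finset.sum_coe_sort (sw ω S₀)]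
    refine Finset.sum_congr rfl fun u _ => ?_
    rw [dif_pos (sw_mem u)]
  have h2 : ∑ u : S₀, ω u * f u = ∑ x ∈ S₀, (if h : x ∈ S₀ then ω x * f ⟨x, h⟩ else 0) := by
    rw [← Finset.sum_coe_sort S₀]
    refine Finset.sum_congr rfl fun u _ => ?_
    rw [dif_pos u.2]
  rw [h1, h2]
  unfold sw
  rw [Finset.sum_filter]
  refine Finset.sum_congr rfl fun x hx => ?_
  by_cases h0 : ω x = 0
  · rw [if_neg (not_not.2 h0), dif_pos hx, h0, zero_mul]
  · rw [if_pos h0]

end two

/-- **The count in a box.** -/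
theorem t_BOXJ : S_EQ → S_SYS → S_BOXJ := by
  intro hEQ hSYS k w U hw ε hε
  obtain ⟨V, hV⟩ := hSYS k ε hε
  refine ⟨V, ?_⟩
  intro ι _ _ C X κ S₀ hκ hCX hHB hS₀ hC hdis hU
  obtain ⟨R, hR⟩ : ∃ R : ℝ, R = 3 ^ (prs ι).card * (κ * ∏ j, (X j : ℝ)) := ⟨_, rfl⟩
  have hR0 : 0 ≤ R := by
    rw [hR]
    exact mul_nonneg (by positivity)
      (mul_nonneg hκ (Finset.prod_nonneg fun j _ => by positivity))
  -- facts on tuples
  have hinj : ∀ p ∈ Fintype.piFinset C, Function.Injective p := by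
    intro p hp i j hij
    rw [Fintype.mem_piFinset] at hp
    by_contra hne
    have h1 := Finset.disjoint_left.1 (hdis i j hne) (hp i)
    rw [hij] at h1
    exact h1 (hp j)
  have hd : ∀ p ∈ Fintype.piFinset C, ∀ i, p i ∉ S₀ := by
    intro p hp i
    rw [Fintype.mem_piFinset] at hp
    exact (hC i _ (hp i)).2
  have hpr : ∀ p ∈ Fintype.piFinset C, ∀ i, Pq (p i) := by
    intro p hp i
    rw [Fintype.mem_piFinset] at hp
    exact (hC i _ (hp i)).1
  have hw1 : ∀ p ∈ Fintype.piFinset C, ∀ j i, w j (p i) = 1 := by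
    intro p hp j i
    exact hw j _ fun h => hd p hp i (hU h)
  -- the part with given labels
  have h1 : ∀ β : ι → S₀ → F, LNV w V S₀ β →
      |(((Fintype.piFinset C).filter fun p => (fun i => lb S₀ (p i)) = β ∧
          GW w (S₀ ∪ univ.image p)).card : ℝ) -
        c9 ^ k * (((Fintype.piFinset C).filter fun p => (fun i => lb S₀ (p i)) = β).card : ℝ)| ≤
      ε * (((Fintype.piFinset C).filter fun p => (fun i => lb S₀ (p i)) = β).card : ℝ) + R := by
    intro β hβ
    obtain ⟨C', hC'⟩ : ∃ C' : ι → Finset Ei, C' = fun i => (C i).filter fun q => lb S₀ q = β i :=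
      ⟨_, rfl⟩
    have hpi : (Fintype.piFinset C).filter (fun p => (fun i => lb S₀ (p i)) = β) =
        Fintype.piFinset C' := by
      ext p
      simp only [Finset.mem_filter, Fintype.mem_piFinset, hC']
      constructor
      · rintro ⟨h2, h3⟩ i
        exact ⟨h2 i, congrFun h3 i⟩
      · intro h2
        exact ⟨fun i => (h2 i).1, funext fun i => (h2 i).2⟩
    obtain ⟨ks, hks⟩ := Pool.Agent.Y85.XK.exists_ks (ι := S₀) (κ := ι)
      (by rw [Fintype.card_coe]; have := hβ.2.1; omega) (fun u l => β l u)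
      (fun v hv => hβ.1 v hv)
    have h2 := hV (fun j => ↥(sw (w j) S₀)) ι
      (fun j u v => w j u * w j v * cs u v) (fun j u l => w j u * β l ⟨u, sw_mem u⟩)
      S₀.card ks
      (fun j u v => by rw [cs_symm (hS₀ u (sw_mem u)) (hS₀ v (sw_mem v)), mul_comm (w j u)])
      (fun j => by
        rw [Fintype.card_coe]
        exact Finset.card_le_card (Finset.filter_subset _ _))
      hβ.2.1
      (by
        rintro j v ⟨u, hu⟩
        obtain ⟨l, hl, hl2⟩ := hks
          (fun x => if h : (x : Ei) ∈ sw (w j) S₀ then w j x * v ⟨x, h⟩ else 0)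
          ⟨⟨u, sw_mem u⟩, by
            rw [dif_pos u.2]
            exact mul_ne_zero (sw_ne u) hu⟩
        refine ⟨l, hl, fun h0 => hl2 ?_⟩
        refine Eq.trans ?_ h0
        have h3 := sum_sw (S₀ := S₀) (ω := w j)
          (fun x => if h : (x : Ei) ∈ sw (w j) S₀ then v ⟨x, h⟩ * β l x else 0)
        have h4 : ∑ x : S₀, w j x * (if h : (x : Ei) ∈ sw (w j) S₀ then v ⟨x, h⟩ * β l x else 0) =
            ∑ x : S₀, (if h : (x : Ei) ∈ sw (w j) S₀ then w j x * v ⟨x, h⟩ else 0) * β l x := by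
          refine Finset.sum_congr rfl fun x _ => ?_
          by_cases h : (x : Ei) ∈ sw (w j) S₀
          · rw [dif_pos h, dif_pos h]; ring
          · rw [dif_neg h, dif_neg h, mul_zero, zero_mul]
        rw [← h4, ← h3]
        refine Finset.sum_congr rfl fun x _ => ?_
        rw [dif_pos x.2]
        ring)
      (by
        intro i j hij
        have h3 := hβ.2.2 i j hij
        have h4 : ∀ (i : Fin k) (l : ι), ∑ u : sw (w i) S₀, w i u * β l ⟨u, sw_mem u⟩ =
            ∑ u : S₀, w i u * β l u := fun i l => sum_sw (S₀ := S₀) (ω := w i) (fun u => β l u)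
        simp only [h4]
        exact h3)
    obtain ⟨Q, hQ⟩ : ∃ Q : (prs ι → F) → Prop, Q = fun α => ∀ j : Fin k,
        nA (fun u v : sw (w j) S₀ => w j u * w j v * cs u v)
          (fun (u : sw (w j) S₀) l => w j u * β l ⟨u, sw_mem u⟩)
          (Pool.Agent.Y703.XK.ext α) = 3 := ⟨_, rfl⟩
    have h3 := hEQ ι C' X κ hκ
      (fun i => (Finset.card_le_card (by rw [hC']; exact Finset.filter_subset _ _)).trans (hCX i))
      (by rw [hC']; exact HB_sub hHB fun i q => lb S₀ q = β i) Q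
    have h4 : ((Fintype.piFinset C).filter fun p => (fun i => lb S₀ (p i)) = β ∧
        GW w (S₀ ∪ univ.image p)) = ((Fintype.piFinset C').filter fun p =>
          Q fun e => cs (p e.1.1) (p e.1.2)) := by
      rw [← hpi, Finset.filter_filter]
      refine Finset.filter_congr fun p hp => ?_
      refine and_congr_right fun hl => ?_
      unfold GW
      subst hl
      rw [hQ]
      refine forall_congr' fun j => ?_
      rw [nW_eq (hinj p hp) (hpr p hp) hS₀ (hd p hp) (hw1 p hp j)]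
      exact Iff.rfl
    have h5 : (((Fintype.piFinset C').card : ℕ) : ℝ) = ∏ j, ((C' j).card : ℝ) := by
      rw [Fintype.card_piFinset]
      push_cast
      rfl
    rw [h4, hpi, h5]
    rw [← hR] at h3
    obtain ⟨n, hn⟩ : ∃ n : ℝ, n = (((Fintype.piFinset C').filter fun p =>
          Q fun e => cs (p e.1.1) (p e.1.2)).card : ℝ) := ⟨_, rfl⟩
    obtain ⟨q, hq⟩ : ∃ q : ℝ, q = ((univ.filter Q).card : ℝ) / 3 ^ (prs ι).card := ⟨_, rfl⟩
    obtain ⟨P, hP⟩ : ∃ P : ℝ, P = ∏ j, ((C' j).card : ℝ) := ⟨_, rfl⟩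
    have hP0 : 0 ≤ P := by
      rw [hP]
      exact Finset.prod_nonneg fun j _ => by positivity
    have h2' : |q - c9 ^ k| ≤ ε := by
      have e : (univ.filter Q) = (univ.filter fun α : prs ι → F => ∀ j : Fin k,
        nA (fun u v : sw (w j) S₀ => w j u * w j v * cs u v)
          (fun (u : sw (w j) S₀) l => w j u * β l ⟨u, sw_mem u⟩)
          (Pool.Agent.Y703.XK.ext α) = 3) := by
        ext α
        rw [Finset.mem_filter, Finset.mem_filter, hQ]
      rw [hq, e]
      exact h2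
    rw [← hn, ← hq, ← hP] at h3
    rw [← hn, ← hP]
    have h6 : |n - c9 ^ k * P| ≤ |n - q * P| + |q - c9 ^ k| * P := by
      have h7 : n - c9 ^ k * P = (n - q * P) + (q - c9 ^ k) * P := by ring
      have h8 : |(q - c9 ^ k) * P| = |q - c9 ^ k| * P := by rw [abs_mul, abs_of_nonneg hP0]
      rw [h7, ← h8]
      exact abs_add_le _ _
    have h7 : |q - c9 ^ k| * P ≤ ε * P := mul_le_mul_of_nonneg_right h2' hP0
    linarith
  -- sum over the labels
  obtain ⟨LL, hLL⟩ : ∃ LL : Finset (ι → S₀ → F), LL = univ.filter (fun β => LNV w V S₀ β) :=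
    ⟨_, rfl⟩
  have hfib : ∀ T : (ι → Ei) → Prop,
      (((Fintype.piFinset C).filter fun p => NdV w V S₀ (univ.image p) ∧ T p).card : ℝ) =
      ∑ β ∈ LL, (((Fintype.piFinset C).filter fun p =>
        (fun i => lb S₀ (p i)) = β ∧ T p).card : ℝ) := by
    intro T
    rw [Finset.card_eq_sum_card_fiberwise (f := fun (p : ι → Ei) (i : ι) => lb S₀ (p i))
      (t := LL) (by
        intro p hp
        rw [Finset.mem_coe, Finset.mem_filter] at hp
        rw [Finset.mem_coe, hLL, Finset.mem_filter]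
        exact ⟨Finset.mem_univ _, (ndv_iff (hinj p hp.1)).1 hp.2.1⟩)]
    push_cast
    refine Finset.sum_congr rfl fun β hβ => ?_
    rw [hLL, Finset.mem_filter] at hβ
    congr 2
    ext p
    simp only [Finset.mem_filter]
    constructor
    · rintro ⟨⟨h3, h4, h4'⟩, h5⟩
      exact ⟨h3, h5, h4'⟩
    · rintro ⟨h3, h4, h5⟩
      refine ⟨⟨h3, ?_, h5⟩, h4⟩
      rw [ndv_iff (hinj p h3), h4]
      exact hβ.2
  have hf1 := hfib fun p => GW w (S₀ ∪ univ.image p)
  have hf2 := hfib fun _ => True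
  simp only [and_true] at hf2
  rw [hf1, hf2, Finset.mul_sum, ← Finset.sum_sub_distrib]
  refine (Finset.abs_sum_le_sum_abs _ _).trans ?_
  refine (Finset.sum_le_sum fun β hβ => h1 β (by
    rw [hLL] at hβ
    exact (Finset.mem_filter.1 hβ).2)).trans ?_
  rw [Finset.sum_add_distrib, ← Finset.mul_sum, Finset.sum_const, nsmul_eq_mul]
  have h5 : ((LL.card : ℕ) : ℝ) ≤ 3 ^ (S₀.card * Fintype.card ι) := by
    have h6 : LL.card ≤ Fintype.card (ι → S₀ → F) :=
      Finset.card_le_univ _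
    rw [Fintype.card_fun, Fintype.card_fun, ZMod.card, Fintype.card_coe, ← pow_mul] at h6
    exact_mod_cast h6
  have h6 := mul_le_mul_of_nonneg_right h5 hR0
  rw [pow_add, mul_assoc, ← hR]
  linarith

end Pool.Agent.H451.JL
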