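import Mathlib
import Pool.Agent.H451.JL.Stm

/-!
# Project JL (helper451): the limit (`S_C`) and the joint law (`S_JL`)
-/

set_option autoImplicit false

open scoped Classical

namespace Pool.Agent.H451.JL

open Finset
open Pool.Agent.Y759.CX (fr)
open Pool.Agent.Y85.XK (Sy)
open Pool.Agent.Y703.XK (c9)

namespace C

lemma mem_R {V : Type} [AddCommGroup V] [Module F V] {k : ℕ} (s : Sys V k) (j : Fin k) (S : Sy V)
    (p : s.L j) : p ∈ s.R j S ↔ S.1 (s.y j p) = s.b j p := by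
  unfold Sys.R
  rw [LinearMap.mem_ker, LinearMap.sub_apply, sub_eq_zero, LinearMap.comp_apply]

lemma finrank_R_zero {V : Type} [AddCommGroup V] [Module F V] {k : ℕ} (s : Sys V k) (j : Fin k)
    (S : Sy V) : Module.finrank F (s.R j S) = 0 ↔
      ∀ p : s.L j, S.1 (s.y j p) = s.b j p → p = 0 := by
  have : Module.Finite F (s.L j) := Module.Finite.of_finite
  rw [Submodule.finrank_eq_zero, Submodule.eq_bot_iff]
  simp only [mem_R]

/-- the bound for given `k`, `t` -/
lemma key (hEX : S_EX) (k t : ℕ) (C : ℝ)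
    (hTR : ∀ (Ω : Type) [Fintype Ω] (r : Ω → Fin k → ℕ)
      (δ : ℝ), 0 < Fintype.card Ω → 0 ≤ δ →
      (∀ d : Fin k → ℕ, (∀ j, d j ≤ t + 1) →
        |(∑ ω, ∏ j, In (d j) (r ω j)) / (Fintype.card Ω : ℝ) -
        ∏ j, (3 : ℝ) ^ ((d j).choose 2)| ≤ δ) →
      |((univ.filter fun ω => ∀ j, r ω j = 0).card : ℝ) / (Fintype.card Ω : ℝ) - sT t ^ k| ≤
        (1 + eT t) ^ k - 1 + C * δ)
    (V : Type) [AddCommGroup V] [Module F V] [Finite V] (N : ℕ) (s : Sys V k) (hs : s.OK N) :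
    |fr (fun S : Sy V => ∀ j, ∀ p : s.L j, S.1 (s.y j p) = s.b j p → p = 0) - sT t ^ k| ≤
      (1 + eT t) ^ k - 1 + C * (3 ^ (3 * (k * (t + 1)) ^ 2 + 2) / 3 ^ N) := by
  let hF : Fintype (Sy V) := Fintype.ofFinite _
  have h := hTR (Sy V) (fun S j => Module.finrank F (s.R j S))
    (3 ^ (3 * (k * (t + 1)) ^ 2 + 2) / 3 ^ N) Fintype.card_pos (by positivity) (by
      intro d hd
      have h1 := hEX V k N s d hs hF
      rw [le_div_iff₀ (by positivity)]
      refine h1.trans ?_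
      refine pow_le_pow_right₀ (by norm_num) ?_
      have h2 : ∑ j, d j ≤ k * (t + 1) := by
        calc ∑ j, d j ≤ ∑ _j : Fin k, (t + 1) := Finset.sum_le_sum fun j _ => hd j
          _ = k * (t + 1) := by simp
      have h3 : (∑ j, d j) ^ 2 ≤ (k * (t + 1)) ^ 2 := Nat.pow_le_pow_left h2 2
      omega)
  have e : fr (fun S : Sy V => ∀ j, ∀ p : s.L j, S.1 (s.y j p) = s.b j p → p = 0) =
      ((univ.filter fun S : Sy V => ∀ j, Module.finrank F (s.R j S) = 0).card : ℝ) /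
        (Fintype.card (Sy V) : ℝ) := by
    unfold fr
    rw [Nat.card_eq_fintype_card, Nat.card_eq_fintype_card, Fintype.card_subtype]
    congr 3
    ext S
    simp only [Finset.mem_filter, Finset.mem_univ, true_and, finrank_R_zero]
  rw [e]
  exact h

/-- the system whose solutions are the elements of the radical -/
noncomputable def rs (V : Type) [AddCommGroup V] [Module F V] [Fintype V] : Sys V 1 where
  L := fun _ => V
  y := fun _ => LinearMap.id
  b := fun _ => 0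

lemma rs_OK (n : ℕ) : (rs (Fin n → F)).OK n where
  card := fun _ => rfl
  sym := fun _ _ _ => rfl
  inj := fun _ _ h _ => h
  ker := fun j => by
    have h1 : Nat.card {p : (rs (Fin n → F)).L j // (rs (Fin n → F)).y j p = 0} = 1 := by
      rw [Nat.card_eq_one_iff_unique]
      refine ⟨⟨?_⟩, ⟨⟨(0 : Fin n → F), rfl⟩⟩⟩
      rintro ⟨a, ha⟩ ⟨b, hb⟩
      apply Subtype.ext
      have ha' : (a : Fin n → F) = 0 := ha
      have hb' : (b : Fin n → F) = 0 := hb
      show (a : Fin n → F) = b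
      rw [ha', hb']
    rw [h1, one_mul, Nat.card_eq_fintype_card, Fintype.card_fun, Fintype.card_fin, ZMod.card]
  cross := fun i j hij => absurd (Subsingleton.elim i j) hij

end C

open C

theorem t_C : S_EX → S_TR → Pool.Agent.Y703.XL.S_LIM → S_C := by
  intro hEX hTR hLIM t
  obtain ⟨C, hC, hT⟩ := hTR 1 t
  have hb : ∀ n : ℕ, |sT t - c9| ≤
      eT t + (C * 3 ^ (3 * (1 * (t + 1)) ^ 2 + 2) + 1) * (1 / 3 : ℝ) ^ n := by
    intro n
    have h1 := key hEX 1 t C hT (Fin n → F) n (rs (Fin n → F)) (rs_OK n)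
    have h2 := hLIM (Fin n → F) 0
    have e1 : fr (fun S : Sy (Fin n → F) => ∀ j, ∀ p : (rs (Fin n → F)).L j,
        S.1 ((rs (Fin n → F)).y j p) = (rs (Fin n → F)).b j p → p = 0) =
        fr (fun S : Sy (Fin n → F) => Pool.Agent.Y703.XL.nR S = 3 ^ 0) := by
      congr 1
      ext S
      unfold Pool.Agent.Y703.XL.nR
      rw [pow_zero, Nat.card_eq_one_iff_unique]
      constructor
      · intro h
        refine ⟨⟨?_⟩, ⟨⟨0, fun y => by simp⟩⟩⟩
        have h0 : ∀ p : Fin n → F, (∀ y, S.1 p y = 0) → p = 0 := fun p hp =>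
          h 0 p (LinearMap.ext hp)
        rintro ⟨a, ha⟩ ⟨b, hb⟩
        apply Subtype.ext
        show a = b
        rw [h0 a ha, h0 b hb]
      · rintro ⟨hs, -⟩ j p hp
        have hp' : ∀ y, S.1 p y = 0 := fun y => by
          have := congrArg (fun f : (Fin n → F) →ₗ[F] F => f y) hp
          exact this
        have := hs.elim ⟨p, hp'⟩ ⟨0, fun y => by simp⟩
        exact congrArg Subtype.val this
    have e2 : Pool.Agent.Y703.XL.cr 0 = c9 := by
      unfold Pool.Agent.Y703.XL.cr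
      simp
    have e3 : Module.finrank (ZMod 3) (Fin n → F) = n := by
      simp
    rw [e1, pow_one, pow_one] at h1
    rw [e2, e3, pow_zero (3 : ℝ), one_mul] at h2
    have h3 : |sT t - c9| ≤
        |fr (fun S : Sy (Fin n → F) => Pool.Agent.Y703.XL.nR S = 3 ^ 0) - sT t| +
        |fr (fun S : Sy (Fin n → F) => Pool.Agent.Y703.XL.nR S = 3 ^ 0) - c9| := by
      have := abs_sub_le (sT t) (fr (fun S : Sy (Fin n → F) => Pool.Agent.Y703.XL.nR S = 3 ^ 0)) c9
      rwa [abs_sub_comm (sT t) (fr _)] at this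
    have h4 : (C * 3 ^ (3 * (1 * (t + 1)) ^ 2 + 2) + 1) * (1 / 3 : ℝ) ^ n =
        C * (3 ^ (3 * (1 * (t + 1)) ^ 2 + 2) / 3 ^ n) + (1 / 3 : ℝ) ^ n := by
      rw [div_pow, one_pow]
      ring
    rw [h4]
    exact h3.trans ((add_le_add h1 h2).trans (le_of_eq (by ring)))
  have hl : Filter.Tendsto (fun n : ℕ => eT t + (C * 3 ^ (3 * (1 * (t + 1)) ^ 2 + 2) + 1) *
      (1 / 3 : ℝ) ^ n) Filter.atTop (nhds (eT t + (C * 3 ^ (3 * (1 * (t + 1)) ^ 2 + 2) + 1) * 0)) :=
    Filter.Tendsto.const_add _ (Filter.Tendsto.const_mul _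
      (tendsto_pow_atTop_nhds_zero_of_lt_one (by norm_num) (by norm_num)))
  rw [mul_zero, add_zero] at hl
  exact ge_of_tendsto' hl hb

theorem t_JL : S_EX → S_TR → S_C → S_E → Pool.Agent.Y703.XK.S_C9 → S_JL := by
  intro hEX hTR hC hE _ k ε hε
  have hp : Filter.Tendsto (fun t : ℕ => (1 / 3 : ℝ) ^ t) Filter.atTop (nhds 0) :=
    tendsto_pow_atTop_nhds_zero_of_lt_one (by norm_num) (by norm_num)
  have he : Filter.Tendsto eT Filter.atTop (nhds 0) :=
    squeeze_zero (fun t => (hE t).1) (fun t => (hE t).2) hp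
  have hsT : Filter.Tendsto sT Filter.atTop (nhds c9) := by
    rw [tendsto_iff_norm_sub_tendsto_zero]
    exact squeeze_zero (fun t => norm_nonneg _) (fun t => hC t) he
  have h1 : Filter.Tendsto (fun t => (1 + eT t) ^ k - 1 + |sT t ^ k - c9 ^ k|) Filter.atTop
      (nhds 0) := by
    have a1 : Filter.Tendsto (fun t => (1 + eT t) ^ k - 1) Filter.atTop
        (nhds ((1 + 0) ^ k - 1)) := ((he.const_add 1).pow k).sub_const 1
    have a2 : Filter.Tendsto (fun t => |sT t ^ k - c9 ^ k|) Filter.atTop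
        (nhds |c9 ^ k - c9 ^ k|) := ((hsT.pow k).sub_const _).abs
    have := a1.add a2
    simpa using this
  obtain ⟨t, ht⟩ := (h1.eventually (gt_mem_nhds (show (0 : ℝ) < ε / 2 by positivity))).exists
  obtain ⟨C, hC0, hT⟩ := hTR k t
  have h2 : Filter.Tendsto (fun N : ℕ => C * 3 ^ (3 * (k * (t + 1)) ^ 2 + 2) * (1 / 3 : ℝ) ^ N)
      Filter.atTop (nhds (C * 3 ^ (3 * (k * (t + 1)) ^ 2 + 2) * 0)) := hp.const_mul _
  rw [mul_zero] at h2
  obtain ⟨N, hN⟩ := (h2.eventually (gt_mem_nhds (show (0 : ℝ) < ε / 2 by positivity))).exists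
  refine ⟨N, ?_⟩
  intro V _ _ _ s hs
  have h3 := key hEX k t C hT V N s hs
  have h4 : C * (3 ^ (3 * (k * (t + 1)) ^ 2 + 2) / 3 ^ N) =
      C * 3 ^ (3 * (k * (t + 1)) ^ 2 + 2) * (1 / 3 : ℝ) ^ N := by
    rw [div_pow, one_pow]
    ring
  rw [h4] at h3
  have h5 := abs_sub_le (fr (fun S : Sy V => ∀ j, ∀ p : s.L j, S.1 (s.y j p) = s.b j p → p = 0))
    (sT t ^ k) (c9 ^ k)
  linarith

end Pool.Agent.H451.JL
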