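import Pool.Agent.H451.JL.Stm

/-!
# Project JL: the contribution of the linearly dependent tuples (`t_D : S_P → S_D`), by helper297
-/

set_option autoImplicit false
set_option linter.unusedVariables false
set_option linter.unusedSectionVars false

open scoped Classical

namespace Pool.Agent.H451.JL

namespace PD

open Finset
open Pool.Agent.Y759.CX (fr)
open Pool.Agent.Y85.XK (Sy)

/-- a finite set of linearly independent vectors spanning the family. -/
theorem exists_basis_finset {V : Type} [AddCommGroup V] [Module F V] {D : ℕ} (v : Fin D → V) :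
    ∃ A : Finset (Fin D), LinearIndependent F (fun a : A => v a) ∧
      ∀ l, ∃ m : Fin D → F, v l = ∑ a ∈ A, m a • v a := by
  obtain ⟨b, hb1, hb2, hb3, hb4⟩ := exists_linearIndepOn_extension (K := F) (v := v)
    (s := (∅ : Set (Fin D))) (t := Set.univ) (linearIndepOn_empty F v) (Set.subset_univ _)
  have hbf : b.Finite := Set.toFinite b
  refine ⟨hbf.toFinset, ?_, fun l => ?_⟩
  · have h1 : LinearIndepOn F v (hbf.toFinset : Set (Fin D)) := by
      rw [Set.Finite.coe_toFinset]
      exact hb4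
    exact h1
  · have h1 : v l ∈ Submodule.span F (v '' b) := hb3 ⟨l, Set.mem_univ _, rfl⟩
    have h2 : v l ∈ Submodule.span F (v '' (hbf.toFinset : Set (Fin D))) := by
      rw [Set.Finite.coe_toFinset]
      exact h1
    rw [Submodule.mem_span_image_finset_iff_exists_fun'] at h2
    obtain ⟨m, hm⟩ := h2
    exact ⟨m, hm.symm⟩

/-- monotonicity of the frequency. -/
theorem fr_mono {G : Type} [Finite G] {P Q : G → Prop} (h : ∀ g, P g → Q g) : fr P ≤ fr Q := by
  unfold fr
  have h1 : Nat.card {g // P g} ≤ Nat.card {g // Q g} :=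
    Nat.card_le_card_of_injective (fun g : {g // P g} => (⟨g.1, h g.1 g.2⟩ : {g // Q g}))
      (fun a b hab => Subtype.ext (congrArg (fun x : {g // Q g} => x.1) hab))
  have h2 : (Nat.card {g // P g} : ℝ) ≤ Nat.card {g // Q g} := by exact_mod_cast h1
  gcongr

theorem fr_nonneg {G : Type} (P : G → Prop) : 0 ≤ fr P := by
  unfold fr
  positivity

theorem fr_zero {G : Type} {P : G → Prop} (h : ∀ g, ¬ P g) : fr P = 0 := by
  unfold fr
  have : IsEmpty {g // P g} := ⟨fun g => h g.1 g.2⟩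
  rw [Nat.card_of_isEmpty]
  simp

section

variable {V : Type} [AddCommGroup V] [Module F V] [Finite V] {k N : ℕ} (s : Sys V k) {D : ℕ}
  (c : Fin D → Fin k)

/-- the set `Z(A, μ)` -/
def ZZ (A : Finset (Fin D)) (μ : Fin D → Fin D → F) (t : s.Tu c) : Prop :=
  s.BI c t ∧ LinearIndependent F (fun a : A => s.Y c t a) ∧
    ∀ l, l ∉ A → s.Y c t l = ∑ a ∈ A, μ l a • s.Y c t a ∧ s.B c t l = ∑ a ∈ A, μ l a • s.B c t a

/-- every contributing tuple is in one of the sets. -/
theorem cover (t : s.Tu c) (hBI : s.BI c t) (hdep : ¬ LinearIndependent F (s.Y c t))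
    (S : Sy V) (hS : s.Sat c t S) :
    ∃ A : Finset (Fin D), A ≠ univ ∧ ∃ μ, ZZ s c A μ t := by
  obtain ⟨A, hA, hspan⟩ := exists_basis_finset (s.Y c t)
  choose μ hμ using hspan
  refine ⟨A, ?_, μ, hBI, hA, fun l hl => ⟨hμ l, ?_⟩⟩
  · rintro rfl
    apply hdep
    have h1 : LinearIndepOn F (s.Y c t) (Set.univ : Set (Fin D)) := by
      have h2 : LinearIndepOn F (s.Y c t) ((univ : Finset (Fin D)) : Set (Fin D)) := hA
      rwa [coe_univ] at h2
    exact linearIndepOn_univ_iff.1 h1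
  · rw [← hS l, hμ l, map_sum]
    refine Finset.sum_congr rfl fun a _ => ?_
    rw [map_smul, hS a]

/-- (1) -/
theorem frb (hP : S_P) (A : Finset (Fin D)) (μ : Fin D → Fin D → F) (t : s.Tu c)
    (ht : ZZ s c A μ t) :
    fr (s.Sat c t) * (Nat.card V : ℝ) ^ A.card ≤ 3 ^ (D ^ 2) := by
  obtain ⟨hBI, hA, hrel⟩ := ht
  have hmono : fr (s.Sat c t) ≤ fr (fun S : Sy V => ∀ a : Fin A.card,
      S.1 (s.Y c t (A.equivFin.symm a)) = s.B c t (A.equivFin.symm a)) :=
    fr_mono fun S hS a => hS _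
  have hLI : LinearIndependent F (fun a : Fin A.card => s.Y c t (A.equivFin.symm a)) :=
    hA.comp _ A.equivFin.symm.injective
  have h1 := hP V A.card (fun a => s.Y c t (A.equivFin.symm a))
    (fun a => s.B c t (A.equivFin.symm a)) hLI
  have h2 : fr (s.Sat c t) * (Nat.card V : ℝ) ^ A.card ≤
      if ∀ a a' : Fin A.card, s.B c t (A.equivFin.symm a) (s.Y c t (A.equivFin.symm a')) =
        s.B c t (A.equivFin.symm a') (s.Y c t (A.equivFin.symm a))
      then (3 : ℝ) ^ (A.card.choose 2) else 0 := by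
    rw [← h1]
    gcongr
  refine h2.trans ?_
  have h3 : A.card ≤ D := by
    simpa using Finset.card_le_univ A
  have h4 : A.card.choose 2 ≤ D ^ 2 := by
    calc A.card.choose 2 ≤ A.card ^ 2 := Nat.choose_le_pow _ _
      _ ≤ D ^ 2 := Nat.pow_le_pow_left h3 2
  split_ifs
  · exact pow_le_pow_right₀ (by norm_num) h4
  · positivity

/-- (2), algebraic part: the difference at `a₀` is in the left kernel. -/
theorem diff (hOK : s.OK N) (A : Finset (Fin D)) (μ : Fin D → Fin D → F) (l a₀ : Fin D)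
    (hl : l ∉ A) (ha₀ : a₀ ∈ A) (hμ : μ l a₀ ≠ 0) (t t' : s.Tu c) (ht : ZZ s c A μ t)
    (ht' : ZZ s c A μ t') (heq : ∀ a ∈ A.erase a₀, t a = t' a) (q : s.L (c l)) :
    s.b (c a₀) (t a₀ - t' a₀) (s.y (c l) q) = s.b (c l) q (s.y (c a₀) (t a₀ - t' a₀)) := by
  have hy : s.y (c l) (t l - t' l) = μ l a₀ • s.y (c a₀) (t a₀ - t' a₀) := by
    have h1 := (ht.2.2 l hl).1
    have h2 := (ht'.2.2 l hl).1
    have h3 : s.Y c t l - s.Y c t' l = ∑ a ∈ A, μ l a • (s.Y c t a - s.Y c t' a) := by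
      rw [h1, h2, ← Finset.sum_sub_distrib]
      refine Finset.sum_congr rfl fun a _ => ?_
      rw [smul_sub]
    rw [Finset.sum_eq_single_of_mem a₀ ha₀] at h3
    · rw [map_sub, map_sub]
      exact h3
    · intro a ha hne
      have : t a = t' a := heq a (Finset.mem_erase.2 ⟨hne, ha⟩)
      unfold Sys.Y
      rw [this, sub_self, smul_zero]
  have hb : s.b (c l) (t l - t' l) = μ l a₀ • s.b (c a₀) (t a₀ - t' a₀) := by
    have h1 := (ht.2.2 l hl).2
    have h2 := (ht'.2.2 l hl).2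
    have h3 : s.B c t l - s.B c t' l = ∑ a ∈ A, μ l a • (s.B c t a - s.B c t' a) := by
      rw [h1, h2, ← Finset.sum_sub_distrib]
      refine Finset.sum_congr rfl fun a _ => ?_
      rw [smul_sub]
    rw [Finset.sum_eq_single_of_mem a₀ ha₀] at h3
    · rw [map_sub, map_sub]
      exact h3
    · intro a ha hne
      have : t a = t' a := heq a (Finset.mem_erase.2 ⟨hne, ha⟩)
      unfold Sys.B
      rw [this, sub_self, smul_zero]
  have h4 := hOK.sym (c l) (t l - t' l) q
  rw [hb, hy, LinearMap.smul_apply, map_smul, smul_eq_mul, smul_eq_mul] at h4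
  exact mul_left_cancel₀ hμ h4

/-- (2), existence of `a₀`. -/
theorem exists_a₀ (A : Finset (Fin D)) (μ : Fin D → Fin D → F) (l : Fin D)
    (hl : l ∉ A) (t : s.Tu c) (ht : ZZ s c A μ t) :
    ∃ a₀ ∈ A, c a₀ ≠ c l ∧ μ l a₀ ≠ 0 := by
  by_contra hcon
  push Not at hcon
  obtain ⟨hBI, hA, hrel⟩ := ht
  obtain ⟨h1, h2⟩ := hrel l hl
  set g : Fin D → F := fun x => (if x = l then 1 else 0) - (if x ∈ A then μ l x else 0) with hg
  have hgl : g l = 1 := by simp [hg, hl]
  have hsumY : ∀ {W : Type} [AddCommGroup W] [Module F W] (v : Fin D → W),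
      v l = ∑ a ∈ A, μ l a • v a → ∑ a, g a • v a = 0 := by
    intro W _ _ v hv
    have h3 : ∀ a, g a • v a = (if a = l then v a else 0) - (if a ∈ A then μ l a • v a else 0) := by
      intro a
      simp only [hg]
      split_ifs <;> simp [sub_smul]
    rw [Finset.sum_congr rfl fun a _ => h3 a, Finset.sum_sub_distrib]
    rw [Finset.sum_ite_eq' univ l v, if_pos (Finset.mem_univ l), ← Finset.sum_filter]
    have h4 : univ.filter (fun a => a ∈ A) = A := by
      ext a
      simp
    rw [h4, hv, sub_self]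
  have hz := hBI g ⟨c l, fun a ha => ?_⟩ (hsumY _ h1) (hsumY _ h2)
  · rw [hz] at hgl
    simp at hgl
  · by_cases hal : a = l
    · rw [hal]
    · by_contra hca
      apply ha
      simp only [hg, if_neg hal]
      split_ifs with haA
      · rw [hcon a haA hca]
        simp
      · simp

/-- (2), injectivity of the restriction. -/
theorem inj_restr (hOK : s.OK N) (A : Finset (Fin D)) (μ : Fin D → Fin D → F)
    (t t' : s.Tu c) (ht : ZZ s c A μ t) (ht' : ZZ s c A μ t') (heq : ∀ a ∈ A, t a = t' a) :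
    t = t' := by
  funext l
  by_cases hl : l ∈ A
  · exact heq l hl
  · have h1 : s.y (c l) (t l - t' l) = 0 := by
      rw [map_sub, sub_eq_zero]
      have h1 := (ht.2.2 l hl).1
      have h2 := (ht'.2.2 l hl).1
      have h3 : s.Y c t l = s.Y c t' l := by
        rw [h1, h2]
        refine Finset.sum_congr rfl fun a ha => ?_
        unfold Sys.Y
        rw [heq a ha]
      exact h3
    have h2 : s.b (c l) (t l - t' l) = 0 := by
      rw [map_sub, sub_eq_zero]
      have h1 := (ht.2.2 l hl).2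
      have h2 := (ht'.2.2 l hl).2
      have h3 : s.B c t l = s.B c t' l := by
        rw [h1, h2]
        refine Finset.sum_congr rfl fun a ha => ?_
        unfold Sys.B
        rw [heq a ha]
      exact h3
    exact sub_eq_zero.1 (hOK.inj _ _ h1 h2)

/-- (2): the number of the elements of `Z(A, μ)`. -/
theorem cardZ (hOK : s.OK N) (A : Finset (Fin D)) (hA : A ≠ univ) (μ : Fin D → Fin D → F) :
    Nat.card {t : s.Tu c // ZZ s c A μ t} * 3 ^ N ≤ Nat.card V ^ A.card := by
  obtain ⟨l, hl⟩ : ∃ l, l ∉ A := by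
    by_contra hcon
    push Not at hcon
    exact hA (Finset.eq_univ_iff_forall.2 hcon)
  by_cases hem : Nonempty {t : s.Tu c // ZZ s c A μ t}
  swap
  · rw [not_nonempty_iff] at hem
    rw [Nat.card_of_isEmpty, zero_mul]
    exact Nat.zero_le _
  obtain ⟨t₀, ht₀⟩ := hem
  obtain ⟨a₀, ha₀, hca, hμ⟩ := exists_a₀ s c A μ l hl t₀ ht₀
  let Z := {t : s.Tu c // ZZ s c A μ t}
  have : Nonempty Z := ⟨⟨t₀, ht₀⟩⟩
  let R := ∀ a : (A.erase a₀ : Finset (Fin D)), s.L (c a)
  let K := {p : s.L (c a₀) // ∀ q : s.L (c l), s.b (c a₀) p (s.y (c l) q) =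
    s.b (c l) q (s.y (c a₀) p)}
  let ρ : Z → R := fun t a => t.1 a
  let base : R → Z := Function.invFun ρ
  have hbase : ∀ t : Z, ρ (base (ρ t)) = ρ t := fun t => Function.invFun_eq ⟨t, rfl⟩
  let Φ : Z → R × K := fun t => (ρ t, ⟨t.1 a₀ - (base (ρ t)).1 a₀, fun q => by
    refine diff s c hOK A μ l a₀ hl ha₀ hμ _ _ t.2 (base (ρ t)).2 (fun a ha => ?_) q
    exact (congrFun (hbase t) ⟨a, ha⟩).symm⟩)
  have hΦ : Function.Injective Φ := by
    intro t t' h
    have h1 : ρ t = ρ t' := congrArg Prod.fst h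
    have h2 : t.1 a₀ - (base (ρ t)).1 a₀ = t'.1 a₀ - (base (ρ t')).1 a₀ :=
      congrArg (fun x : R × K => x.2.1) h
    rw [h1, sub_left_inj] at h2
    apply Subtype.ext
    refine inj_restr s c hOK A μ _ _ t.2 t'.2 fun a ha => ?_
    by_cases haa : a = a₀
    · subst haa
      exact h2
    · exact congrFun h1 ⟨a, Finset.mem_erase.2 ⟨haa, ha⟩⟩
  have hle : Nat.card Z ≤ Nat.card R * Nat.card K := by
    rw [← Nat.card_prod]
    exact Nat.card_le_card_of_injective Φ hΦ
  have hR : Nat.card R = Nat.card V ^ (A.card - 1) := by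
    show Nat.card (∀ a : (A.erase a₀ : Finset (Fin D)), s.L (c a)) = _
    rw [Nat.card_pi]
    have h1 : ∀ a : (A.erase a₀ : Finset (Fin D)), Nat.card (s.L (c a)) = Nat.card V :=
      fun a => hOK.card (c a)
    simp only [h1]
    rw [Finset.prod_const, Finset.card_univ, Fintype.card_coe, Finset.card_erase_of_mem ha₀]
  have hK : Nat.card K * 3 ^ N ≤ Nat.card V := hOK.cross (c a₀) (c l) hca
  have hApos : 1 ≤ A.card := Finset.card_pos.2 ⟨a₀, ha₀⟩
  calc Nat.card Z * 3 ^ N ≤ (Nat.card R * Nat.card K) * 3 ^ N := Nat.mul_le_mul_right _ hle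
    _ = Nat.card R * (Nat.card K * 3 ^ N) := by ring
    _ ≤ Nat.card R * Nat.card V := Nat.mul_le_mul_left _ hK
    _ = Nat.card V ^ (A.card - 1) * Nat.card V := by rw [hR]
    _ = Nat.card V ^ A.card := by
      rw [← pow_succ]
      congr 1
      omega

end

end PD

open Finset PD in
open Pool.Agent.Y759.CX (fr) in
open Pool.Agent.Y85.XK (Sy) in
theorem t_D : S_P → S_D := by
  intro hP V _ _ _ k N s D c hOK
  have hVpos : (0 : ℝ) < Nat.card V := by
    exact_mod_cast Nat.card_pos (α := V)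
  -- pointwise majorant
  have hpt : ∀ t : s.Tu c,
      (if s.BI c t ∧ ¬ LinearIndependent F (s.Y c t) then fr (s.Sat c t) else 0) ≤
      ∑ e ∈ (univ : Finset (Finset (Fin D) × (Fin D → Fin D → F))).filter (fun e => e.1 ≠ univ),
        if ZZ s c e.1 e.2 t then (3 : ℝ) ^ (D ^ 2) / (Nat.card V : ℝ) ^ e.1.card else 0 := by
    intro t
    have hnn : ∀ e : Finset (Fin D) × (Fin D → Fin D → F), 0 ≤
        (if ZZ s c e.1 e.2 t then (3 : ℝ) ^ (D ^ 2) / (Nat.card V : ℝ) ^ e.1.card else 0) := by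
      intro e
      split_ifs
      · positivity
      · exact le_rfl
    split_ifs with h
    · by_cases hS : ∃ S : Sy V, s.Sat c t S
      · obtain ⟨S, hS⟩ := hS
        obtain ⟨A, hA, μ, hZ⟩ := cover s c t h.1 h.2 S hS
        have h1 := frb s c hP A μ t hZ
        have h2 : fr (s.Sat c t) ≤
            (if ZZ s c A μ t then (3 : ℝ) ^ (D ^ 2) / (Nat.card V : ℝ) ^ A.card else 0) := by
          rw [if_pos hZ, le_div_iff₀ (by positivity)]
          exact h1
        refine h2.trans ?_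
        exact Finset.single_le_sum
          (f := fun e : Finset (Fin D) × (Fin D → Fin D → F) =>
            if ZZ s c e.1 e.2 t then (3 : ℝ) ^ (D ^ 2) / (Nat.card V : ℝ) ^ e.1.card else 0)
          (fun e _ => hnn e) (Finset.mem_filter.2 ⟨Finset.mem_univ (A, μ), hA⟩)
      · rw [fr_zero (fun S hS' => hS ⟨S, hS'⟩)]
        exact Finset.sum_nonneg fun e _ => hnn e
    · exact Finset.sum_nonneg fun e _ => hnn e
  have hcard : ∀ e ∈ (univ : Finset (Finset (Fin D) × (Fin D → Fin D → F))).filter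
      (fun e => e.1 ≠ univ),
      (∑ t : s.Tu c, if ZZ s c e.1 e.2 t then (3 : ℝ) ^ (D ^ 2) / (Nat.card V : ℝ) ^ e.1.card
        else 0) * 3 ^ N ≤ 3 ^ (D ^ 2) := by
    intro e he
    rw [Finset.mem_filter] at he
    have h1 := cardZ s c hOK e.1 he.2 e.2
    rw [← Finset.sum_filter, Finset.sum_const, nsmul_eq_mul]
    have h2 : ((univ.filter fun t : s.Tu c => ZZ s c e.1 e.2 t).card : ℝ) * 3 ^ N ≤
        (Nat.card V : ℝ) ^ e.1.card := by
      have h3 : (univ.filter fun t : s.Tu c => ZZ s c e.1 e.2 t).card =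
          Nat.card {t : s.Tu c // ZZ s c e.1 e.2 t} := by
        rw [Nat.card_eq_fintype_card, Fintype.card_subtype]
      rw [h3]
      exact_mod_cast h1
    calc ((univ.filter fun t : s.Tu c => ZZ s c e.1 e.2 t).card : ℝ) *
          (3 ^ (D ^ 2) / (Nat.card V : ℝ) ^ e.1.card) * 3 ^ N
        = (((univ.filter fun t : s.Tu c => ZZ s c e.1 e.2 t).card : ℝ) * 3 ^ N) *
          (3 ^ (D ^ 2) / (Nat.card V : ℝ) ^ e.1.card) := by ring
      _ ≤ (Nat.card V : ℝ) ^ e.1.card * (3 ^ (D ^ 2) / (Nat.card V : ℝ) ^ e.1.card) := by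
          gcongr
      _ = 3 ^ (D ^ 2) := by
          field_simp
  calc (∑ t : s.Tu c, if s.BI c t ∧ ¬ LinearIndependent F (s.Y c t) then fr (s.Sat c t) else 0) *
        3 ^ N
      ≤ (∑ t : s.Tu c,
        ∑ e ∈ (univ : Finset (Finset (Fin D) × (Fin D → Fin D → F))).filter (fun e => e.1 ≠ univ),
        if ZZ s c e.1 e.2 t then (3 : ℝ) ^ (D ^ 2) / (Nat.card V : ℝ) ^ e.1.card else 0) * 3 ^ N := by
        gcongr with t _
        exact hpt t
    _ = ∑ e ∈ (univ : Finset (Finset (Fin D) × (Fin D → Fin D → F))).filter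
          (fun e => e.1 ≠ univ),
        (∑ t : s.Tu c, if ZZ s c e.1 e.2 t then (3 : ℝ) ^ (D ^ 2) / (Nat.card V : ℝ) ^ e.1.card
          else 0) * 3 ^ N := by
        rw [Finset.sum_comm, Finset.sum_mul]
    _ ≤ ∑ e ∈ (univ : Finset (Finset (Fin D) × (Fin D → Fin D → F))).filter
          (fun e => e.1 ≠ univ), (3 : ℝ) ^ (D ^ 2) := Finset.sum_le_sum hcard
    _ ≤ ∑ e : Finset (Fin D) × (Fin D → Fin D → F), (3 : ℝ) ^ (D ^ 2) :=
        Finset.sum_le_sum_of_subset_of_nonneg (Finset.filter_subset _ _)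
          (fun _ _ _ => by positivity)
    _ = 2 ^ D * 3 ^ (2 * D ^ 2) := by
        rw [Finset.sum_const, Finset.card_univ, Fintype.card_prod, Fintype.card_finset,
          Fintype.card_fun, Fintype.card_fun, Fintype.card_fin, ZMod.card, nsmul_eq_mul]
        push_cast
        rw [← pow_mul]
        ring

end Pool.Agent.H451.JL
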