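import Mathlib
import Pool.Agent.H451.JL.Stm2
import Pool.Graph.R_seed8.Y703.XK.Asy

/-!
# Project JL: the asymptotics (adaptation of `Pool.Agent.Y703.XL.t_DQ`)
-/

set_option autoImplicit false

open scoped Classical
open Finset Filter

namespace Pool.Agent.H451.JL

open Pool.Agent.Y692.QS (Ei w nr toC)
open Pool.Agent.Y715.T.Rec (cs)
open Pool.Agent.Y715.T.RecG (Pq)
open Pool.Agent.Y699.E (nrm QB PD)
open Pool.Agent.Y703.CX (jj XX eL zz kk eL_tendsto logX_eq rpow_eL HH NN ev_eL one_le_exp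
  HH_ge HH_le HH_pos kk_ge kk_le X_pos one_add_log lin_le zz_ge zz_pos)
open Pool.Agent.Y703.CQ (Sml sml_of sml_add)
open Pool.Agent.Y703.XK (Nd SS RR HB prs ext c9 sm la bl S_BIL S_EQ S_CNT S_BAD S_FEW S_LOW S_C9
  sml_eps sml_many sml_cut sml_coll sml_main kap kap_nonneg kap_pow cmp CntP)

theorem sum_eps {I : Type} (s : Finset I) (E : I → ℕ → ℝ)
    (h : ∀ i ∈ s, ∀ ε : ℝ, 0 < ε → ∃ X₀ : ℕ, ∀ X : ℕ, X₀ ≤ X → E i X ≤ ε * X) :
    ∀ ε : ℝ, 0 < ε → ∃ X₀ : ℕ, ∀ X : ℕ, X₀ ≤ X → ∑ i ∈ s, E i X ≤ ε * X := by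
  induction s using Finset.induction_on with
  | empty =>
    intro ε hε
    refine ⟨0, fun X _ => ?_⟩
    rw [sum_empty]
    positivity
  | insert a s ha ih =>
    intro ε hε
    obtain ⟨X₀, h0⟩ := h a (mem_insert_self a s) (ε / 2) (by linarith)
    obtain ⟨X₁, h1⟩ := ih (fun i hi => h i (mem_insert_of_mem hi)) (ε / 2) (by linarith)
    refine ⟨max X₀ X₁, fun X hX => ?_⟩
    rw [sum_insert ha]
    have g0 := h0 X ((le_max_left _ _).trans hX)
    have g1 := h1 X ((le_max_right _ _).trans hX)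
    linarith

/-- the label condition in terms of `U` -/
theorem lab_iff {k : ℕ} {w : Fin k → Ei → F} {U : Finset Ei} (hw : ∀ j, ∀ π, π ∉ U → w j π = 1)
    (i j : Fin k) (T : Finset Ei) (π : Ei) :
    (∑ u ∈ T ∪ U, w i u * cs u π ≠ ∑ u ∈ T ∪ U, w j u * cs u π) ↔
      ∑ u ∈ U, (w i u - w j u) * cs u π ≠ 0 := by
  have h1 : ∑ u ∈ U, (w i u - w j u) * cs u π = ∑ u ∈ T ∪ U, (w i u - w j u) * cs u π := by
    refine sum_subset subset_union_right fun u _ hu => ?_
    rw [hw i u hu, hw j u hu, sub_self, zero_mul]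
  have h2 : ∑ u ∈ T ∪ U, (w i u - w j u) * cs u π =
      ∑ u ∈ T ∪ U, w i u * cs u π - ∑ u ∈ T ∪ U, w j u * cs u π := by
    rw [← sum_sub_distrib]
    exact sum_congr rfl fun u _ => sub_mul _ _ _
  rw [h1, h2, ne_eq, ne_eq, sub_eq_zero]

/-- the sets outside the regular part -/
theorem out_subJ {k₁ : ℕ} {w : Fin k₁ → Ei → F} {U : Finset Ei}
    (hw : ∀ j, ∀ π, π ∉ U → w j π = 1) (R : Set ℕ) (X z H k V : ℕ) :
    ((SS X).filter (CondJ U R)) \ ((RR X z H k V).filter fun S => CondJ U R S ∧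
        NdV w V (sm z S ∪ U) (la z S)) ⊆
      ((((((SS X).filter fun S => k < S.card) ∪
      ((SS X).filter fun S => S.card ≤ k ∧
        X < (∏ π ∈ sm z S, nrm π) * ∏ π ∈ la z S, XX H (bl H π))) ∪
      ((SS X).filter fun S => ¬ Set.InjOn (bl H) (la z S : Set Ei))) ∪
      ((SS X).filter fun S => S.card ≤ k ∧ (la z S).card ≤ (sm z S).card + (U.card + V))) ∪
      ((SS X).filter fun S => S.card ≤ k ∧ Disjoint S U ∧ ¬ Nd (sm z S ∪ U) (la z S))) ∪
      ((univ : Finset (Fin k₁ × Fin k₁)).filter fun e => e.1 ≠ e.2).biUnion fun e =>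
        (SS X).filter fun S => S.card ≤ k ∧
          ((la z S).filter fun π => ∑ u ∈ U, (w e.1 u - w e.2 u) * cs u π ≠ 0).card ≤
            2 * (sm z S).card + (2 * U.card + V) := by
  intro S hS
  rw [Finset.mem_sdiff, Finset.mem_filter, Finset.mem_filter] at hS
  obtain ⟨⟨h1, hC⟩, h2⟩ := hS
  simp only [mem_union, mem_filter, mem_biUnion, mem_univ, true_and]
  by_contra hc
  push Not at hc
  obtain ⟨⟨⟨⟨⟨c1, c2⟩, c3⟩, c4⟩, c5⟩, c6⟩ := hc
  have d1 : S.card ≤ k := c1 h1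
  have d2 := c2 h1 d1
  have d3 := c3 h1
  have d4 := c4 h1 d1
  have d5 := c5 h1 d1 hC.1
  apply h2
  have hU1 : (sm z S ∪ U).card ≤ (sm z S).card + U.card := card_union_le _ _
  refine ⟨?_, hC, d5, ?_, ?_⟩
  · unfold RR
    rw [mem_filter]
    exact ⟨h1, d3, d1, d2, by omega⟩
  · omega
  · intro i j hij
    have d6 := c6 (i, j) hij h1 d1
    have e1 : (la z S).filter (fun π => ∑ u ∈ sm z S ∪ U, w i u * cs u π ≠
        ∑ u ∈ sm z S ∪ U, w j u * cs u π) =
        (la z S).filter fun π => ∑ u ∈ U, (w i u - w j u) * cs u π ≠ 0 := by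
      refine Finset.filter_congr fun π _ => ?_
      exact lab_iff hw i j (sm z S) π
    rw [e1]
    have d7 : 2 * (sm z S).card + (2 * U.card + V) <
        ((la z S).filter fun π => ∑ u ∈ U, (w i u - w j u) * cs u π ≠ 0).card := d6
    omega

theorem t_DQJ (hBIL : S_BIL) (hKEJ : S_KEJ) (hBOX : S_BOXJ) (hC : S_CNT) (hB : S_BADJ)
    (hF0 : S_FEW) (hF : S_FEWJ) (hLo : S_LOWJ) (hc9 : S_C9) : S_DQJ := by
  intro k w U R hUp hw hne hR
  obtain ⟨D, hD⟩ := hC
  obtain ⟨c, X₀, hc, hlow⟩ := hLo U R hUp hR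
  have hD1 := hD.one
  rw [Metric.tendsto_nhds]
  intro ε hε
  obtain ⟨η, hη⟩ : ∃ η : ℝ, η = c * ε / (4 * D) := ⟨_, rfl⟩
  have hη0 : 0 < η := by rw [hη]; positivity
  obtain ⟨V, hV⟩ := hBOX k w U hw η hη0
  obtain ⟨C, hC1, hkey⟩ := hKEJ hBIL k w U R V η hη0.le hUp hV
  have s1 := sml_many hD
  have s2 := sml_cut hD
  have s3 := sml_coll hD
  have s4 := sml_eps (hF0 (U.card + V))
  have s5 := sml_eps (hB U hUp)
  have s6 := sml_main hC1
  have s7 := sml_eps (sum_eps ((univ : Finset (Fin k × Fin k)).filter fun e => e.1 ≠ e.2)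
    (fun e X => (((SS X).filter fun S => S.card ≤ kk X ∧
          ((la (zz X) S).filter fun π => ∑ u ∈ U, (w e.1 u - w e.2 u) * cs u π ≠ 0).card ≤
            2 * (sm (zz X) S).card + (2 * U.card + V)).card : ℝ)) (by
      intro e he ε' hε'
      rw [mem_filter] at he
      obtain ⟨u, hu, hne'⟩ := hne e.1 e.2 he.2
      exact hF U (fun u => w e.1 u - w e.2 u) hUp ⟨u, hu, sub_ne_zero.2 hne'⟩
        (2 * U.card + V) ε' hε'))
  have s := sml_add (sml_add (sml_add (sml_add (sml_add (sml_add s1 s2) s3) s4) s5) s7) s6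
  have hδ : (0 : ℝ) < c * ε / 4 := by positivity
  filter_upwards [s (c * ε / 4) hδ, ev_eL 1, ev_eL (U.card : ℝ), ev_eL (∑ u ∈ U, (nrm u : ℝ)),
    eventually_ge_atTop X₀] with X hX hl hl1 hl2 hX0
  rw [neg_zero, zero_mul, Real.exp_zero, mul_one] at hX
  have hl0 : 0 < eL X := by linarith
  have hlo := hlow X hX0
  have hXp := X_pos hl0
  have hXp' : (0 : ℝ) < X := by exact_mod_cast hXp
  have hUk : U.card ≤ kk X := by
    have h1 : (U.card : ℝ) ≤ kk X := by
      refine hl1.trans (le_trans ?_ (Nat.le_ceil (10 * eL X)))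
      linarith
    exact_mod_cast h1
  have hUz : ∀ u ∈ U, nrm u ≤ zz X := by
    intro u hu
    have h1 : (nrm u : ℝ) ≤ eL X :=
      (single_le_sum (f := fun u => (nrm u : ℝ)) (fun v _ => Nat.cast_nonneg _) hu).trans hl2
    unfold Pool.Agent.Y703.CX.zz
    apply Nat.le_floor
    have h2 : eL X ≤ eL X ^ 3 := by
      calc eL X = eL X ^ 1 := (pow_one _).symm
        _ ≤ eL X ^ 3 := pow_le_pow_right₀ hl (by norm_num)
    have h3 := Real.add_one_le_exp (eL X ^ 3)
    linarith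
  have hN : (HH X : ℝ) * Real.log X < NN X := by
    unfold NN
    push_cast
    exact Nat.lt_floor_add_one _
  have hmain := hkey X (zz X) (HH X) (kk X) (NN X) (kap C X) hXp (HH_pos hl0) (zz_pos hl)
    (kap_nonneg hC1 X) (kap_pow hC1 hl) hUz hUk hN
  set M := (SS X).filter (CondJ U R) with hM
  have hSpos : (0 : ℝ) < (M.card : ℝ) := by
    refine lt_of_lt_of_le ?_ hlo
    positivity
  set T := (RR X (zz X) (HH X) (kk X) V).filter fun S => CondJ U R S ∧
    NdV w V (sm (zz X) S ∪ U) (la (zz X) S) with hT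
  have hTG : (RR X (zz X) (HH X) (kk X) V).filter
      (fun S => (CondJ U R S ∧ NdV w V (sm (zz X) S ∪ U) (la (zz X) S)) ∧ GW w (S ∪ U)) =
      T.filter fun S => GW w (S ∪ U) := by
    rw [hT, filter_filter]
  rw [hTG] at hmain
  have hTS : T ⊆ M := by
    intro S hS
    rw [hT, mem_filter] at hS
    rw [hM, mem_filter]
    refine ⟨?_, hS.2.1⟩
    have h1 := hS.1
    unfold RR at h1
    rw [mem_filter] at h1
    exact h1.1
  have hRS : ((RR X (zz X) (HH X) (kk X) V).card : ℝ) ≤ D * X := by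
    refine le_trans ?_ (hD.all X hXp)
    exact_mod_cast card_le_card (filter_subset _ _)
  have hc0 : (0 : ℝ) ≤ c9 ^ k := pow_nonneg hc9.2.1.le _
  have hc1 : c9 ^ k ≤ 1 := pow_le_one₀ hc9.2.1.le hc9.2.2.1.le
  have hcmp := cmp (fun S => GW w (S ∪ U)) T M hTS (c9 ^ k) hc0 hc1
  have hMG : ((SS X).filter fun S => CondJ U R S ∧ GW w (S ∪ U)) =
      M.filter fun S => GW w (S ∪ U) := by
    rw [hM, filter_filter]
  have hout : ((M \ T).card : ℝ) ≤
      (((((((SS X).filter fun S => kk X < S.card).card : ℝ) +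
      (((SS X).filter fun S => S.card ≤ kk X ∧
        X < (∏ π ∈ sm (zz X) S, nrm π) * ∏ π ∈ la (zz X) S, XX (HH X) (bl (HH X) π)).card : ℝ)) +
      (((SS X).filter fun S => ¬ Set.InjOn (bl (HH X)) (la (zz X) S : Set Ei)).card : ℝ)) +
      (((SS X).filter fun S => S.card ≤ kk X ∧
        (la (zz X) S).card ≤ (sm (zz X) S).card + (U.card + V)).card : ℝ)) +
      (((SS X).filter fun S => S.card ≤ kk X ∧ Disjoint S U ∧
        ¬ Nd (sm (zz X) S ∪ U) (la (zz X) S)).card : ℝ)) +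
      ∑ e ∈ (univ : Finset (Fin k × Fin k)).filter (fun e => e.1 ≠ e.2),
        (((SS X).filter fun S => S.card ≤ kk X ∧
          ((la (zz X) S).filter fun π => ∑ u ∈ U, (w e.1 u - w e.2 u) * cs u π ≠ 0).card ≤
            2 * (sm (zz X) S).card + (2 * U.card + V)).card : ℝ) := by
    have g := card_le_card (out_subJ hw R X (zz X) (HH X) (kk X) V)
    rw [← hT, ← hM] at g
    have g2 := (g.trans (card_union_le _ _)).trans (Nat.add_le_add
      ((card_union_le _ _).trans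
      (Nat.add_le_add_right ((card_union_le _ _).trans (Nat.add_le_add_right
      ((card_union_le _ _).trans
      (Nat.add_le_add_right (card_union_le _ _) _)) _)) _)) card_biUnion_le)
    exact_mod_cast g2
  have htot : |((M.filter fun S => GW w (S ∪ U)).card : ℝ) - c9 ^ k * (M.card : ℝ)| ≤
      η * (D * X) + c * ε / 4 * X := by
    have g1 : η * ((RR X (zz X) (HH X) (kk X) V).card : ℝ) ≤ η * (D * X) :=
      mul_le_mul_of_nonneg_left hRS hη0.le
    linarith
  rw [Real.dist_eq, hMG]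
  have e3 : ((M.filter fun S => GW w (S ∪ U)).card : ℝ) / (M.card : ℝ) - c9 ^ k =
      (((M.filter fun S => GW w (S ∪ U)).card : ℝ) - c9 ^ k * (M.card : ℝ)) / (M.card : ℝ) := by
    field_simp
  rw [e3, abs_div, abs_of_pos hSpos, div_lt_iff₀ hSpos]
  refine lt_of_le_of_lt htot ?_
  have e4 : η * (D * X) = ε / 4 * (c * X) := by
    rw [hη]
    field_simp
  have e5 : c * ε / 4 * X = ε / 4 * (c * X) := by ring
  have g2 : ε / 4 * (c * X) ≤ ε / 4 * (M.card : ℝ) :=
    mul_le_mul_of_nonneg_left hlo (by linarith)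
  have g4 : 0 < ε * (M.card : ℝ) := by positivity
  rw [e4, e5]
  linarith

end Pool.Agent.H451.JL
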