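import Pool.Agent.H451.JL.Stm

/-!
# JL-EX: the moments in terms of the dimensions of the spaces of the solutions
-/

set_option autoImplicit false
set_option linter.unusedVariables false

open scoped Classical

namespace Pool.Agent.H451.JL

open Finset
open Pool.Agent.Y759.CX (fr)
open Pool.Agent.Y85.XK (Sy)

namespace EX

theorem card_sub {X : Type} [Fintype X] (P : X → Prop) :
    (Nat.card {x // P x} : ℝ) = ∑ x, if P x then (1 : ℝ) else 0 := by
  rw [Nat.card_eq_fintype_card, Fintype.card_subtype, Finset.sum_boole]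

theorem In_eq (W : Type) [AddCommGroup W] [Module F W] [Finite W] (d : ℕ) :
    (Nat.card {w : Fin d → W // LinearIndependent F w} : ℝ) = In d (Module.finrank F W) := by
  have : Fintype W := Fintype.ofFinite W
  by_cases hd : d ≤ Module.finrank F W
  · have h := card_linearIndependent (K := F) (V := W) hd
    rw [h]
    unfold In
    rw [Nat.cast_prod, ← Fin.prod_univ_eq_prod_range]
    apply Finset.prod_congr rfl
    intro i _
    rw [Nat.cast_sub]
    · simp [ZMod.card]
    · apply Nat.pow_le_pow_right
      · simp [ZMod.card]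
      · have := i.2
        omega
  · push Not at hd
    have h0 : In d (Module.finrank F W) = 0 := by
      unfold In
      apply Finset.prod_eq_zero (Finset.mem_range.mpr hd)
      simp
    rw [h0]
    have : IsEmpty {w : Fin d → W // LinearIndependent F w} := by
      constructor
      rintro ⟨w, hw⟩
      have := hw.fintype_card_le_finrank
      simp at this
      omega
    simp

section col

variable {k : ℕ} (d : Fin k → ℕ)

/-- the numbering -/
noncomputable def en : (Σ j : Fin k, Fin (d j)) ≃ Fin (∑ j, d j) := finSigmaFinEquiv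

/-- the colours -/
noncomputable def cl (a : Fin (∑ j, d j)) : Fin k := ((en d).symm a).1

theorem pairs : ((univ.filter fun e : Fin (∑ j, d j) × Fin (∑ j, d j) =>
    cl d e.1 = cl d e.2).card) = ∑ j, d j * d j := by
  rw [Finset.card_filter, Fintype.sum_prod_type]
  rw [← Equiv.sum_comp (en d), Fintype.sum_sigma]
  apply Finset.sum_congr rfl
  intro j _
  have : ∀ i : Fin (d j), (∑ y : Fin (∑ j, d j), if cl d ((en d) ⟨j, i⟩) = cl d y then 1 else 0) =
      d j := by
    intro i
    rw [← Equiv.sum_comp (en d), Fintype.sum_sigma]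
    rw [Finset.sum_eq_single j]
    · simp [cl]
    · intro j' _ hj'
      apply Finset.sum_eq_zero
      intro i' _
      simp [cl, hj'.symm]
    · simp
  rw [Finset.sum_congr rfl fun i _ => this i]
  simp

theorem Qc_eq : Qc (cl d) = ∑ j, (d j).choose 2 := by
  have h := pairs d
  set A := univ.filter fun e : Fin (∑ j, d j) × Fin (∑ j, d j) => e.1 < e.2 ∧ cl d e.1 = cl d e.2
    with hA
  set B := univ.filter fun e : Fin (∑ j, d j) × Fin (∑ j, d j) => e.2 < e.1 ∧ cl d e.1 = cl d e.2
    with hB
  set C := univ.filter fun e : Fin (∑ j, d j) × Fin (∑ j, d j) => e.1 = e.2 with hC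
  have hABC : (univ.filter fun e : Fin (∑ j, d j) × Fin (∑ j, d j) => cl d e.1 = cl d e.2) =
      A ∪ (B ∪ C) := by
    ext ⟨x, y⟩
    simp only [hA, hB, hC, Finset.mem_filter, Finset.mem_univ, true_and, Finset.mem_union]
    constructor
    · intro hxy
      rcases lt_trichotomy x y with h1 | h1 | h1
      · exact Or.inl ⟨h1, hxy⟩
      · exact Or.inr (Or.inr h1)
      · exact Or.inr (Or.inl ⟨h1, hxy⟩)
    · rintro (h1 | h1 | h1)
      · exact h1.2
      · exact h1.2
      · rw [h1]
  have hAB : A.card = B.card := by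
    apply Finset.card_bij (fun e _ => (e.2, e.1))
    · rintro ⟨x, y⟩ hxy
      simp only [hA, hB, Finset.mem_filter, Finset.mem_univ, true_and] at hxy ⊢
      exact ⟨hxy.1, hxy.2.symm⟩
    · rintro ⟨x, y⟩ _ ⟨x', y'⟩ _ hxy
      simp only [Prod.mk.injEq] at hxy ⊢
      exact ⟨hxy.2, hxy.1⟩
    · rintro ⟨x, y⟩ hxy
      refine ⟨(y, x), ?_, rfl⟩
      simp only [hA, hB, Finset.mem_filter, Finset.mem_univ, true_and] at hxy ⊢
      exact ⟨hxy.1, hxy.2.symm⟩
  have hCc : C.card = ∑ j, d j := by
    have : C.card = (univ : Finset (Fin (∑ j, d j))).card := by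
      symm
      apply Finset.card_bij (fun x _ => (x, x))
      · intro x _
        simp [hC]
      · intro x _ y _ hxy
        exact (Prod.ext_iff.mp hxy).1
      · rintro ⟨x, y⟩ hxy
        simp only [hC, Finset.mem_filter, Finset.mem_univ, true_and] at hxy
        exact ⟨x, Finset.mem_univ _, by rw [hxy]⟩
    rw [this]; simp
  have hd1 : Disjoint A (B ∪ C) := by
    rw [Finset.disjoint_left]
    rintro ⟨x, y⟩ h1 h2
    simp only [hA, hB, hC, Finset.mem_filter, Finset.mem_univ, true_and, Finset.mem_union] at h1 h2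
    rcases h2 with h2 | h2
    · exact absurd (h1.1.trans h2.1) (lt_irrefl _)
    · rw [h2] at h1; exact lt_irrefl _ h1.1
  have hd2 : Disjoint B C := by
    rw [Finset.disjoint_left]
    rintro ⟨x, y⟩ h1 h2
    simp only [hB, hC, Finset.mem_filter, Finset.mem_univ, true_and] at h1 h2
    rw [h2] at h1; exact lt_irrefl _ h1.1
  rw [hABC, Finset.card_union_of_disjoint hd1, Finset.card_union_of_disjoint hd2, ← hAB, hCc] at h
  have h2 : ∑ j, d j * d j = ∑ j, ((d j).choose 2 * 2 + d j) := by
    apply Finset.sum_congr rfl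
    intro j _
    rw [Nat.choose_two_right]
    have h3 : 2 ∣ d j * (d j - 1) := (Nat.even_mul_pred_self (d j)).two_dvd
    rw [Nat.div_mul_cancel h3]
    rcases d j with _ | m
    · rfl
    · simp; ring
  rw [h2, Finset.sum_add_distrib, ← Finset.sum_mul] at h
  show A.card = _
  omega

end col

section main

variable {V : Type} [AddCommGroup V] [Module F V] [Finite V] {k : ℕ} (s : Sys V k)
  (d : Fin k → ℕ)

/-- tuples as families -/
noncomputable def fam : s.Tu (cl d) ≃ (∀ x : Σ j : Fin k, Fin (d j), s.L x.1) :=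
  Equiv.piCongrLeft (fun x : Σ j : Fin k, Fin (d j) => s.L x.1) (en d).symm

theorem fam_apply (t : s.Tu (cl d)) (a : Fin (∑ j, d j)) :
    fam s d t ((en d).symm a) = t a :=
  Equiv.piCongrLeft_apply_apply (fun x : Σ j : Fin k, Fin (d j) => s.L x.1) (en d).symm t a

theorem sum_fam {M : Type} [AddCommMonoid M] (t : s.Tu (cl d))
    (φ : ∀ x : Σ j : Fin k, Fin (d j), s.L x.1 → M) :
    ∑ a, φ ((en d).symm a) (t a) = ∑ j, ∑ i : Fin (d j), φ ⟨j, i⟩ (fam s d t ⟨j, i⟩) := by
  rw [← Fintype.sum_sigma (fun x : Σ j : Fin k, Fin (d j) => φ x (fam s d t x)),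
    ← Equiv.sum_comp (en d).symm]
  apply Finset.sum_congr rfl
  intro a _
  rw [fam_apply]

theorem BI_iff (N : ℕ) (hs : s.OK N) (t : s.Tu (cl d)) :
    s.BI (cl d) t ↔ ∀ j, LinearIndependent F (fun i : Fin (d j) => fam s d t ⟨j, i⟩) := by
  constructor
  · intro h j
    rw [Fintype.linearIndependent_iff]
    intro g hg
    -- the extension of `g`
    let G' : (Σ j : Fin k, Fin (d j)) → F := fun x => if h : x.1 = j then g (h ▸ x.2) else 0
    have hG1 : ∀ i, G' ⟨j, i⟩ = g i := by
      intro i
      simp [G']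
    have hG2 : ∀ j', j' ≠ j → ∀ i, G' ⟨j', i⟩ = 0 := by
      intro j' hj' i
      simp [G', hj']
    have key : ∀ (M : Type) [AddCommGroup M] [Module F M] (f : ∀ j, s.L j →ₗ[F] M),
        ∑ a, G' ((en d).symm a) • f (cl d a) (t a) = 0 := by
      intro M _ _ f
      have h1 := sum_fam s d t (fun x v => G' x • f x.1 v)
      refine h1.trans ?_
      rw [Finset.sum_eq_single j]
      · simp only [hG1]
        have h2 : ∑ i, g i • (f j) (fam s d t ⟨j, i⟩) = f j (∑ i, g i • fam s d t ⟨j, i⟩) := by
          rw [map_sum]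
          apply Finset.sum_congr rfl
          intro i _
          rw [map_smul]
        rw [h2, hg, map_zero]
      · intro j' _ hj'
        apply Finset.sum_eq_zero
        intro i _
        simp only [hG2 j' hj' i, zero_smul]
      · simp
    have h3 := h (fun a => G' ((en d).symm a)) ⟨j, ?_⟩ (key V s.y) (key _ s.b)
    · intro i
      have h4 := congrFun h3 (en d ⟨j, i⟩)
      simp only [Equiv.symm_apply_apply, Pi.zero_apply] at h4
      rw [← hG1 i]
      exact h4
    · intro a ha
      by_contra hne
      apply ha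
      exact hG2 _ hne _
  · rintro h g ⟨j, hj⟩ hY hB
    have h1 := Fintype.linearIndependent_iff.mp (h j)
    have hz : ∀ x : Σ j : Fin k, Fin (d j), x.1 ≠ j → g (en d x) = 0 := by
      intro x hx
      by_contra hne
      apply hx
      have := hj _ hne
      simpa [cl] using this
    have key : ∀ (M : Type) [AddCommGroup M] [Module F M] (f : ∀ j, s.L j →ₗ[F] M),
        ∑ a, g a • f (cl d a) (t a) = f j (∑ i : Fin (d j), g (en d ⟨j, i⟩) • fam s d t ⟨j, i⟩) := by
      intro M _ _ f
      have h2 := sum_fam s d t (fun x v => g (en d x) • f x.1 v)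
      simp only [Equiv.apply_symm_apply] at h2
      refine h2.trans ?_
      rw [Finset.sum_eq_single j]
      · rw [map_sum]
        apply Finset.sum_congr rfl
        intro i _
        rw [map_smul]
      · intro j' _ hj'
        apply Finset.sum_eq_zero
        intro i _
        rw [hz ⟨j', i⟩ hj', zero_smul]
      · simp
    have h5 : ∑ i : Fin (d j), g (en d ⟨j, i⟩) • (fam s d t ⟨j, i⟩ : s.L j) = (0 : s.L j) := by
      apply hs.inj j
      · rw [← key V s.y]; exact hY
      · rw [← key _ s.b]; exact hB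
    have h6 := h1 (fun i => g (en d ⟨j, i⟩)) h5
    funext a
    by_cases ha : cl d a = j
    · obtain ⟨x, rfl⟩ := (en d).surjective a
      obtain ⟨j', i⟩ := x
      have hj' : j' = j := by simpa [cl] using ha
      subst hj'
      exact h6 i
    · by_contra hne
      exact ha (hj a hne)

theorem Sat_iff (t : s.Tu (cl d)) (S : Sy V) :
    s.Sat (cl d) t S ↔ ∀ x : Σ j : Fin k, Fin (d j), fam s d t x ∈ s.R x.1 S := by
  have hR : ∀ j (p : s.L j), p ∈ s.R j S ↔ S.1 (s.y j p) = s.b j p := by
    intro j p
    unfold Sys.R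
    rw [LinearMap.mem_ker, LinearMap.sub_apply, LinearMap.comp_apply, sub_eq_zero]
  constructor
  · intro h x
    rw [hR]
    obtain ⟨a, rfl⟩ := (en d).symm.surjective x
    rw [fam_apply]
    exact h a
  · intro h a
    have h1 := h ((en d).symm a)
    rw [hR, fam_apply] at h1
    exact h1

/-- the tuples of solutions as families of linearly independent tuples -/
noncomputable def eqv (S : Sy V) :
    {u : (∀ x : Σ j : Fin k, Fin (d j), s.L x.1) //
      (∀ j, LinearIndependent F (fun i : Fin (d j) => u ⟨j, i⟩)) ∧ ∀ x, u x ∈ s.R x.1 S} ≃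
    ∀ j, {w : Fin (d j) → s.R j S // LinearIndependent F w} where
  toFun u := fun j => ⟨fun i => ⟨u.1 ⟨j, i⟩, u.2.2 ⟨j, i⟩⟩, by
    have h := u.2.1 j
    rw [← LinearMap.linearIndependent_iff (s.R j S).subtype (Submodule.ker_subtype _)]
    exact h⟩
  invFun w := ⟨fun x => ((w x.1).1 x.2 : s.L x.1), by
    constructor
    · intro j
      have h := (w j).2
      rw [← LinearMap.linearIndependent_iff (s.R j S).subtype (Submodule.ker_subtype _)] at h
      exact h
    · intro x
      exact ((w x.1).1 x.2).2⟩
  left_inv u := by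
    apply Subtype.ext
    funext x
    rfl
  right_inv w := by
    funext j
    apply Subtype.ext
    funext i
    rfl

theorem count (N : ℕ) (hs : s.OK N) (S : Sy V) :
    (Nat.card {t : s.Tu (cl d) // s.BI (cl d) t ∧ s.Sat (cl d) t S} : ℝ) =
      ∏ j, In (d j) (Module.finrank F (s.R j S)) := by
  have h1 : Nat.card {t : s.Tu (cl d) // s.BI (cl d) t ∧ s.Sat (cl d) t S} =
      Nat.card (∀ j, {w : Fin (d j) → s.R j S // LinearIndependent F w}) := by
    apply Nat.card_congr
    refine Equiv.trans (Equiv.subtypeEquiv (fam s d) (fun t => ?_)) (eqv s d S)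
    rw [BI_iff s d N hs t, Sat_iff s d t S]
  rw [h1, Nat.card_pi, Nat.cast_prod]
  apply Finset.prod_congr rfl
  intro j _
  exact In_eq _ _

end main

end EX

/-- **JL-EX** -/
theorem t_EX : S_MOM → S_EX := by
  intro hM V _ _ _ k N s d hs inst
  have h := hM V k N s (∑ j, d j) (EX.cl d) hs
  rw [EX.Qc_eq] at h
  have h1 : (∑ t : s.Tu (EX.cl d), if s.BI (EX.cl d) t then fr (s.Sat (EX.cl d) t) else 0) =
      (∑ S : Sy V, ∏ j, In (d j) (Module.finrank F (s.R j S))) / (Fintype.card (Sy V) : ℝ) := by
    have h2 : ∀ t : s.Tu (EX.cl d), (if s.BI (EX.cl d) t then fr (s.Sat (EX.cl d) t) else 0) =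
        (∑ S : Sy V, if s.BI (EX.cl d) t ∧ s.Sat (EX.cl d) t S then (1 : ℝ) else 0) /
          (Fintype.card (Sy V) : ℝ) := by
      intro t
      by_cases hb : s.BI (EX.cl d) t
      · rw [if_pos hb]
        unfold fr
        rw [EX.card_sub, Nat.card_eq_fintype_card]
        simp only [hb, true_and]
      · rw [if_neg hb]
        simp [hb]
    rw [Finset.sum_congr rfl fun t _ => h2 t, ← Finset.sum_div, Finset.sum_comm]
    congr 1
    apply Finset.sum_congr rfl
    intro S _
    rw [← EX.count s d N hs S, EX.card_sub]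
    refine Finset.sum_congr rfl fun x _ => ?_
    split_ifs <;> rfl
  rw [h1, ← Finset.prod_pow_eq_pow_sum] at h
  exact h

end Pool.Agent.H451.JL
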