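import Mathlib
import Pool.Agent.H451.JL.Stm2
import Pool.Graph.R_seed8.Y433.XK.Few

/-! Project JL: FEW (helper52), adaptation of `Pool.Agent.Y433.XK.t_FEW` and `gen`. -/

set_option autoImplicit false

open scoped Classical

namespace Pool.Agent.H451.JL

open Finset Filter
open Pool.Agent.Y692.QS (Ei)
open Pool.Agent.Y715.T.Rec (cs)
open Pool.Agent.Y715.T.RecG (Pq)
open Pool.Agent.Y699.E
open Pool.Agent.Y703.CX (eL zz kk)
open Pool.Agent.Y703.XK (SS sm la)
open Pool.Agent.Y433.XK (pN pN_pos eulerE M_le small_sum fiber_le)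
open Pool.Agent.Y495.CX.Few (eL_tendsto log_small zz_ge loglog_zz rpow_eq)

namespace FewJ

lemma nrm_le_of_dvd {a n : Ei} (hn : n ≠ 0) (h : a ∣ n) : nrm a ≤ nrm n := by
  obtain ⟨c, rfl⟩ := h
  rw [nrm_mul]
  exact Nat.le_mul_of_pos_right _ (nrm_pos' (right_ne_zero_of_mul hn))

/-- the sum over the squarefree elements of a product of sums -/
theorem mul_split {g₁ g₂ : Ei → ℝ} (h1 : ∀ π, 0 ≤ g₁ π) (h2 : ∀ π, 0 ≤ g₂ π) (T : ℕ) :
    ∑ n ∈ SB T, mf (fun π => g₁ π + g₂ π) n / nrm n ≤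
      (∑ n ∈ SB T, mf g₁ n / nrm n) * ∑ n ∈ SB T, mf g₂ n / nrm n := by
  rw [sum_mul_sum, ← sum_product']
  have e1 : ∑ n ∈ SB T, mf (fun π => g₁ π + g₂ π) n / nrm n =
      ∑ x ∈ (SB T).sigma (fun n => (PD n).powerset),
        ((∏ π ∈ x.2, g₁ π) * ∏ π ∈ PD x.1 \ x.2, g₂ π) / nrm x.1 := by
    rw [sum_sigma]
    refine sum_congr rfl fun n _ => ?_
    unfold mf
    rw [prod_add, sum_div]
  have key : ∀ x ∈ (SB T).sigma (fun n => (PD n).powerset),
      PS (∏ π ∈ x.2, π) ∧ PD (∏ π ∈ x.2, π) = x.2 ∧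
      PS (∏ π ∈ PD x.1 \ x.2, π) ∧ PD (∏ π ∈ PD x.1 \ x.2, π) = PD x.1 \ x.2 ∧
      (∏ π ∈ x.2, π) * (∏ π ∈ PD x.1 \ x.2, π) = x.1 := by
    rintro ⟨n, D⟩ hx
    rw [mem_sigma, mem_SB, mem_powerset] at hx
    simp only at hx ⊢
    have hP : ∀ π ∈ PD n, Pq π := fun π hπ => ((mem_PD hx.1.2.ne).1 hπ).1
    obtain ⟨a1, a2⟩ := PS_prod (S := D) fun π hπ => hP π (hx.2 hπ)
    obtain ⟨b1, b2⟩ := PS_prod (S := PD n \ D) fun π hπ => hP π (sdiff_subset hπ)
    refine ⟨a1, a2, b1, b2, ?_⟩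
    rw [mul_comm, prod_sdiff hx.2]
    exact hx.1.2.prod
  rw [e1]
  refine sum_le_inj (fun x => (∏ π ∈ x.2, π, ∏ π ∈ PD x.1 \ x.2, π)) ?_ ?_ ?_ ?_
  · intro x hx
    obtain ⟨a1, a2, b1, b2, h⟩ := key x hx
    rw [mem_sigma, mem_SB] at hx
    rw [mem_product, mem_SB, mem_SB]
    refine ⟨⟨le_trans (nrm_le_of_dvd hx.1.2.ne ⟨_, h.symm⟩) hx.1.1, a1⟩,
      ⟨le_trans (nrm_le_of_dvd hx.1.2.ne ⟨_, (mul_comm _ _).trans h |>.symm⟩) hx.1.1, b1⟩⟩
  · rintro ⟨n, D⟩ hx ⟨n', D'⟩ hx' hxx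
    obtain ⟨-, a2, -, -, h⟩ := key _ hx
    obtain ⟨-, a2', -, -, h'⟩ := key _ hx'
    rw [Prod.mk.injEq] at hxx
    simp only at a2 a2' h h' hxx
    obtain ⟨e2, e3⟩ := hxx
    have hn : n = n' := by rw [← h, ← h', e2, e3]
    have hD : D = D' := by rw [← a2, ← a2', e2]
    subst hn hD
    rfl
  · intro x hx
    obtain ⟨a1, a2, b1, b2, h⟩ := key x hx
    simp only
    unfold mf
    rw [a2, b2, div_mul_div_comm, ← Nat.cast_mul, ← nrm_mul, h]
  · intro x _
    exact mul_nonneg (div_nonneg (mf_nonneg h1 _) (Nat.cast_nonneg _))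
      (div_nonneg (mf_nonneg h2 _) (Nat.cast_nonneg _))

theorem const_sum (δ : ℝ) (hδ : 0 ≤ δ) (T : ℕ) :
    ∑ n ∈ SB T, mf (fun _ => δ) n / nrm n ≤ Real.exp (δ * ∑ π ∈ QB T, (1 : ℝ) / nrm π) := by
  refine le_trans ?_ (small_sum δ hδ T)
  refine sum_le_inj PD ?_ ?_ ?_ ?_
  · intro n hn
    rw [mem_SB] at hn
    rw [mem_powerset]
    intro π hπ
    rw [mem_PD hn.2.ne] at hπ
    rw [mem_QB]
    exact ⟨(nrm_le_of_dvd hn.2.ne hπ.2).trans hn.1, hπ.1⟩
  · intro a ha b hb hab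
    rw [mem_SB] at ha hb
    rw [← ha.2.prod, ← hb.2.prod, hab]
  · intro n hn
    rw [mem_SB] at hn
    have e1 : mf (fun _ => δ) n = δ ^ (PD n).card := by
      unfold mf
      rw [prod_const]
    have e2 : nrm n = pN (PD n) := by
      unfold pN
      rw [← nrm_prod, hn.2.prod]
    rw [e1, e2, mul_one_div]
  · intro S _
    positivity

/-- the Dirichlet sum of the character weight -/
theorem g1_sum {A B : Ei} (hA : PS A) (hB : PS B) (h1 : A ≠ B) :
    ∃ C : ℝ, 0 ≤ C ∧ ∀ T : ℕ,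
      ∑ n ∈ SB T, mf (fun π => (1 + 2 * (xab A B π).re) / 3) n / nrm n ≤ C * (lg T) ^ (2 / 3 : ℝ) := by
  have hch := xab_ch hA hB
  have hl := one_le_lg (nrm A * nrm B)
  refine ⟨(2460375 * lg (nrm A * nrm B)) ^ (1 / 3 : ℝ), by positivity, fun T => ?_⟩
  have hlT := lg_pos T
  have hAA : ∑ n ∈ PB (T ^ 3), mf (fun π => 3 * ((1 + 2 * (xab A B π).re) / 3)) n / nrm n ≤
      (2460375 * lg (nrm A * nrm B)) * lg T ^ 2 := by
    have e1 : (fun π : Ei => 3 * ((1 + 2 * (xab A B π).re) / 3)) = fun π => 1 + 2 * (xab A B π).re := by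
      funext π; ring
    rw [e1]
    refine (conv_bound hch (chs_log hA hB h1) (T ^ 3)).trans ?_
    have e5 := lg_cube T
    have e6 := lg_pos (T ^ 3)
    have e7 : (32 * lg (T ^ 3)) ^ 2 ≤ (96 * lg T) ^ 2 := by
      apply pow_le_pow_left₀ (by positivity)
      linarith
    calc (32 * lg (T ^ 3)) ^ 2 * (264 * lg (nrm A * nrm B)) ≤ (96 * lg T) ^ 2 * (264 * lg (nrm A * nrm B)) := by
          apply mul_le_mul_of_nonneg_right e7 (by positivity)
      _ = 2433024 * (lg (nrm A * nrm B) * lg T ^ 2) := by ring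
      _ ≤ 2460375 * (lg (nrm A * nrm B) * lg T ^ 2) := by
          have : 0 ≤ lg (nrm A * nrm B) * lg T ^ 2 := by positivity
          linarith
      _ = _ := by ring
  have hv := fun π => hch.val π
  have h3 := (hall3 (g := fun π => (1 + 2 * (xab A B π).re) / 3)
    (fun π => by have := re_nonneg (hv π); linarith)
    (fun π => by have := re_le (hv π); linarith) T).trans hAA
  have A0 : 0 < 2460375 * lg (nrm A * nrm B) := by linarith
  apply le_of_pow_le_pow_left₀ (n := 3) (by norm_num) (by positivity)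
  refine h3.trans (le_of_eq ?_)
  rw [mul_pow, ← Real.rpow_natCast, ← Real.rpow_natCast, ← Real.rpow_natCast, ← Real.rpow_mul A0.le,
    ← Real.rpow_mul hlT.le]
  norm_num

/-- the weight -/
noncomputable def gw (χ : Ei → ℂ) (π : Ei) : ℝ := if χ π = 1 then 1 else 1 / 24

lemma gw_nonneg (χ : Ei → ℂ) (π : Ei) : 0 ≤ gw χ π := by
  unfold gw; split_ifs <;> norm_num

lemma gw_le (χ : Ei → ℂ) (π : Ei) : gw χ π ≤ 1 := by
  unfold gw; split_ifs <;> norm_num

theorem gw_sum {A B : Ei} (hA : PS A) (hB : PS B) (h1 : A ≠ B) :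
    ∃ C : ℝ, 0 ≤ C ∧ ∀ T : ℕ,
      ∑ n ∈ SB T, mf (gw (xab A B)) n ≤ C * (T * (lg T) ^ (-(1 / 4) : ℝ)) := by
  obtain ⟨C₁, hC₁, hg1⟩ := g1_sum hA hB h1
  obtain ⟨C₂, hC₂, hM⟩ := M_le
  have hch := xab_ch hA hB
  refine ⟨32 + 21 * C₁ * Real.exp (C₂ / 24), by positivity, fun T => ?_⟩
  have hlT := lg_pos T
  have hl1 := one_le_lg T
  have hpos : 0 ≤ (T : ℝ) * (lg T) ^ (-(1 / 4) : ℝ) := by positivity
  rcases Nat.lt_or_ge T 3 with hT | hT
  · rcases Nat.eq_zero_or_pos T with h0 | h0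
    · rw [SB_empty h0, sum_empty]
      positivity
    · have h2 : ∑ n ∈ SB T, mf (gw (xab A B)) n ≤ 16 * T := by
        refine (sum_le_sum fun n _ => mf_le_one (gw_nonneg _) (gw_le _) n).trans ?_
        rw [sum_const, nsmul_eq_mul, mul_one]
        exact card_SB_le h0
      have h3 : lg T ≤ 2 := by
        refine (lg_mono (show T ≤ 2 by omega)).trans (le_of_eq ?_)
        unfold lg
        norm_num
      have h4 : (1 / 2 : ℝ) ≤ (lg T) ^ (-(1 / 4) : ℝ) := by
        calc (1 / 2 : ℝ) = 2 ^ (-1 : ℝ) := by rw [Real.rpow_neg_one]; norm_num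
          _ ≤ 2 ^ (-(1 / 4) : ℝ) := Real.rpow_le_rpow_of_exponent_le (by norm_num) (by norm_num)
          _ ≤ (lg T) ^ (-(1 / 4) : ℝ) := Real.rpow_le_rpow_of_nonpos hlT h3 (by norm_num)
      have hTr : (0 : ℝ) ≤ T := Nat.cast_nonneg _
      calc ∑ n ∈ SB T, mf (gw (xab A B)) n ≤ 16 * T := h2
        _ = 32 * (T * (1 / 2)) := by ring
        _ ≤ 32 * (T * (lg T) ^ (-(1 / 4) : ℝ)) := by gcongr
        _ ≤ (32 + 21 * C₁ * Real.exp (C₂ / 24)) * (T * (lg T) ^ (-(1 / 4) : ℝ)) := by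
            apply mul_le_mul_of_nonneg_right _ hpos
            have : 0 ≤ 21 * C₁ * Real.exp (C₂ / 24) := by positivity
            linarith
  · have hT1 : 1 ≤ T := by omega
    have hTr : (0 : ℝ) < T := by exact_mod_cast (by omega : 0 < T)
    have hlog : 1 ≤ Real.log T := by
      rw [Real.le_log_iff_exp_le hTr]
      have := Real.exp_one_lt_d9
      have h3 : (3 : ℝ) ≤ T := by exact_mod_cast hT
      linarith
    set S := ∑ n ∈ SB T, mf (gw (xab A B)) n with hS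
    have hS0 : 0 ≤ S := sum_nonneg fun n _ => mf_nonneg (gw_nonneg _) n
    have h2 := hall1 (gw_nonneg (xab A B)) (gw_le (xab A B)) hT1
    rw [← hS] at h2
    have hle : ∑ n ∈ SB T, mf (gw (xab A B)) n / nrm n ≤
        ∑ n ∈ SB T, mf (fun π => (1 + 2 * (xab A B π).re) / 3 + 1 / 24) n / nrm n := by
      refine sum_le_sum fun n _ => ?_
      refine div_le_div_of_nonneg_right ?_ (Nat.cast_nonneg _)
      unfold mf
      refine prod_le_prod (fun π _ => gw_nonneg _ _) fun π _ => ?_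
      have h5 := re_nonneg (hch.val π)
      unfold gw
      split_ifs with h6
      · rw [h6]
        norm_num
      · linarith
    have h3 := hle.trans (mul_split (g₁ := fun π => (1 + 2 * (xab A B π).re) / 3)
      (g₂ := fun _ => 1 / 24) (fun π => by have := re_nonneg (hch.val π); linarith)
      (fun _ => by norm_num) T)
    have h4 := const_sum (1 / 24) (by norm_num) T
    have h5 : Real.exp (1 / 24 * ∑ π ∈ QB T, (1 : ℝ) / nrm π) ≤
        Real.exp (C₂ / 24) * (lg T) ^ (1 / 12 : ℝ) := by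
      have h6 := hM T hT
      have h7 : (lg T) ^ (1 / 12 : ℝ) ≥ (Real.log T) ^ (1 / 12 : ℝ) :=
        Real.rpow_le_rpow (by linarith) (log_le_lg hT1) (by norm_num)
      have h8 : (Real.log T) ^ (1 / 12 : ℝ) = Real.exp (1 / 12 * Real.log (Real.log T)) := by
        rw [Real.rpow_def_of_pos (by linarith), mul_comm]
      calc Real.exp (1 / 24 * ∑ π ∈ QB T, (1 : ℝ) / nrm π)
          ≤ Real.exp (C₂ / 24 + 1 / 12 * Real.log (Real.log T)) := by
            apply Real.exp_le_exp.2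
            linarith
        _ = Real.exp (C₂ / 24) * (Real.log T) ^ (1 / 12 : ℝ) := by rw [Real.exp_add, h8]
        _ ≤ Real.exp (C₂ / 24) * (lg T) ^ (1 / 12 : ℝ) := by gcongr
    have h6 : ∑ n ∈ SB T, mf (gw (xab A B)) n / nrm n ≤
        (C₁ * (lg T) ^ (2 / 3 : ℝ)) * (Real.exp (C₂ / 24) * (lg T) ^ (1 / 12 : ℝ)) := by
      refine h3.trans ?_
      refine mul_le_mul (hg1 T) (h4.trans h5) ?_ (by positivity)
      exact sum_nonneg fun n _ => div_nonneg (mf_nonneg (fun _ => by norm_num) _) (Nat.cast_nonneg _)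
    have h7 : (lg T) ^ (2 / 3 : ℝ) * (lg T) ^ (1 / 12 : ℝ) = (lg T) ^ (-(1 / 4) : ℝ) * lg T := by
      rw [← Real.rpow_add hlT]
      have := Real.rpow_add hlT (-(1 / 4)) 1
      rw [Real.rpow_one] at this
      rw [← this]
      norm_num
    have h8 := lg_le_log (show 2 ≤ T by omega)
    have h9 : S * lg T ≤ (21 * C₁ * Real.exp (C₂ / 24)) * (T * (lg T) ^ (-(1 / 4) : ℝ)) * lg T := by
      calc S * lg T ≤ S * (3 * Real.log T) := mul_le_mul_of_nonneg_left h8 hS0
        _ = 3 * (S * Real.log T) := by ring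
        _ ≤ 3 * (7 * T * ((C₁ * (lg T) ^ (2 / 3 : ℝ)) *
              (Real.exp (C₂ / 24) * (lg T) ^ (1 / 12 : ℝ)))) := by
            have h10 : 7 * (T : ℝ) * ∑ n ∈ SB T, mf (gw (xab A B)) n / nrm n ≤
                7 * T * ((C₁ * (lg T) ^ (2 / 3 : ℝ)) *
                  (Real.exp (C₂ / 24) * (lg T) ^ (1 / 12 : ℝ))) :=
              mul_le_mul_of_nonneg_left h6 (by positivity)
            linarith
        _ = 21 * C₁ * Real.exp (C₂ / 24) * T * ((lg T) ^ (2 / 3 : ℝ) * (lg T) ^ (1 / 12 : ℝ)) := by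
            ring
        _ = _ := by rw [h7]; ring
    have h10 := le_of_mul_le_mul_right h9 hlT
    refine h10.trans ?_
    apply mul_le_mul_of_nonneg_right _ hpos
    linarith

/-- the general estimate (exponent `-1/4`) -/
theorem gen4 (a b : ℝ) (ha : 0 ≤ a) (hb : 0 ≤ b) (Q : ℕ → Finset Ei → Prop)
    (hcount : ∀ (X : ℕ) (S₀ : Finset Ei), (∀ u ∈ S₀, Pq u ∧ nrm u ≤ zz X) → S₀.card ≤ kk X →
      ∀ F : Finset (Finset Ei),
      (∀ S ∈ F, S ∈ SS X ∧ (S.card ≤ kk X ∧ Q X S) ∧ sm (zz X) S = S₀) → (F.card : ℝ) ≤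
        b * a ^ S₀.card * (((X / pN S₀ : ℕ) : ℝ) *
          (lg (X / pN S₀)) ^ (-(1 / 4) : ℝ))) :
    ∀ ε : ℝ, 0 < ε → ∃ X₀ : ℕ, ∀ X : ℕ, X₀ ≤ X → ∀ F : Finset (Finset Ei),
      (∀ S ∈ F, S ∈ SS X ∧ S.card ≤ kk X ∧ Q X S) → (F.card : ℝ) ≤ ε * X := by
  intro ε hε
  obtain ⟨C, hC0, hC⟩ := M_le
  -- the final comparison
  have hlim : Tendsto (fun l : ℝ => (3 * b * Real.exp (a * C)) * Real.exp (-(1 / 8) * l)) atTop
      (nhds 0) := by
    have h1 : Tendsto (fun l : ℝ => Real.exp (-(1 / 8) * l)) atTop (nhds 0) := by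
      refine Real.tendsto_exp_atBot.comp ?_
      exact tendsto_id.const_mul_atTop_of_neg (by norm_num)
    have := h1.const_mul (3 * b * Real.exp (a * C))
    rwa [mul_zero] at this
  have hpow : ∀ᶠ l : ℝ in atTop, 33 * l ^ 4 + 3 ≤ Real.exp l := by
    have h1 := (Real.isLittleO_pow_exp_atTop (n := 4)).bound (show (0:ℝ) < 1 / 66 by norm_num)
    filter_upwards [h1, eventually_ge_atTop (2:ℝ)] with l hl hl2
    rw [Real.norm_of_nonneg (by positivity), Real.norm_of_nonneg (Real.exp_pos _).le] at hl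
    have h2 : (16:ℝ) ≤ l ^ 4 := by
      have := pow_le_pow_left₀ (by norm_num : (0:ℝ) ≤ 2) hl2 4
      linarith
    linarith
  have hev := (((eL_tendsto.eventually (log_small (6 * a) (1 / 8) (by norm_num))).and
    (eL_tendsto.eventually (eventually_ge_atTop 2))).and
    (eL_tendsto.eventually (hlim.eventually (gt_mem_nhds hε)))).and (eL_tendsto.eventually hpow)
  obtain ⟨X₀, hX₀⟩ := eventually_atTop.1 hev
  refine ⟨max X₀ 3, fun X hX F hF => ?_⟩
  obtain ⟨⟨⟨k1, k2⟩, k3⟩, k4⟩ := hX₀ X ((le_max_left _ _).trans hX)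
  have hX3 : 3 ≤ X := (le_max_right _ _).trans hX
  set ℓ : ℝ := eL X with hℓ
  set z : ℕ := zz X with hz
  set k : ℕ := kk X with hk
  have hl0 : 0 < ℓ := by linarith
  have hlX : Real.log X = Real.exp ℓ := by
    have := rpow_eq (X := X) k2 1
    rwa [Real.rpow_one, one_mul] at this
  have hX0 : (0 : ℝ) < X := by exact_mod_cast (by omega : 0 < X)
  have hk11 : (k : ℝ) ≤ 11 * ℓ := by
    have h := Nat.ceil_lt_add_one (show (0 : ℝ) ≤ 10 * eL X by rw [← hℓ]; positivity)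
    have h' : (k : ℝ) < 10 * ℓ + 1 := h
    linarith
  have hz3 : 3 ≤ z := zz_ge k2
  have hz0 : (0 : ℝ) < z := by exact_mod_cast (by omega : 0 < z)
  have hzlog : Real.log z ≤ ℓ ^ 3 := by
    rw [Real.log_le_iff_le_exp hz0]
    exact Nat.floor_le (Real.exp_pos _).le
  have hzlog0 : 0 < Real.log z := Real.log_pos (by exact_mod_cast (by omega : 1 < z))
  have hl4 : (1 : ℝ) ≤ ℓ ^ 4 := one_le_pow₀ (by linarith)
  set W : Finset (Finset Ei) := (QB z).powerset.filter fun S => S.card ≤ k with hW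
  have hmaps : ∀ S ∈ F, sm z S ∈ W := by
    intro S hS
    replace hS := hF S hS
    rw [hW, mem_filter, mem_powerset]
    refine ⟨?_, (card_le_card (filter_subset _ _)).trans hS.2.1⟩
    intro π hπ
    unfold sm at hπ
    rw [mem_filter] at hπ
    unfold SS at hS
    rw [mem_filter] at hS
    rw [mem_QB]
    exact ⟨hπ.2, hS.1.2.1.1 π hπ.1⟩
  have hcard : (F.card : ℝ) = ∑ S₀ ∈ W, ((F.filter fun S => sm z S = S₀).card : ℝ) := by
    have := card_eq_sum_card_fiberwise hmaps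
    exact_mod_cast this
  have hone : ∀ S₀ ∈ W, ((F.filter fun S => sm z S = S₀).card : ℝ) ≤
      (a ^ S₀.card * (1 / (pN S₀ : ℝ))) * (3 * b * X * Real.exp (-(1 / 4) * ℓ)) := by
    intro S₀ hS₀
    rw [hW, mem_filter, mem_powerset] at hS₀
    have hpq : ∀ u ∈ S₀, Pq u ∧ nrm u ≤ z := fun u hu => by
      have := hS₀.1 hu
      rw [mem_QB] at this
      exact ⟨this.2, this.1⟩
    have h1 := hcount X S₀ hpq hS₀.2 (F.filter fun S => sm z S = S₀) (fun S hS => by
      rw [mem_filter] at hS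
      have h := hF S hS.1
      exact ⟨h.1, h.2, hS.2⟩)
    refine h1.trans ?_
    set N := pN S₀ with hN
    have hN0 : 0 < N := pN_pos fun u hu => (hpq u hu).1
    have hN0' : (0 : ℝ) < N := by exact_mod_cast hN0
    have hlN : Real.log N ≤ 11 * ℓ ^ 4 := by
      have e1 : Real.log N = ∑ p ∈ S₀, Real.log (nrm p) := by
        rw [hN]
        unfold pN
        push_cast
        rw [Real.log_prod]
        intro p hp
        have := nrm_ne (pq_ne (hpq p hp).1)
        exact_mod_cast this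
      rw [e1]
      calc ∑ p ∈ S₀, Real.log (nrm p) ≤ ∑ _p ∈ S₀, Real.log z := by
            refine sum_le_sum fun p hp => ?_
            exact Real.log_le_log (by exact_mod_cast nrm_pos' (pq_ne (hpq p hp).1))
              (by exact_mod_cast (hpq p hp).2)
        _ = S₀.card * Real.log z := by rw [sum_const, nsmul_eq_mul]
        _ ≤ (11 * ℓ) * ℓ ^ 3 := by
            refine mul_le_mul (le_trans (by exact_mod_cast hS₀.2) hk11) hzlog hzlog0.le
              (by positivity)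
        _ = 11 * ℓ ^ 4 := by ring
    have hYle : ((X / N : ℕ) : ℝ) ≤ (X : ℝ) / N := Nat.cast_div_le
    have hYge : Real.exp (Real.log X / 3) ≤ ((X / N : ℕ) : ℝ) := by
      have e1 : (X : ℝ) / N < ((X / N : ℕ) : ℝ) + 1 := by
        rw [div_lt_iff₀ hN0']
        have := Nat.lt_mul_div_succ X hN0
        have h' : ((X : ℕ) : ℝ) < ((N * (X / N + 1) : ℕ) : ℝ) := by exact_mod_cast this
        rw [Nat.cast_mul, Nat.cast_add, Nat.cast_one] at h'
        linarith
      have e2 : Real.exp (Real.log X - Real.log N) = (X : ℝ) / N := by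
        rw [Real.exp_sub, Real.exp_log hX0, Real.exp_log hN0']
      have e3 : Real.exp (Real.log X / 3 + 1) ≤ (X : ℝ) / N := by
        rw [← e2]
        apply Real.exp_le_exp.2
        rw [← hlX] at k4
        linarith
      rw [Real.exp_add] at e3
      have e4 : (2 : ℝ) ≤ Real.exp 1 := by have := Real.exp_one_gt_d9; linarith
      have e5 : (1 : ℝ) ≤ Real.exp (Real.log X / 3) := by
        apply Real.one_le_exp
        rw [hlX]
        positivity
      nlinarith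
    have hY1 : 1 ≤ X / N := by
      have : (0:ℝ) < ((X / N : ℕ) : ℝ) := lt_of_lt_of_le (Real.exp_pos _) hYge
      exact_mod_cast this
    have hlgY : Real.exp ℓ / 3 ≤ lg (X / N) := by
      refine le_trans ?_ (log_le_lg hY1)
      rw [← hlX, Real.le_log_iff_exp_le (by exact_mod_cast hY1)]
      exact hYge
    have hrp : (lg (X / N)) ^ (-(1 / 4) : ℝ) ≤ 3 * Real.exp (-(1 / 4) * ℓ) := by
      have e1 : (lg (X / N)) ^ (-(1 / 4) : ℝ) ≤ (Real.exp ℓ / 3) ^ (-(1 / 4) : ℝ) :=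
        Real.rpow_le_rpow_of_nonpos (by positivity) hlgY (by norm_num)
      refine e1.trans ?_
      rw [Real.div_rpow (Real.exp_pos _).le (by norm_num), ← Real.exp_mul, div_eq_mul_inv,
        ← Real.rpow_neg (by norm_num), neg_neg, mul_comm ℓ, mul_comm]
      refine mul_le_mul_of_nonneg_right ?_ (Real.exp_pos _).le
      calc (3:ℝ) ^ (1 / 4 : ℝ) ≤ 3 ^ (1:ℝ) :=
            Real.rpow_le_rpow_of_exponent_le (by norm_num) (by norm_num)
        _ = 3 := Real.rpow_one _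
    have hrp0 : 0 ≤ (lg (X / N)) ^ (-(1 / 4) : ℝ) :=
      Real.rpow_nonneg (zero_le_one.trans (one_le_lg _)) _
    calc b * a ^ S₀.card * (((X / N : ℕ) : ℝ) * (lg (X / N)) ^ (-(1 / 4) : ℝ))
        ≤ b * a ^ S₀.card * (((X : ℝ) / N) * (3 * Real.exp (-(1 / 4) * ℓ))) := by
          gcongr
      _ = (a ^ S₀.card * (1 / (N : ℝ))) * (3 * b * X * Real.exp (-(1 / 4) * ℓ)) := by
          ring
  have hsum : (F.card : ℝ) ≤ Real.exp (a * ∑ π ∈ QB z, (1 : ℝ) / nrm π) *
      (3 * b * X * Real.exp (-(1 / 4) * ℓ)) := by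
    rw [hcard]
    refine (sum_le_sum hone).trans ?_
    rw [← sum_mul]
    refine mul_le_mul_of_nonneg_right ?_ (by positivity)
    refine le_trans ?_ (small_sum a ha z)
    refine sum_le_sum_of_subset_of_nonneg (filter_subset _ _) fun S _ _ => by positivity
  have hM : a * ∑ π ∈ QB z, (1 : ℝ) / nrm π ≤ a * C + 6 * a * Real.log ℓ := by
    have h1 := hC z hz3
    have h2 := loglog_zz k2
    have h3 : ∑ π ∈ QB z, (1 : ℝ) / nrm π ≤ 6 * Real.log ℓ + C := by linarith
    have := mul_le_mul_of_nonneg_left h3 ha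
    linarith
  calc (F.card : ℝ) ≤ Real.exp (a * C + 6 * a * Real.log ℓ) *
        (3 * b * X * Real.exp (-(1 / 4) * ℓ)) := by
        refine hsum.trans ?_
        gcongr
    _ = 3 * b * Real.exp (a * C) * Real.exp (6 * a * Real.log ℓ - 1 / 4 * ℓ) * X := by
        rw [Real.exp_add, show 6 * a * Real.log ℓ - 1 / 4 * ℓ =
          6 * a * Real.log ℓ + -(1 / 4) * ℓ by ring, Real.exp_add]
        ring
    _ ≤ 3 * b * Real.exp (a * C) * Real.exp (-(1 / 8) * ℓ) * X := by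
        gcongr
        linarith
    _ ≤ ε * X := by
        refine mul_le_mul_of_nonneg_right ?_ hX0.le
        exact le_of_lt k3

lemma ez_eq_one {c : ZMod 3} (h : ez c = 1) : c = 0 := by
  by_contra h0
  have := ez_root h0
  rw [h] at this
  norm_num at this

/-- the character attached to a combination of the symbols -/
theorem xab_val (U : Finset Ei) (a : Ei → ZMod 3) (hU : ∀ u ∈ U, Pq u) {z : ℕ}
    (hz : ∀ u ∈ U, nrm u ≤ z) {π : Ei} (hπ : Pq π) (hπz : ¬ nrm π ≤ z) :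
    xab (∏ u ∈ U.filter (fun u => a u = 1), u) (∏ u ∈ U.filter (fun u => a u = 2), u) π =
      ez (∑ u ∈ U, a u * cs u π) := by
  obtain ⟨-, a2⟩ := PS_prod (S := U.filter (fun u => a u = 1)) fun u hu =>
    hU u (filter_subset _ _ hu)
  obtain ⟨-, b2⟩ := PS_prod (S := U.filter (fun u => a u = 2)) fun u hu =>
    hU u (filter_subset _ _ hu)
  have hchi : ∀ u ∈ U, chi u π = ez (cs u π) := by
    intro u hu
    refine chi_of fun hdv => ?_
    have := eq_of_dvd (hU u hu) hπ hdv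
    subst this
    exact hπz (hz u hu)
  unfold xab jac
  rw [a2, b2, prod_congr rfl fun u hu => hchi u (filter_subset _ _ hu),
    prod_congr rfl fun u hu => hchi u (filter_subset _ _ hu),
    ← Pool.Agent.Y433.XK.ez_sum, ← Pool.Agent.Y433.XK.ez_sum, conj_ez, ← ez_add, ← sub_eq_add_neg, sum_filter, sum_filter,
    ← sum_sub_distrib]
  congr 1
  refine sum_congr rfl fun u _ => ?_
  have key : ∀ a b : ZMod 3, (if a = 1 then b else 0) - (if a = 2 then b else 0) = a * b := by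
    decide
  exact key (a u) (cs u π)

theorem few_count (U : Finset Ei) (a : Ei → ZMod 3) (hU : ∀ u ∈ U, Pq u)
    (ha : ∃ u ∈ U, a u ≠ 0) (V : ℕ) : ∃ b : ℝ, 0 ≤ b ∧
    ∀ (X : ℕ) (S₀ : Finset Ei), (∀ u ∈ S₀, Pq u ∧ nrm u ≤ zz X) → ∀ F : Finset (Finset Ei),
      (∀ S ∈ F, S ∈ SS X ∧ (S.card ≤ kk X ∧ ((∀ u ∈ U, nrm u ≤ zz X) ∧
        ((la (zz X) S).filter fun π => ∑ u ∈ U, a u * cs u π ≠ 0).card ≤
          2 * (sm (zz X) S).card + V)) ∧ sm (zz X) S = S₀) → (F.card : ℝ) ≤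
        b * 576 ^ S₀.card * (((X / pN S₀ : ℕ) : ℝ) * (lg (X / pN S₀)) ^ (-(1 / 4) : ℝ)) := by
  obtain ⟨a1, a2⟩ := PS_prod (S := U.filter (fun u => a u = 1)) fun u hu =>
    hU u (filter_subset _ _ hu)
  obtain ⟨b1, b2⟩ := PS_prod (S := U.filter (fun u => a u = 2)) fun u hu =>
    hU u (filter_subset _ _ hu)
  have hval := fun z => xab_val U a hU (z := z)
  set A := ∏ u ∈ U.filter (fun u => a u = 1), u with hA
  set B := ∏ u ∈ U.filter (fun u => a u = 2), u with hB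
  have hAB : A ≠ B := by
    intro h
    have heq : U.filter (fun u => a u = 1) = U.filter (fun u => a u = 2) := by
      rw [← a2, ← b2, h]
    obtain ⟨u, hu, hu0⟩ := ha
    have key : ∀ c : ZMod 3, c ≠ 0 → c = 1 ∨ c = 2 := by decide
    rcases key (a u) hu0 with h1 | h1
    · have : u ∈ U.filter fun u => a u = 2 := by
        rw [← heq, mem_filter]
        exact ⟨hu, h1⟩
      rw [mem_filter, h1] at this
      exact absurd this.2 (by decide)
    · have : u ∈ U.filter fun u => a u = 1 := by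
        rw [heq, mem_filter]
        exact ⟨hu, h1⟩
      rw [mem_filter, h1] at this
      exact absurd this.2 (by decide)
  obtain ⟨C, hC0, hC⟩ := gw_sum a1 b1 hAB
  refine ⟨C * 24 ^ V, by positivity, fun X S₀ hS₀ F hF => ?_⟩
  have h := fiber_le X (zz X) S₀ (fun u hu => (hS₀ u hu).1)
    F (fun S hS => ⟨(hF S hS).1, (hF S hS).2.2⟩) (gw (xab A B)) (gw_nonneg _)
    ((1 / 24) ^ (2 * S₀.card + V)) (fun S hS => by
        obtain ⟨h1, ⟨-, h2, h3⟩, h4⟩ := hF S hS
        have hP : ∀ π ∈ la (zz X) S, Pq π ∧ ¬ nrm π ≤ zz X := by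
          intro π hπ
          unfold la at hπ
          rw [mem_filter] at hπ
          unfold SS at h1
          rw [mem_filter] at h1
          exact ⟨h1.2.1.1 π hπ.1, hπ.2⟩
        have e1 : ∏ π ∈ la (zz X) S, gw (xab A B) π = (1 / 24) ^
            ((la (zz X) S).filter fun π => ∑ u ∈ U, a u * cs u π ≠ 0).card := by
          rw [← prod_const, prod_filter]
          refine prod_congr rfl fun π hπ => ?_
          unfold gw
          rw [hval (zz X) h2 (hP π hπ).1 (hP π hπ).2]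
          by_cases h0 : ∑ u ∈ U, a u * cs u π = 0
          · rw [h0, ez_zero, if_pos rfl, if_neg (by simp)]
          · rw [if_neg fun h5 => h0 (ez_eq_one h5), if_pos h0]
        rw [e1]
        refine pow_le_pow_of_le_one (by norm_num) (by norm_num) ?_
        rw [h4] at h3
        exact h3)
  have h2 := h.trans (hC (X / pN S₀))
  set c := (F.card : ℝ) with hcdef
  have h3 : (24 : ℝ) ^ (2 * S₀.card + V) * (1 / 24) ^ (2 * S₀.card + V) = 1 := by
    rw [← mul_pow]
    norm_num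
  calc c = (24 : ℝ) ^ (2 * S₀.card + V) * (c * (1 / 24) ^ (2 * S₀.card + V)) := by
        linear_combination (-c) * h3
    _ ≤ (24 : ℝ) ^ (2 * S₀.card + V) * (C * (((X / pN S₀ : ℕ) : ℝ) *
          (lg (X / pN S₀)) ^ (-(1 / 4) : ℝ))) := mul_le_mul_of_nonneg_left h2 (by positivity)
    _ = _ := by
        rw [pow_add, pow_mul]
        norm_num
        ring

lemma zz_tendsto : Tendsto (fun X : ℕ => zz X) atTop atTop := by
  have h : ∀ X : ℕ, zz X = ⌊Real.exp ((eL X) ^ 3)⌋₊ := fun X => rfl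
  have h1 : Tendsto (fun X : ℕ => Real.exp ((eL X) ^ 3)) atTop atTop :=
    Real.tendsto_exp_atTop.comp ((tendsto_pow_atTop (by norm_num)).comp eL_tendsto)
  exact tendsto_nat_floor_atTop.comp h1

end FewJ

open FewJ in
theorem t_FEWJ : S_FEWJ := by
  intro U a hU ha V ε hε
  obtain ⟨b, hb0, hb⟩ := few_count U a hU ha V
  obtain ⟨X₀, hX₀⟩ := gen4 576 b (by norm_num) hb0
    (fun X S => (∀ u ∈ U, nrm u ≤ zz X) ∧
        ((la (zz X) S).filter fun π => ∑ u ∈ U, a u * cs u π ≠ 0).card ≤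
          2 * (sm (zz X) S).card + V)
    (fun X S₀ hS₀ _ F hF => hb X S₀ hS₀ F hF) ε hε
  obtain ⟨X₁, hX₁⟩ := eventually_atTop.1 (zz_tendsto.eventually (eventually_ge_atTop (U.sup nrm)))
  refine ⟨max X₀ X₁, fun X hX => hX₀ X ((le_max_left _ _).trans hX) _ fun S hS => ?_⟩
  rw [mem_filter] at hS
  refine ⟨hS.1, hS.2.1, fun u hu => ?_, hS.2.2⟩
  exact (Finset.le_sup (f := nrm) hu).trans (hX₁ X ((le_max_right _ _).trans hX))

end Pool.Agent.H451.JL
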