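import Mathlib
import Pool.Agent.H451.JL.Stm2
import Pool.Graph.R_seed8.Y696.XL.Key3

/-!
# Project JL: the sum over the boxes (adaptation of `Pool.Agent.XLK.t_KEG`)
-/

set_option autoImplicit false

namespace Pool.Agent.H451.JL

open Finset
open Pool.Agent.Y692.QS (Ei w nr toC)
open Pool.Agent.Y715.T.Rec (cs)
open Pool.Agent.Y715.T.RecG (Pq)
open Pool.Agent.Y699.E (ez nrm QB mem_QB pq_nrm_two nrm_prod PS_prod PD SB mem_SB card_SB_le
  hsum_SB lg)
open Pool.Agent.Y703.CX (jj XX)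
open Pool.Agent.Y703.XK
open Pool.Agent.XLK
open scoped Classical

/-- the statement for the boxes with the decidability of equality as a variable -/
theorem bxj_dec {kk : ℕ} {w : Fin kk → Ei → F} {U : Finset Ei} {V : ℕ} {ε : ℝ}
    (hB : BXJ w U V ε) (ι : Type) [Fintype ι] [inst : DecidableEq ι]
    (lo : LinearOrder ι) (C : ι → Finset Ei) (X : ι → ℕ) (κ : ℝ) (S₀ : Finset Ei) (h1 : 0 ≤ κ)
    (h2 : ∀ i, (C i).card ≤ X i) (h3 : HB C X κ) (h4 : ∀ u ∈ S₀, Pq u)
    (h5 : ∀ i, ∀ π ∈ C i, Pq π ∧ π ∉ S₀) (h6 : ∀ i l, i ≠ l → Disjoint (C i) (C l))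
    (h7 : U ⊆ S₀) :
    |(((Fintype.piFinset C).filter fun p => NdV w V S₀ (univ.image p) ∧
        GW w (S₀ ∪ univ.image p)).card : ℝ) -
      c9 ^ kk * (((Fintype.piFinset C).filter fun p => NdV w V S₀ (univ.image p)).card : ℝ)| ≤
    ε * (((Fintype.piFinset C).filter fun p => NdV w V S₀ (univ.image p)).card : ℝ) +
    3 ^ (S₀.card * Fintype.card ι + (prs ι).card) * (κ * ∏ j, (X j : ℝ)) := by
  have h := hB ι C X κ S₀ h1 h2 h3 h4 h5 h6 h7
  have e : inst = fun a b => lo.toDecidableEq a b := Subsingleton.elim _ _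
  subst e
  exact h

/-- the residue of a key -/
def ResK (R : Set ℕ) (k' : Finset Ei × Finset ℕ) : Prop :=
  ((∏ π ∈ k'.1, nrm π) * ∏ i ∈ k'.2, i) % 9 ∈ R

theorem res_iff {z H : ℕ} {R : Set ℕ} {S : Finset Ei}
    (h : Set.InjOn (bl H) (la z S : Set Ei)) :
    (∏ π ∈ S, nrm π) % 9 ∈ R ↔ ResK R (ky z H S) := by
  unfold ResK ky
  have : (∏ π ∈ S, nrm π) % 9 =
      ((∏ π ∈ sm z S, nrm π) * ∏ i ∈ (la z S).image (ph H), i) % 9 := by
    rw [prod_split z S, prod_ph h (fun i => i), Nat.mul_mod, prod_mod (la z S) H, ← Nat.mul_mod]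
  rw [this]

theorem disj_iff {z : ℕ} {U S : Finset Ei} (hU : ∀ u ∈ U, nrm u ≤ z) :
    Disjoint S U ↔ Disjoint (sm z S) U := by
  unfold sm
  constructor
  · exact fun h => h.mono_left (filter_subset _ _)
  · intro h
    rw [Finset.disjoint_left] at h ⊢
    intro x hx hxU
    exact h (mem_filter.2 ⟨hx, hU x hxU⟩) hxU

theorem per_keyJ {kk : ℕ} {w : Fin kk → Ei → F} {U : Finset Ei} {R : Set ℕ} {V : ℕ} {ε : ℝ}
    (hB : BXJ w U V ε) (hε : 0 ≤ ε) (hUp : ∀ u ∈ U, Pq u) {C₁ : ℝ}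
    (hb1 : ∀ (P Q : Finset Ei) (A B z : ℕ) (c d : Ei → ℂ) (a : ZMod 3),
      (∀ π ∈ P, Pq π ∧ nrm π ≤ A) → (∀ ρ ∈ Q, Pq ρ ∧ nrm ρ ≤ B) → Disjoint P Q → a ≠ 0 →
      1 ≤ z → z ≤ A → z ≤ B → (∀ π, ‖c π‖ ≤ 1) → (∀ ρ, ‖d ρ‖ ≤ 1) →
      ‖∑ π ∈ P, ∑ ρ ∈ Q, c π * d ρ * ez (a * cs π ρ)‖ ^ 24 * z ≤ C₁ * ((A : ℝ) * B) ^ 24)
    {X z H k : ℕ} {κ : ℝ} (hH : 1 ≤ H) (hz : 1 ≤ z) (hκ : 0 ≤ κ)
    (h1 : C₁ ≤ κ ^ 24 * z) (hUz : ∀ u ∈ U, nrm u ≤ z) (hUk : U.card ≤ k)
    {S₀ : Finset Ei} {J : Finset ℕ}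
    (hkey : (S₀, J) ∈ (RR X z H k V).image (ky z H)) :
    |(((RR X z H k V).filter fun S => ky z H S = (S₀, J) ∧
        ((CondJ U R S ∧ NdV w V (sm z S ∪ U) (la z S)) ∧ GW w (S ∪ U))).card : ℝ) -
      c9 ^ kk * (((RR X z H k V).filter fun S => ky z H S = (S₀, J) ∧
        (CondJ U R S ∧ NdV w V (sm z S ∪ U) (la z S))).card : ℝ)| ≤
    ε * (((RR X z H k V).filter fun S => ky z H S = (S₀, J) ∧ True).card : ℝ) +
      (3 ^ (9 * k ^ 2) * κ) * (X * (1 / ((∏ p ∈ S₀, nrm p : ℕ) : ℝ))) := by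
  obtain ⟨h₀O, h₀, hJi, hCd, hJf⟩ := key_facts hH hkey
  obtain ⟨c1, c4, c5, c6⟩ := hCd
  have hcJ : Fintype.card J = J.card := Fintype.card_coe J
  have hCmem : ∀ i : J, ∀ p ∈ CC z H i, Pq p ∧ z < nrm p ∧ nrm p ≤ XX H (i.1 / 9) := by
    intro i p hp
    obtain ⟨k1, k2, k3⟩ := (mem_CC hH).1 hp
    refine ⟨k1, k2, ?_⟩
    unfold CC at hp
    rw [Finset.mem_filter, mem_QB] at hp
    exact hp.1.1
  have hdis : ∀ i l : J, i ≠ l → Disjoint (CC z H (i : ℕ)) (CC z H (l : ℕ)) := by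
    intro i l hil
    rw [Finset.disjoint_left]
    intro p hp hp'
    have h5 := ((mem_CC hH).1 hp).2.2
    have h6 := ((mem_CC hH).1 hp').2.2
    exact hil (Subtype.ext (h5.symm.trans h6))
  have hzX : ∀ i : J, z ≤ XX H (i.1 / 9) := fun i => (hJf i i.2).1
  have hHB : HB (fun i : J => CC z H i) (fun i : J => 16 * XX H (i.1 / 9)) κ :=
    hb_box hb1 _ _ hz hκ h1 (fun i => by have := hzX i; omega)
      (fun i p hp => by
        obtain ⟨k1, k2, k3⟩ := hCmem i p hp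
        exact ⟨k1, by omega⟩) hdis
  have hcard : ∀ i : J, (CC z H (i : ℕ)).card ≤ 16 * XX H (i.1 / 9) := by
    intro i
    refine (Finset.card_filter_le _ _).trans (card_QB_le ?_)
    have := hzX i
    omega
  have hN0 : (0 : ℝ) < ((∏ p ∈ S₀, nrm p : ℕ) : ℝ) := by
    exact_mod_cast Finset.prod_pos fun p hp => nrm_one_le (h₀O p hp)
  have hX1 : (0 : ℝ) ≤ (3 ^ (9 * k ^ 2) * κ) * (X * (1 / ((∏ p ∈ S₀, nrm p : ℕ) : ℝ))) := by
    positivity
  have hT0 : (0 : ℝ) ≤ (((RR X z H k V).filter fun S => ky z H S = (S₀, J) ∧ True).card : ℝ) :=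
    Nat.cast_nonneg _
  by_cases hcond : Disjoint S₀ U ∧ ResK R (S₀, J)
  · obtain ⟨hd, hr⟩ := hcond
    have hS₀U : ∀ u ∈ S₀ ∪ U, Pq u := fun u hu => (Finset.mem_union.1 hu).elim (h₀O u) (hUp u)
    have hbox := bxj_dec hB J inferInstance (fun i : J => CC z H i)
      (fun i : J => 16 * XX H (i.1 / 9)) κ (S₀ ∪ U) hκ hcard hHB hS₀U (fun i p hp => by
        obtain ⟨k1, k2, k3⟩ := hCmem i p hp
        refine ⟨k1, fun h => ?_⟩
        rcases Finset.mem_union.1 h with h | h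
        · have := h₀ p h
          omega
        · have := hUz p h
          omega) hdis Finset.subset_union_right
    have hcon : ∀ p ∈ Fintype.piFinset (fun i : J => CC z H i),
        CondJ U R (S₀ ∪ univ.image p) := by
      intro p hp
      have hp' := hp
      rw [Fintype.mem_piFinset] at hp'
      have hk := ky_fill hH h₀ hp'
      refine ⟨(disj_iff hUz).2 ?_, ?_⟩
      · rw [sm_fill hH h₀ hp']
        exact hd
      · have hinj : Set.InjOn (bl H) (la z (S₀ ∪ univ.image p) : Set Ei) := by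
          rw [la_fill hH h₀ hp']
          intro a ha b hb hab
          rw [Finset.mem_coe, Finset.mem_image] at ha hb
          obtain ⟨i, -, rfl⟩ := ha
          obtain ⟨j, -, rfl⟩ := hb
          have h1 := ((mem_CC hH).1 (hp' i)).2.2
          have h2 := ((mem_CC hH).1 (hp' j)).2.2
          have h3 : i.1 / 9 = j.1 / 9 := by
            rw [← h1, ← h2, ph_div, ph_div]
            exact hab
          have h4 : i = j := Subtype.ext (hJi (Finset.mem_coe.2 i.2) (Finset.mem_coe.2 j.2) h3)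
          rw [h4]
        rw [res_iff hinj, hk]
        exact hr
    have e1 : (((Fintype.piFinset fun i : J => CC z H i).filter
        fun p => NdV w V (S₀ ∪ U) (univ.image p) ∧ GW w ((S₀ ∪ U) ∪ univ.image p)).card) =
        ((RR X z H k V).filter fun S => ky z H S = (S₀, J) ∧
          ((CondJ U R S ∧ NdV w V (sm z S ∪ U) (la z S)) ∧ GW w (S ∪ U))).card := by
      refine Eq.trans (fcc ?_) ((key_bij hH hkey (fun S => (CondJ U R S ∧
        NdV w V (sm z S ∪ U) (la z S)) ∧ GW w (S ∪ U))).trans (fcc fun _ _ => Iff.rfl))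
      intro p hp
      have hc := hcon p hp
      rw [Fintype.mem_piFinset] at hp
      rw [sm_fill hH h₀ hp, la_fill hH h₀ hp, Finset.union_right_comm]
      exact ⟨fun h => ⟨⟨hc, h.1⟩, h.2⟩, fun h => ⟨h.1.2, h.2⟩⟩
    have e2 : (((Fintype.piFinset fun i : J => CC z H i).filter
        fun p => NdV w V (S₀ ∪ U) (univ.image p)).card) =
        ((RR X z H k V).filter fun S => ky z H S = (S₀, J) ∧
          (CondJ U R S ∧ NdV w V (sm z S ∪ U) (la z S))).card := by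
      refine Eq.trans (fcc ?_) ((key_bij hH hkey (fun S => CondJ U R S ∧
        NdV w V (sm z S ∪ U) (la z S))).trans (fcc fun _ _ => Iff.rfl))
      intro p hp
      have hc := hcon p hp
      rw [Fintype.mem_piFinset] at hp
      rw [sm_fill hH h₀ hp, la_fill hH h₀ hp]
      exact ⟨fun h => ⟨hc, h⟩, fun h => h.2⟩
    rw [← e1, ← e2]
    have e3 : (((Fintype.piFinset fun i : J => CC z H i).filter
        fun p => NdV w V (S₀ ∪ U) (univ.image p)).card : ℝ) ≤
        (((RR X z H k V).filter fun S => ky z H S = (S₀, J) ∧ True).card : ℝ) := by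
      rw [e2]
      have : (RR X z H k V).filter (fun S => ky z H S = (S₀, J) ∧
          (CondJ U R S ∧ NdV w V (sm z S ∪ U) (la z S))) ⊆
          (RR X z H k V).filter fun S => ky z H S = (S₀, J) ∧ True := by
        intro S hS
        rw [Finset.mem_filter] at hS ⊢
        exact ⟨hS.1, hS.2.1, trivial⟩
      exact_mod_cast Finset.card_le_card this
    refine hbox.trans ?_
    have hJK : J.card ≤ k := by omega
    have hSK : S₀.card ≤ k := by omega
    obtain ⟨m, hm⟩ : ∃ m : ℕ, m = (prs J).card := ⟨_, rfl⟩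
    have hpr : m ≤ k * k := by
      rw [hm]
      refine (prs_card J).trans ?_
      rw [hcJ]
      exact Nat.mul_le_mul hJK hJK
    rw [← hm]
    have hprod : ∏ j : J, ((16 * XX H (j.1 / 9) : ℕ) : ℝ) ≤
        3 ^ (3 * k) * (X * (1 / ((∏ p ∈ S₀, nrm p : ℕ) : ℝ))) := by
      have h5 : ∏ j : J, ((16 * XX H (j.1 / 9) : ℕ) : ℝ) =
          16 ^ J.card * ((∏ i ∈ J, XX H (i / 9) : ℕ) : ℝ) := by
        rw [← Finset.prod_coe_sort J (fun i => XX H (i / 9))]
        push_cast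
        rw [Finset.prod_mul_distrib, Finset.prod_const, Finset.card_univ, hcJ]
      have h6 : ((∏ i ∈ J, XX H (i / 9) : ℕ) : ℝ) ≤ X * (1 / ((∏ p ∈ S₀, nrm p : ℕ) : ℝ)) := by
        rw [mul_one_div, le_div_iff₀ hN0, mul_comm]
        exact_mod_cast c5
      have h7 : (16 : ℝ) ^ J.card ≤ 3 ^ (3 * k) := by
        calc (16 : ℝ) ^ J.card ≤ 27 ^ J.card := pow_le_pow_left₀ (by norm_num) (by norm_num) _
          _ = 3 ^ (3 * J.card) := by rw [pow_mul]; norm_num
          _ ≤ 3 ^ (3 * k) := pow_le_pow_right₀ (by norm_num) (by omega)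
      rw [h5]
      gcongr
    have hSU : (S₀ ∪ U).card ≤ k + k :=
      (Finset.card_union_le _ _).trans (Nat.add_le_add hSK hUk)
    have hpw : (3 : ℝ) ^ ((S₀ ∪ U).card * Fintype.card J + m) * 3 ^ (3 * k) ≤
        3 ^ (9 * k ^ 2) := by
      rw [← pow_add]
      apply pow_le_pow_right₀ (by norm_num)
      rw [hcJ]
      have h5 : (S₀ ∪ U).card * J.card ≤ (k + k) * k := Nat.mul_le_mul hSU hJK
      have h6 : k ≤ k * k := by
        rcases Nat.eq_zero_or_pos k with h | h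
        · rw [h]
        · exact Nat.le_mul_of_pos_left k h
      nlinarith
    refine add_le_add ?_ ?_
    · gcongr
    · have hX1 : (0 : ℝ) ≤ X * (1 / ((∏ p ∈ S₀, nrm p : ℕ) : ℝ)) := by positivity
      calc (3 : ℝ) ^ ((S₀ ∪ U).card * Fintype.card J + m) *
          (κ * ∏ j : J, ((16 * XX H (j.1 / 9) : ℕ) : ℝ)) ≤
          3 ^ ((S₀ ∪ U).card * Fintype.card J + m) *
            (κ * (3 ^ (3 * k) * (X * (1 / ((∏ p ∈ S₀, nrm p : ℕ) : ℝ))))) := by gcongr
        _ = (3 ^ ((S₀ ∪ U).card * Fintype.card J + m) * 3 ^ (3 * k)) *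
            (κ * (X * (1 / ((∏ p ∈ S₀, nrm p : ℕ) : ℝ)))) := by ring
        _ ≤ 3 ^ (9 * k ^ 2) * (κ * (X * (1 / ((∏ p ∈ S₀, nrm p : ℕ) : ℝ)))) := by gcongr
        _ = _ := by ring
  · have hno : ∀ S ∈ RR X z H k V, ky z H S = (S₀, J) → ¬ CondJ U R S := by
      intro S hS hk hc
      rw [mem_RR hH] at hS
      apply hcond
      have h3 := (disj_iff hUz).1 hc.1
      have h4 := (res_iff hS.2.1).1 hc.2
      rw [hk] at h4
      have h5 : sm z S = S₀ := congrArg Prod.fst hk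
      rw [h5] at h3
      exact ⟨h3, h4⟩
    have f1 : (RR X z H k V).filter (fun S => ky z H S = (S₀, J) ∧
        ((CondJ U R S ∧ NdV w V (sm z S ∪ U) (la z S)) ∧ GW w (S ∪ U))) = ∅ := by
      rw [Finset.filter_eq_empty_iff]
      rintro S hS ⟨h2, h3⟩
      exact hno S hS h2 h3.1.1
    have f2 : (RR X z H k V).filter (fun S => ky z H S = (S₀, J) ∧
        (CondJ U R S ∧ NdV w V (sm z S ∪ U) (la z S))) = ∅ := by
      rw [Finset.filter_eq_empty_iff]
      rintro S hS ⟨h2, h3⟩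
      exact hno S hS h2 h3.1
    rw [f1, f2, Finset.card_empty, Nat.cast_zero, mul_zero, sub_zero, abs_zero]
    positivity

/-- **JL-KEY.** -/
theorem t_KEJ : S_KEJ := by
  rintro ⟨C₁, hC₁, hb1⟩ kk w U R V ε hε hUp hB
  refine ⟨C₁, hC₁, ?_⟩
  intro X z H k N κ hX hH hz hκ h1 hUz hUk hN
  set T := (RR X z H k V).image (ky z H) with hT
  have hfib : ∀ P : Finset Ei → Prop, (((RR X z H k V).filter fun S => P S).card : ℝ) =
      ∑ k' ∈ T, (((RR X z H k V).filter fun S => ky z H S = k' ∧ P S).card : ℝ) := by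
    intro P
    rw [Finset.card_eq_sum_card_fiberwise (f := ky z H) (t := T) (by
      intro S hS
      rw [Finset.mem_coe, Finset.mem_filter] at hS
      exact Finset.mem_coe.2 (Finset.mem_image_of_mem _ hS.1))]
    push_cast
    refine Finset.sum_congr rfl fun k' _ => ?_
    congr 2
    ext S
    simp only [Finset.mem_filter]
    tauto
  have hall : ((RR X z H k V).card : ℝ) =
      ∑ k' ∈ T, (((RR X z H k V).filter fun S => ky z H S = k' ∧ True).card : ℝ) := by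
    rw [Finset.card_eq_sum_card_fiberwise (f := ky z H) (t := T) (by
      intro S hS
      exact Finset.mem_coe.2 (Finset.mem_image_of_mem _ hS))]
    push_cast
    exact Finset.sum_congr rfl fun k' _ => congrArg _ (fcc fun _ _ => by tauto)
  have q1 : (((RR X z H k V).filter fun S => (CondJ U R S ∧ NdV w V (sm z S ∪ U) (la z S)) ∧
      GW w (S ∪ U)).card : ℝ) =
      ∑ k' ∈ T, (((RR X z H k V).filter fun S => ky z H S = k' ∧
        ((CondJ U R S ∧ NdV w V (sm z S ∪ U) (la z S)) ∧ GW w (S ∪ U))).card : ℝ) :=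
    (congrArg _ (fcc fun _ _ => Iff.rfl)).trans ((hfib fun S => (CondJ U R S ∧
      NdV w V (sm z S ∪ U) (la z S)) ∧ GW w (S ∪ U)).trans
      (Finset.sum_congr rfl fun k' _ => congrArg _ (fcc fun _ _ => Iff.rfl)))
  have q2 : (((RR X z H k V).filter fun S => CondJ U R S ∧
      NdV w V (sm z S ∪ U) (la z S)).card : ℝ) =
      ∑ k' ∈ T, (((RR X z H k V).filter fun S => ky z H S = k' ∧
        (CondJ U R S ∧ NdV w V (sm z S ∪ U) (la z S))).card : ℝ) :=
    (congrArg _ (fcc fun _ _ => Iff.rfl)).trans ((hfib fun S => CondJ U R S ∧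
      NdV w V (sm z S ∪ U) (la z S)).trans
      (Finset.sum_congr rfl fun k' _ => congrArg _ (fcc fun _ _ => Iff.rfl)))
  rw [q1, q2, Finset.mul_sum, ← Finset.sum_sub_distrib, hall, Finset.mul_sum]
  refine (Finset.abs_sum_le_sum_abs _ _).trans ?_
  have h3 : ∑ k' ∈ T, |(((RR X z H k V).filter fun S => ky z H S = k' ∧
      ((CondJ U R S ∧ NdV w V (sm z S ∪ U) (la z S)) ∧ GW w (S ∪ U))).card : ℝ) -
      c9 ^ kk * (((RR X z H k V).filter fun S =>
      ky z H S = k' ∧ (CondJ U R S ∧ NdV w V (sm z S ∪ U) (la z S))).card : ℝ)| ≤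
      ∑ k' ∈ T, (ε * (((RR X z H k V).filter fun S =>
      ky z H S = k' ∧ True).card : ℝ) +
      (3 ^ (9 * k ^ 2) * κ) * (X * (1 / ((∏ p ∈ k'.1, nrm p : ℕ) : ℝ)))) := by
    refine Finset.sum_le_sum fun k' hk => ?_
    obtain ⟨S₀, J⟩ := k'
    exact per_keyJ hB hε hUp hb1 hH hz hκ h1 hUz hUk hk
  refine h3.trans ?_
  rw [Finset.sum_add_distrib]
  refine add_le_add (le_refl _) ?_
  exact keg_err hX hH hz hκ hN fun k' hk => hk

end Pool.Agent.H451.JL
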