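import Pool.Agent.H451.JL.Stm2
import Pool.Graph.R_seed8.Y550.XK.NS

/-!
# Project JL (helper451), part LOW: a lower bound for the number of the sets considered
-/

set_option autoImplicit false

open scoped Classical

namespace Pool.Agent.H451.JL

open Finset
open Pool.Agent.Y692.QS (Ei w nr toC)
open Pool.Agent.Y715.T.Rec (cs)
open Pool.Agent.Y715.T.RecG (Pq)
open Pool.Agent.Y699.E (ez nrm QB mem_QB nrm_mul nrm_eq' nrm_one_iff nrm_natCast nrm_pos' pq_ne)
open Pool.Agent.Y703.XK (Nd SS RR HB prs ext c9 sm la bl S_BIL S_EQ S_C9 Cl)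

namespace LOWL

theorem nrm_neg (a : Ei) : nrm (-a) = nrm a := by
  have h1 := nrm_eq' (-a)
  have h2 := nrm_eq' a
  have h3 : (-a).re = -a.re := rfl
  have h4 : (-a).im = -a.im := rfl
  rw [h3, h4] at h1
  have : (nrm (-a) : ℤ) = nrm a := by rw [h1, h2]; ring
  exact_mod_cast this

theorem nrm_ne_two_mod (a : Ei) : nrm a % 3 ≠ 2 := by
  intro h
  have h1 := nrm_eq' a
  have h2 : (nrm a : ℤ) % 3 = 2 := by omega
  rw [h1] at h2
  have h3 : (a.re ^ 2 - a.re * a.im + a.im ^ 2) = (a.re + a.im) ^ 2 - 3 * (a.re * a.im) := by ring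
  rw [h3] at h2
  have h4 : (a.re + a.im) ^ 2 % 3 = 2 := by omega
  have h5 : (a.re + a.im) % 3 = 0 ∨ (a.re + a.im) % 3 = 1 ∨ (a.re + a.im) % 3 = 2 := by omega
  rw [pow_two, Int.mul_emod] at h4
  rcases h5 with h5 | h5 | h5 <;> rw [h5] at h4 <;> norm_num at h4

theorem pq_of_two {p : ℕ} (hp : p.Prime) (h : p % 9 = 2) : Pq (-(p : Ei)) := by
  have hn : nrm (-(p : Ei)) = p ^ 2 := by rw [nrm_neg, nrm_natCast]
  constructor
  · refine Irreducible.prime ?_
    constructor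
    · intro hu
      rw [← nrm_one_iff, hn] at hu
      have := hp.one_lt
      nlinarith
    · intro a b hab
      by_contra hcon
      push Not at hcon
      have h1 : nrm a * nrm b = p ^ 2 := by rw [← nrm_mul, ← hab, hn]
      have ha : nrm a ≠ 1 := fun h => hcon.1 (nrm_one_iff.1 h)
      have hb : nrm b ≠ 1 := fun h => hcon.2 (nrm_one_iff.1 h)
      have h2 : nrm a ∣ p ^ 2 := ⟨_, h1.symm⟩
      obtain ⟨i, hi, hi2⟩ := (Nat.dvd_prime_pow hp).1 h2
      have h3 : i = 1 := by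
        interval_cases i
        · exact absurd (by simpa using hi2) ha
        · rfl
        · rw [hi2] at h1
          have : 0 < p ^ 2 := by positivity [hp.pos]
          exact absurd (Nat.eq_of_mul_eq_mul_left this (by rw [h1, mul_one])) hb
      rw [h3, pow_one] at hi2
      have := nrm_ne_two_mod a
      rw [hi2] at this
      omega
  · have h1 : ((3 : ℤ) : Ei) ∣ ((-(p : ℤ) - 1 : ℤ) : Ei) := by
      rw [Pool.Agent.Y692.QS.int_dvd_int]
      omega
    push_cast at h1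
    exact h1

theorem nrm_mod {π : Ei} (h : Pq π) : nrm π % 3 = 1 := by
  obtain ⟨c, hc⟩ := h.three
  have h1 : π = 1 + 3 * c := by rw [← hc]; ring
  have h2 := nrm_eq' π
  have a1 : (3 : Ei).re = 3 := rfl
  have a2 : (3 : Ei).im = 0 := rfl
  have a3 : (1 : Ei).re = 1 := rfl
  have a4 : (1 : Ei).im = 0 := rfl
  have h3 : π.re = 1 + 3 * c.re := by
    rw [h1, QuadraticAlgebra.re_add, Pool.Agent.Y692.QS.mul_re, a1, a2, a3]
    ring
  have h4 : π.im = 3 * c.im := by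
    rw [h1, QuadraticAlgebra.im_add, Pool.Agent.Y692.QS.mul_im, a1, a2, a4]
    ring
  rw [h3, h4] at h2
  have h5 : (nrm π : ℤ) = 1 + 3 * (2 * c.re + 3 * c.re ^ 2 - c.im - 3 * c.re * c.im + 3 * c.im ^ 2) := by
    rw [h2]; ring
  omega

theorem prod_mod {S : Finset Ei} (h : ∀ π ∈ S, Pq π) : (∏ π ∈ S, nrm π) % 3 = 1 := by
  induction S using Finset.induction_on with
  | empty => simp
  | insert a S ha ih =>
    rw [Finset.prod_insert ha, Nat.mul_mod, nrm_mod (h a (mem_insert_self _ _)),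
      ih fun π hπ => h π (mem_insert_of_mem hπ)]

theorem SS_mono {X Y : ℕ} (h : X ≤ Y) : SS X ⊆ SS Y := by
  intro S hS
  unfold SS at hS ⊢
  rw [mem_filter, mem_powerset] at hS ⊢
  refine ⟨fun π hπ => ?_, hS.2.1, hS.2.2.trans h⟩
  have := mem_QB.1 (hS.1 hπ)
  exact mem_QB.2 ⟨this.1.trans h, this.2⟩

theorem mem_SS {X : ℕ} {S : Finset Ei} : S ∈ SS X ↔ Cl S ∧ ∏ π ∈ S, nrm π ≤ X := by
  unfold SS
  rw [mem_filter, mem_powerset]
  constructor
  · exact fun h => h.2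
  · intro h
    refine ⟨fun π hπ => ?_, h⟩
    refine mem_QB.2 ⟨?_, h.1.1 π hπ⟩
    refine le_trans ?_ h.2
    exact Nat.le_of_dvd (prod_pos fun ρ hρ => nrm_pos' (pq_ne (h.1.1 ρ hρ)))
      (dvd_prod_of_mem _ hπ)

/-- a prime of norm `4` modulo `9` and large norm -/
theorem exists_q (N : ℕ) : ∃ q : Ei, Pq q ∧ nrm q % 9 = 4 ∧ N < nrm q := by
  have h : IsUnit ((2 : ℕ) : ZMod 9) := by
    rw [ZMod.isUnit_iff_coprime]
    decide
  have hinf := Nat.infinite_setOfPred_prime_and_eq_mod (q := 9) (a := ((2 : ℕ) : ZMod 9)) h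
  obtain ⟨p, hp, hN⟩ := hinf.exists_gt N
  have hp1 : p.Prime := hp.1
  have hp2 : (p : ZMod 9) = ((2 : ℕ) : ZMod 9) := hp.2
  rw [ZMod.natCast_eq_natCast_iff] at hp2
  have hp3 : p % 9 = 2 := hp2
  refine ⟨-(p : Ei), pq_of_two hp1 hp3, ?_, ?_⟩
  · rw [nrm_neg, nrm_natCast, pow_two, Nat.mul_mod, hp3]
  · rw [nrm_neg, nrm_natCast]
    have := hp1.one_lt
    nlinarith

end LOWL

open LOWL in
theorem t_LOWJ : S_LOWJ := by
  intro U R hU hR
  obtain ⟨c, X₀, hc, hlow⟩ := Pool.Agent.Y550.XK.NS.t_LOW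
  obtain ⟨r, hr, hrR⟩ : ∃ r, (r = 4 ∨ r = 7) ∧ r ∈ R := by
    rcases hR with h | h
    · exact ⟨4, Or.inl rfl, h⟩
    · exact ⟨7, Or.inr rfl, h⟩
  obtain ⟨q₁, hq₁, hm₁, hN₁⟩ := exists_q (U.sup nrm)
  obtain ⟨q₂, hq₂, hm₂, hN₂⟩ := exists_q (nrm q₁ + U.sup nrm)
  have h1U : q₁ ∉ U := fun h => absurd (Finset.le_sup (f := nrm) h) (by omega)
  have h2U : q₂ ∉ U := fun h => absurd (Finset.le_sup (f := nrm) h) (by omega)
  have h12 : q₁ ≠ q₂ := by
    rintro rfl
    omega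
  set m : ℕ := nrm q₁ * nrm q₂ with hm
  have hm0 : 0 < m := Nat.mul_pos (nrm_pos' (pq_ne hq₁)) (nrm_pos' (pq_ne hq₂))
  set W : Finset Ei := U ∪ {q₁, q₂} with hW
  -- the choice of the set `T`
  have hT : ∀ S : Finset Ei, (∀ π ∈ S, Pq π) → ∃ T : Finset Ei, T ⊆ {q₁, q₂} ∧
      (∏ π ∈ S \ W, nrm π) * (∏ π ∈ T, nrm π) % 9 = r ∧ ∏ π ∈ T, nrm π ≤ m := by
    intro S hS
    have h3 := prod_mod (S := S \ W) fun π hπ => hS π (mem_sdiff.1 hπ).1
    have h4 : (∏ π ∈ S \ W, nrm π) % 9 = 1 ∨ (∏ π ∈ S \ W, nrm π) % 9 = 4 ∨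
        (∏ π ∈ S \ W, nrm π) % 9 = 7 := by omega
    have e0 : (∏ π ∈ (∅ : Finset Ei), nrm π) = 1 := prod_empty
    have e1 : (∏ π ∈ ({q₁} : Finset Ei), nrm π) = nrm q₁ := prod_singleton _ _
    have e2 : (∏ π ∈ ({q₁, q₂} : Finset Ei), nrm π) = m := prod_pair h12
    have hmm : m % 9 = 7 := by rw [hm, Nat.mul_mod, hm₁, hm₂]
    have l0 : 1 ≤ m := hm0
    have l1 : nrm q₁ ≤ m := Nat.le_mul_of_pos_right _ (nrm_pos' (pq_ne hq₂))
    have s1 : ({q₁} : Finset Ei) ⊆ {q₁, q₂} := by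
      intro x hx
      rw [mem_singleton] at hx
      rw [hx]
      exact mem_insert_self _ _
    rcases hr with hr | hr <;> rcases h4 with h4 | h4 | h4
    · exact ⟨{q₁}, s1, by rw [e1, Nat.mul_mod, h4, hm₁, hr], by rw [e1]; exact l1⟩
    · exact ⟨∅, empty_subset _, by rw [e0, mul_one, h4, hr], by rw [e0]; exact l0⟩
    · exact ⟨{q₁, q₂}, subset_rfl, by rw [e2, Nat.mul_mod, h4, hmm, hr], by rw [e2]⟩
    · exact ⟨{q₁, q₂}, subset_rfl, by rw [e2, Nat.mul_mod, h4, hmm, hr], by rw [e2]⟩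
    · exact ⟨{q₁}, s1, by rw [e1, Nat.mul_mod, h4, hm₁, hr], by rw [e1]; exact l1⟩
    · exact ⟨∅, empty_subset _, by rw [e0, mul_one, h4, hr], by rw [e0]; exact l0⟩
  have hT' : ∀ S : Finset Ei, ∃ T : Finset Ei, (∀ π ∈ S, Pq π) → T ⊆ {q₁, q₂} ∧
      (∏ π ∈ S \ W, nrm π) * (∏ π ∈ T, nrm π) % 9 = r ∧ ∏ π ∈ T, nrm π ≤ m := by
    intro S
    by_cases h : ∀ π ∈ S, Pq π
    · obtain ⟨T, h1⟩ := hT S h
      exact ⟨T, fun _ => h1⟩
    · exact ⟨∅, fun h' => absurd h' h⟩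
  choose T hT2 using hT'
  have hTW : ∀ S, (∀ π ∈ S, Pq π) → Disjoint (S \ W) (T S) := by
    intro S hS
    rw [Finset.disjoint_left]
    intro π h1 h2
    exact (mem_sdiff.1 h1).2 (mem_union_right _ ((hT2 S hS).1 h2))
  -- the count
  have key : ∀ X : ℕ, (SS X).card ≤
      ((SS (X * m)).filter (CondJ U R)).card * 2 ^ W.card := by
    intro X
    rw [← card_powerset, ← card_product]
    refine Finset.card_le_card_of_injOn (fun S => ((S \ W) ∪ T S, S ∩ W)) ?_ ?_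
    · intro S hS
      rw [mem_coe, mem_SS] at hS
      obtain ⟨⟨h1, h2⟩, h3⟩ := hS
      obtain ⟨t1, t2, t3⟩ := hT2 S h1
      have hprod : ∏ π ∈ (S \ W) ∪ T S, nrm π = (∏ π ∈ S \ W, nrm π) * ∏ π ∈ T S, nrm π :=
        prod_union (hTW S h1)
      rw [mem_coe, mem_product, mem_filter, mem_SS, mem_powerset]
      refine ⟨⟨⟨⟨?_, ?_⟩, ?_⟩, ?_, ?_⟩, inter_subset_right⟩
      · intro π hπ
        rcases mem_union.1 hπ with h | h
        · exact h1 π (mem_sdiff.1 h).1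
        · have h5 := t1 h
          rw [mem_insert, mem_singleton] at h5
          rcases h5 with rfl | rfl
          · exact hq₁
          · exact hq₂
      · show (∏ π ∈ (S \ W) ∪ T S, nrm π) % 9 ≠ 1
        rw [hprod, t2]
        rcases hr with hr | hr <;> rw [hr] <;> norm_num
      · show (∏ π ∈ (S \ W) ∪ T S, nrm π) ≤ X * m
        rw [hprod]
        refine Nat.mul_le_mul (le_trans ?_ h3) t3
        refine Nat.le_of_dvd (prod_pos fun ρ hρ => nrm_pos' (pq_ne (h1 ρ hρ))) ?_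
        exact prod_dvd_prod_of_subset _ _ _ sdiff_subset
      · show Disjoint ((S \ W) ∪ T S) U
        rw [Finset.disjoint_left]
        intro π hπ hπU
        rcases mem_union.1 hπ with h | h
        · exact (mem_sdiff.1 h).2 (mem_union_left _ hπU)
        · have h5 := t1 h
          rw [mem_insert, mem_singleton] at h5
          rcases h5 with rfl | rfl
          · exact h1U hπU
          · exact h2U hπU
      · show (∏ π ∈ (S \ W) ∪ T S, nrm π) % 9 ∈ R
        rw [hprod, t2]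
        exact hrR
    · intro S hS S' hS' he
      rw [mem_coe, mem_SS] at hS hS'
      have e1 : (S \ W) ∪ T S = (S' \ W) ∪ T S' := congrArg Prod.fst he
      have e2 : S ∩ W = S' ∩ W := congrArg Prod.snd he
      have e3 : ∀ S : Finset Ei, (∀ π ∈ S, Pq π) → ((S \ W) ∪ T S) \ W = S \ W := by
        intro S hS
        ext π
        rw [mem_sdiff, mem_union]
        constructor
        · rintro ⟨h | h, h'⟩
          · exact h
          · exact absurd (mem_union_right _ ((hT2 S hS).1 h)) h'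
        · intro h
          exact ⟨Or.inl h, (mem_sdiff.1 h).2⟩
      have e4 : S \ W = S' \ W := by
        rw [← e3 S hS.1.1, ← e3 S' hS'.1.1, e1]
      rw [← sdiff_union_inter S W, ← sdiff_union_inter S' W, e4, e2]
  refine ⟨c / (2 * m * 2 ^ W.card), m * (X₀ + 2), by positivity, fun Y hY => ?_⟩
  have hd : Y = m * (Y / m) + Y % m := (Nat.div_add_mod Y m).symm
  have hmod := Nat.mod_lt Y hm0
  have hX : X₀ + 2 ≤ Y / m := (Nat.le_div_iff_mul_le hm0).2 (by rw [mul_comm]; exact hY)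
  have h1 := hlow (Y / m) (by omega)
  have h2 := key (Y / m)
  have h3 : ((SS (Y / m * m)).filter (CondJ U R)).card ≤ ((SS Y).filter (CondJ U R)).card :=
    card_le_card (filter_subset_filter _ (SS_mono (Nat.div_mul_le_self Y m)))
  have h4 : ((SS (Y / m)).card : ℝ) ≤ (((SS Y).filter (CondJ U R)).card : ℝ) * 2 ^ W.card := by
    have := h2.trans (Nat.mul_le_mul_right (2 ^ W.card) h3)
    exact_mod_cast this
  have h5 : (Y : ℝ) ≤ 2 * m * ((Y / m : ℕ) : ℝ) := by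
    have h6 : Y ≤ 2 * m * (Y / m) := by
      have : m ≤ m * (Y / m) := Nat.le_mul_of_pos_right _ (by omega)
      nlinarith
    exact_mod_cast h6
  have hmr : (0 : ℝ) < m := by exact_mod_cast hm0
  rw [div_mul_eq_mul_div, div_le_iff₀ (by positivity)]
  calc c * (Y : ℝ) ≤ c * (2 * m * ((Y / m : ℕ) : ℝ)) := by gcongr
    _ = 2 * m * (c * ((Y / m : ℕ) : ℝ)) := by ring
    _ ≤ 2 * m * ((((SS Y).filter (CondJ U R)).card : ℝ) * 2 ^ W.card) := by
        exact mul_le_mul_of_nonneg_left (h1.trans h4) (by positivity)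
    _ = _ := by ring

end Pool.Agent.H451.JL
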