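import Pool.Agent.H451.JL.Stm

set_option autoImplicit false
set_option linter.unusedVariables false

open scoped Classical

/-!
# Project JL, part M: the number of the compatible tuples
-/

namespace Pool.Agent.H451.JL

open Finset

namespace PartM

variable {V : Type} [AddCommGroup V] [Module F V] {k : ℕ} (s : Sys V k) {D : ℕ}
  (c : Fin D → Fin k)

/-- the pairs of different colours -/
abbrev Pr (c : Fin D → Fin k) : Type :=
  {e : Fin D × Fin D // e.1 < e.2 ∧ c e.1 ≠ c e.2}

theorem card_Pr : Fintype.card (Pr c) = Pc c := by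
  rw [Pc, Fintype.card_subtype]

/-- the pairing -/
def Psi (x x' : Fin D) (t t' : s.Tu c) : F :=
  s.b (c x) (t x) (s.y (c x') (t' x')) - s.b (c x') (t' x') (s.y (c x) (t x))

theorem Psi_add_left (x x' : Fin D) (t u t' : s.Tu c) :
    Psi s c x x' (t + u) t' = Psi s c x x' t t' + Psi s c x x' u t' := by
  simp only [Psi, Pi.add_apply, map_add, LinearMap.add_apply]
  ring

theorem Psi_add_right (x x' : Fin D) (t t' u : s.Tu c) :
    Psi s c x x' t (t' + u) = Psi s c x x' t t' + Psi s c x x' t u := by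
  simp only [Psi, Pi.add_apply, map_add, LinearMap.add_apply]
  ring

theorem Psi_zero_left (x x' : Fin D) (t t' : s.Tu c) (h : t x = 0) : Psi s c x x' t t' = 0 := by
  simp [Psi, h]

theorem Psi_zero_right (x x' : Fin D) (t t' : s.Tu c) (h : t' x' = 0) :
    Psi s c x x' t t' = 0 := by
  simp [Psi, h]

/-- the exponent -/
noncomputable def Bet (m : Pr c → F) (t t' : s.Tu c) : F :=
  ∑ e : Pr c, m e * Psi s c e.1.1 e.1.2 t t'

theorem Bet_add_left (m : Pr c → F) (t u t' : s.Tu c) :
    Bet s c m (t + u) t' = Bet s c m t t' + Bet s c m u t' := by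
  simp only [Bet, Psi_add_left, mul_add, sum_add_distrib]

theorem Bet_add_right (m : Pr c → F) (t t' u : s.Tu c) :
    Bet s c m t (t' + u) = Bet s c m t t' + Bet s c m t u := by
  simp only [Bet, Psi_add_right, mul_add, sum_add_distrib]

/-- one coordinate -/
noncomputable def sg (a : Fin D) (q : s.L (c a)) : s.Tu c := Pi.single a q

theorem sg_add (a : Fin D) (q q' : s.L (c a)) : sg s c a (q + q') = sg s c a q + sg s c a q' :=
  Pi.single_add (f := fun a => s.L (c a)) a q q'

theorem sg_self (a : Fin D) (q : s.L (c a)) : sg s c a q a = q :=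
  Pi.single_eq_same (M := fun a => s.L (c a)) a q

theorem sg_ne {a x : Fin D} (h : x ≠ a) (q : s.L (c a)) : sg s c a q x = 0 :=
  Pi.single_eq_of_ne (M := fun a => s.L (c a)) h q

theorem Bet_sg_sg (m : Pr c → F) (a : Fin D) (q q' : s.L (c a)) :
    Bet s c m (sg s c a q) (sg s c a q') = 0 := by
  unfold Bet
  apply sum_eq_zero
  intro e _
  have h : e.1.1 ≠ a ∨ e.1.2 ≠ a := by
    by_contra h
    push Not at h
    exact absurd e.2.1 (by rw [h.1, h.2]; exact lt_irrefl _)
  rcases h with h | h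
  · rw [Psi_zero_left s c _ _ _ _ (sg_ne s c h q), mul_zero]
  · rw [Psi_zero_right s c _ _ _ _ (sg_ne s c h q'), mul_zero]

/-- the linear form -/
noncomputable def ell (m : Pr c → F) (a' : Fin D) (t : s.Tu c) (q : s.L (c a')) : F :=
  Bet s c m t (sg s c a' q) + Bet s c m (sg s c a' q) t

theorem ell_add (m : Pr c → F) (a' : Fin D) (t : s.Tu c) (q q' : s.L (c a')) :
    ell s c m a' t (q + q') = ell s c m a' t q + ell s c m a' t q' := by
  simp only [ell, sg_add, Bet_add_left, Bet_add_right]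
  ring

theorem Bet_shift (m : Pr c → F) (a' : Fin D) (t : s.Tu c) (q : s.L (c a')) :
    Bet s c m (t + sg s c a' q) (t + sg s c a' q) = Bet s c m t t + ell s c m a' t q := by
  rw [Bet_add_left, Bet_add_right, Bet_add_right, Bet_sg_sg, ell]
  ring

theorem ell_shift (m : Pr c → F) (e : Pr c) (t : s.Tu c) (p : s.L (c e.1.1))
    (q : s.L (c e.1.2)) :
    ell s c m e.1.2 (t + sg s c e.1.1 p) q = ell s c m e.1.2 t q +
      m e * (s.b (c e.1.1) p (s.y (c e.1.2) q) - s.b (c e.1.2) q (s.y (c e.1.1) p)) := by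
  have h1 : Bet s c m (sg s c e.1.1 p) (sg s c e.1.2 q) =
      m e * (s.b (c e.1.1) p (s.y (c e.1.2) q) - s.b (c e.1.2) q (s.y (c e.1.1) p)) := by
    unfold Bet
    rw [Finset.sum_eq_single e]
    · simp only [Psi, sg_self]
    · intro e' _ hne
      have h : e'.1.1 ≠ e.1.1 ∨ e'.1.2 ≠ e.1.2 := by
        by_contra h
        push Not at h
        exact hne (Subtype.ext (Prod.ext h.1 h.2))
      rcases h with h | h
      · rw [Psi_zero_left s c _ _ _ _ (sg_ne s c h p), mul_zero]
      · rw [Psi_zero_right s c _ _ _ _ (sg_ne s c h q), mul_zero]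
    · intro h; exact absurd (mem_univ _) h
  have h2 : Bet s c m (sg s c e.1.2 q) (sg s c e.1.1 p) = 0 := by
    unfold Bet
    apply sum_eq_zero
    intro e' _
    have h : e'.1.1 ≠ e.1.2 ∨ e'.1.2 ≠ e.1.1 := by
      by_contra h
      push Not at h
      have h3 := e'.2.1
      rw [h.1, h.2] at h3
      exact absurd h3 (not_lt.2 e.2.1.le)
    rcases h with h | h
    · rw [Psi_zero_left s c _ _ _ _ (sg_ne s c h q), mul_zero]
    · rw [Psi_zero_right s c _ _ _ _ (sg_ne s c h p), mul_zero]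
  rw [ell, Bet_add_left, Bet_add_right, h1, h2, ell]
  ring

/-- the character -/
noncomputable def ps : AddChar F ℂ := ZMod.stdAddChar

theorem ps_norm (x : F) : ‖ps x‖ = 1 := AddChar.norm_apply _ x

theorem ps_inj {x : F} (h : ps x = 1) : x = 0 := by
  have h1 : ps x = ps 0 := by rw [h, AddChar.map_zero_eq_one]
  exact ZMod.injective_stdAddChar h1

theorem ps_sum (b : F) : ∑ x : F, ps (x * b) = if b = 0 then 3 else 0 := by
  have h := AddChar.sum_mulShift b (ZMod.isPrimitive_stdAddChar 3)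
  have h2 : ∑ x : F, ps (x * b) = ∑ x : ZMod 3, ZMod.stdAddChar (x * b) := rfl
  rw [h2, h]
  simp [ZMod.card]

theorem ps_map_sum {ι : Type} (S : Finset ι) (f : ι → F) :
    ps (∑ i ∈ S, f i) = ∏ i ∈ S, ps (f i) := by
  induction S using Finset.induction_on with
  | empty => simp
  | insert a S ha ih => rw [Finset.sum_insert ha, Finset.prod_insert ha, AddChar.map_add_eq_mul, ih]

/-- character sums over a finite group -/
theorem sum_le {G : Type} [AddCommGroup G] [Fintype G] (l : G → F)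
    (hl : ∀ x y, l (x + y) = l x + l y) :
    ‖∑ q : G, ps (l q)‖ ≤ if ∀ q, l q = 0 then (Fintype.card G : ℝ) else 0 := by
  split_ifs with h
  · calc ‖∑ q : G, ps (l q)‖ ≤ ∑ q : G, ‖ps (l q)‖ := norm_sum_le _ _
      _ = Fintype.card G := by simp only [ps_norm, sum_const, card_univ, nsmul_eq_mul, mul_one]
  · push Not at h
    obtain ⟨q0, hq0⟩ := h
    have h1 : ps (l q0) ≠ 1 := fun h2 => hq0 (ps_inj h2)
    have h2 : ps (l q0) * ∑ q : G, ps (l q) = ∑ q : G, ps (l q) := by
      rw [mul_sum, ← Equiv.sum_comp (Equiv.addLeft q0) (fun q => ps (l q))]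
      apply sum_congr rfl
      intro q _
      rw [Equiv.coe_addLeft, hl, AddChar.map_add_eq_mul]
    have h3 : (ps (l q0) - 1) * ∑ q : G, ps (l q) = 0 := by rw [sub_mul, h2, one_mul, sub_self]
    rcases mul_eq_zero.1 h3 with h4 | h4
    · exact absurd (sub_eq_zero.1 h4) h1
    · rw [h4, norm_zero]

/-- the symmetry within one colour -/
theorem sym_cast (hs : ∀ j p q, s.b j p (s.y j q) = s.b j q (s.y j p)) (i j : Fin k) (h : i = j)
    (p : s.L i) (q : s.L j) : s.b i p (s.y j q) = s.b j q (s.y i p) := by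
  subst h
  exact hs i p q

theorem Sym_iff (hs : ∀ j p q, s.b j p (s.y j q) = s.b j q (s.y j p)) (t : s.Tu c) :
    s.Sym c t ↔ ∀ e : Pr c, Psi s c e.1.1 e.1.2 t t = 0 := by
  constructor
  · intro h e
    rw [Psi, sub_eq_zero]
    exact h e.1.1 e.1.2
  · intro h a a'
    show s.b (c a) (t a) (s.y (c a') (t a')) = s.b (c a') (t a') (s.y (c a) (t a))
    by_cases hc : c a = c a'
    · exact sym_cast s hs _ _ hc _ _
    · rcases lt_trichotomy a a' with h1 | h1 | h1
      · have := h ⟨(a, a'), h1, hc⟩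
        exact sub_eq_zero.1 this
      · exact absurd (by rw [h1]) hc
      · have := h ⟨(a', a), h1, fun h2 => hc h2.symm⟩
        exact (sub_eq_zero.1 this).symm

theorem expand (hs : ∀ j p q, s.b j p (s.y j q) = s.b j q (s.y j p)) (t : s.Tu c) :
    ∑ m : Pr c → F, ps (Bet s c m t t) = if s.Sym c t then (3 : ℂ) ^ Pc c else 0 := by
  have h1 : ∀ m : Pr c → F, ps (Bet s c m t t) =
      ∏ e : Pr c, ps (m e * Psi s c e.1.1 e.1.2 t t) := by
    intro m
    unfold Bet
    exact ps_map_sum _ _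
  simp only [h1]
  have h2 := (Finset.prod_univ_sum (fun _ : Pr c => (univ : Finset F))
    (fun e x => ps (x * Psi s c e.1.1 e.1.2 t t))).symm
  rw [Fintype.piFinset_univ] at h2
  rw [h2]
  simp only [ps_sum]
  rw [Sym_iff s c hs t]
  split_ifs with h
  · rw [Finset.prod_congr rfl (fun e _ => if_pos (h e))]
    rw [prod_const, card_univ, card_Pr]
  · push Not at h
    obtain ⟨e, he⟩ := h
    exact Finset.prod_eq_zero (mem_univ e) (if_neg he)

variable [Finite V]

theorem card_L {N : ℕ} (hs : s.OK N) (j : Fin k) : Fintype.card (s.L j) = Nat.card V := by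
  rw [← Nat.card_eq_fintype_card, hs.card j]

theorem card_Tu {N : ℕ} (hs : s.OK N) : Fintype.card (s.Tu c) = Nat.card V ^ D := by
  rw [Fintype.card_pi, Finset.prod_congr rfl (fun a _ => card_L s hs (c a))]
  simp

/-- the bound for the number of the tuples whose linear form vanishes -/
theorem count_le {N : ℕ} (hs : s.OK N) (m : Pr c → F) (e : Pr c) (he : m e ≠ 0) :
    (((univ : Finset (s.Tu c)).filter fun t => ∀ q, ell s c m e.1.2 t q = 0).card : ℝ) ≤
      (Nat.card V : ℝ) ^ D / 3 ^ N := by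
  set K : Type := {p : s.L (c e.1.1) // ∀ q : s.L (c e.1.2),
    s.b (c e.1.1) p (s.y (c e.1.2) q) = s.b (c e.1.2) q (s.y (c e.1.1) p)} with hK
  have hKc : Nat.card K * 3 ^ N ≤ Nat.card V := hs.cross _ _ e.2.2
  set Z : Finset (s.Tu c) := univ.filter fun t => ∀ q, ell s c m e.1.2 t q = 0 with hZ
  -- for every `t` few translates
  have hfib : ∀ t : s.Tu c, ((univ : Finset (s.L (c e.1.1))).filter fun p =>
      t + sg s c e.1.1 p ∈ Z).card ≤ Nat.card K := by
    intro t
    by_cases hne : ((univ : Finset (s.L (c e.1.1))).filter fun p =>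
      t + sg s c e.1.1 p ∈ Z).Nonempty
    · obtain ⟨p0, hp0⟩ := hne
      rw [mem_filter] at hp0
      have hp0' := (mem_filter.1 hp0.2).2
      rw [← Nat.card_eq_finsetCard]
      refine Nat.card_le_card_of_injective (fun x => (⟨x.1 - p0, ?_⟩ : K)) ?_
      · intro q
        have hx := (mem_filter.1 (mem_filter.1 x.2).2).2
        have h1 := hx q
        have h2 := hp0' q
        rw [ell_shift] at h1 h2
        have h3 : m e * (s.b (c e.1.1) (x.1 - p0) (s.y (c e.1.2) q) -
            s.b (c e.1.2) q (s.y (c e.1.1) (x.1 - p0))) = 0 := by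
          rw [map_sub, map_sub, LinearMap.sub_apply, map_sub]
          linear_combination h1 - h2
        rcases mul_eq_zero.1 h3 with h4 | h4
        · exact absurd h4 he
        · exact sub_eq_zero.1 h4
      · intro x x' hxx
        have := congrArg Subtype.val hxx
        exact Subtype.ext (sub_left_injective this)
    · rw [not_nonempty_iff_eq_empty] at hne
      rw [hne]
      simp
  have hdouble : Fintype.card (s.L (c e.1.1)) * Z.card ≤ Fintype.card (s.Tu c) * Nat.card K := by
    set ind : s.Tu c → ℕ := fun t => if t ∈ Z then 1 else 0 with hind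
    calc Fintype.card (s.L (c e.1.1)) * Z.card
        = ∑ p : s.L (c e.1.1), ∑ t : s.Tu c, ind (t + sg s c e.1.1 p) := by
          have : ∀ p : s.L (c e.1.1), ∑ t : s.Tu c, ind (t + sg s c e.1.1 p) = Z.card := by
            intro p
            have h7 := Equiv.sum_comp (Equiv.addRight (sg s c e.1.1 p)) ind
            simp only [Equiv.coe_addRight] at h7
            rw [h7, hind, ← Finset.sum_filter]
            simp
          rw [Finset.sum_congr rfl (fun p _ => this p)]
          simp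
      _ = ∑ t : s.Tu c, ∑ p : s.L (c e.1.1), ind (t + sg s c e.1.1 p) :=
          Finset.sum_comm
      _ ≤ ∑ t : s.Tu c, Nat.card K := by
          apply Finset.sum_le_sum
          intro t _
          have := hfib t
          rw [Finset.card_filter] at this
          exact this
      _ = Fintype.card (s.Tu c) * Nat.card K := by simp
  rw [card_L s hs, card_Tu s c hs] at hdouble
  have hVpos : (0 : ℝ) < Nat.card V := by exact_mod_cast Nat.card_pos
  have h3 : (0 : ℝ) < 3 ^ N := by positivity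
  rw [le_div_iff₀ h3]
  have h4 : (Nat.card V : ℝ) * Z.card ≤ (Nat.card V : ℝ) ^ D * Nat.card K := by
    exact_mod_cast hdouble
  have h5 : (Nat.card K : ℝ) * 3 ^ N ≤ Nat.card V := by exact_mod_cast hKc
  have h6 : (Nat.card V : ℝ) * (Z.card * 3 ^ N) ≤ (Nat.card V : ℝ) * (Nat.card V : ℝ) ^ D := by
    calc (Nat.card V : ℝ) * (Z.card * 3 ^ N) = ((Nat.card V : ℝ) * Z.card) * 3 ^ N := by ring
      _ ≤ ((Nat.card V : ℝ) ^ D * Nat.card K) * 3 ^ N :=
          mul_le_mul_of_nonneg_right h4 h3.le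
      _ = (Nat.card V : ℝ) ^ D * (Nat.card K * 3 ^ N) := by ring
      _ ≤ (Nat.card V : ℝ) ^ D * Nat.card V := mul_le_mul_of_nonneg_left h5 (by positivity)
      _ = (Nat.card V : ℝ) * (Nat.card V : ℝ) ^ D := by ring
  exact le_of_mul_le_mul_left h6 hVpos

/-- the bound for the character sums -/
theorem sum_ps_le {N : ℕ} (hs : s.OK N) (m : Pr c → F) (hm : m ≠ 0) :
    ‖∑ t : s.Tu c, ps (Bet s c m t t)‖ ≤ (Nat.card V : ℝ) ^ D / 3 ^ N := by
  obtain ⟨e, he⟩ : ∃ e, m e ≠ 0 := by
    by_contra h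
    push Not at h
    exact hm (funext h)
  refine le_trans ?_ (count_le s c hs m e he)
  set Z : Finset (s.Tu c) := univ.filter fun t => ∀ q, ell s c m e.1.2 t q = 0 with hZ
  have hL : (0 : ℝ) < Fintype.card (s.L (c e.1.2)) := by exact_mod_cast Fintype.card_pos
  have h1 : (Fintype.card (s.L (c e.1.2)) : ℂ) * ∑ t : s.Tu c, ps (Bet s c m t t) =
      ∑ t : s.Tu c, ps (Bet s c m t t) * ∑ q : s.L (c e.1.2), ps (ell s c m e.1.2 t q) := by
    have h2 : ∀ q : s.L (c e.1.2), ∑ t : s.Tu c, ps (Bet s c m t t) =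
        ∑ t : s.Tu c, ps (Bet s c m t t) * ps (ell s c m e.1.2 t q) := by
      intro q
      rw [← Equiv.sum_comp (Equiv.addRight (sg s c e.1.2 q)) (fun t => ps (Bet s c m t t))]
      apply Finset.sum_congr rfl
      intro t _
      rw [Equiv.coe_addRight, Bet_shift, AddChar.map_add_eq_mul]
    calc (Fintype.card (s.L (c e.1.2)) : ℂ) * ∑ t : s.Tu c, ps (Bet s c m t t)
        = ∑ q : s.L (c e.1.2), ∑ t : s.Tu c, ps (Bet s c m t t) := by simp
      _ = ∑ q : s.L (c e.1.2), ∑ t : s.Tu c, ps (Bet s c m t t) * ps (ell s c m e.1.2 t q) :=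
          Finset.sum_congr rfl fun q _ => h2 q
      _ = ∑ t : s.Tu c, ∑ q : s.L (c e.1.2), ps (Bet s c m t t) * ps (ell s c m e.1.2 t q) :=
          Finset.sum_comm
      _ = _ := Finset.sum_congr rfl fun t _ => (mul_sum _ _ _).symm
  have h3 : (Fintype.card (s.L (c e.1.2)) : ℝ) * ‖∑ t : s.Tu c, ps (Bet s c m t t)‖ ≤
      (Fintype.card (s.L (c e.1.2)) : ℝ) * Z.card := by
    calc (Fintype.card (s.L (c e.1.2)) : ℝ) * ‖∑ t : s.Tu c, ps (Bet s c m t t)‖
        = ‖(Fintype.card (s.L (c e.1.2)) : ℂ) * ∑ t : s.Tu c, ps (Bet s c m t t)‖ := by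
          rw [norm_mul]; simp
      _ = ‖∑ t : s.Tu c, ps (Bet s c m t t) * ∑ q : s.L (c e.1.2), ps (ell s c m e.1.2 t q)‖ := by
          rw [h1]
      _ ≤ ∑ t : s.Tu c, ‖ps (Bet s c m t t) * ∑ q : s.L (c e.1.2), ps (ell s c m e.1.2 t q)‖ :=
          norm_sum_le _ _
      _ ≤ ∑ t : s.Tu c, (if t ∈ Z then (Fintype.card (s.L (c e.1.2)) : ℝ) else 0) := by
          apply Finset.sum_le_sum
          intro t _
          rw [norm_mul, ps_norm, one_mul]
          refine (sum_le (ell s c m e.1.2 t) (ell_add s c m e.1.2 t)).trans (le_of_eq ?_)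
          by_cases h : ∀ q, ell s c m e.1.2 t q = 0
          · rw [if_pos h, if_pos (by rw [hZ, mem_filter]; exact ⟨mem_univ _, h⟩)]
          · rw [if_neg h, if_neg (by rw [hZ, mem_filter]; exact fun h' => h h'.2)]
      _ = (Fintype.card (s.L (c e.1.2)) : ℝ) * Z.card := by
          rw [← Finset.sum_filter, Finset.filter_mem_eq_inter, Finset.univ_inter, sum_const,
            nsmul_eq_mul, mul_comm]
  exact le_of_mul_le_mul_left h3 hL

end PartM

open PartM in
/-- **JL-M** -/
theorem t_M : S_M := by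
  intro V _ _ _ k N s D c hs
  have h3 : (0 : ℝ) < 3 ^ Pc c := by positivity
  set Sy' : Finset (s.Tu c) := univ.filter fun t => s.Sym c t with hSy
  have hmain : (3 : ℂ) ^ Pc c * (Sy'.card : ℂ) - (Nat.card V : ℂ) ^ D =
      ∑ m ∈ (univ : Finset (Pr c → F)).erase 0, ∑ t : s.Tu c, ps (Bet s c m t t) := by
    have h1 : (3 : ℂ) ^ Pc c * (Sy'.card : ℂ) =
        ∑ m : Pr c → F, ∑ t : s.Tu c, ps (Bet s c m t t) := by
      rw [Finset.sum_comm, Finset.sum_congr rfl (fun t _ => expand s c hs.sym t),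
        ← Finset.sum_filter, sum_const, nsmul_eq_mul, mul_comm]
    have h2 : ∑ t : s.Tu c, ps (Bet s c 0 t t) = (Nat.card V : ℂ) ^ D := by
      have : ∀ t : s.Tu c, ps (Bet s c 0 t t) = 1 := by
        intro t
        have h0 : Bet s c 0 t t = 0 := by
          unfold Bet
          exact Finset.sum_eq_zero fun e _ => by simp
        rw [h0, AddChar.map_zero_eq_one]
      rw [Finset.sum_congr rfl (fun t _ => this t), sum_const, card_univ, card_Tu s c hs]
      simp
    rw [h1, ← Finset.add_sum_erase univ _ (mem_univ (0 : Pr c → F)), h2]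
    ring
  have hnorm : |(3 : ℝ) ^ Pc c * (Sy'.card : ℝ) - (Nat.card V : ℝ) ^ D| ≤
      3 ^ Pc c * ((Nat.card V : ℝ) ^ D / 3 ^ N) := by
    have h1 : ((((3 : ℝ) ^ Pc c * (Sy'.card : ℝ) - (Nat.card V : ℝ) ^ D : ℝ)) : ℂ) =
        (3 : ℂ) ^ Pc c * (Sy'.card : ℂ) - (Nat.card V : ℂ) ^ D := by push_cast; ring
    have h2 : |(3 : ℝ) ^ Pc c * (Sy'.card : ℝ) - (Nat.card V : ℝ) ^ D| =
        ‖(3 : ℂ) ^ Pc c * (Sy'.card : ℂ) - (Nat.card V : ℂ) ^ D‖ := by
      rw [← h1, Complex.norm_real, Real.norm_eq_abs]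
    rw [h2, hmain]
    calc ‖∑ m ∈ (univ : Finset (Pr c → F)).erase 0, ∑ t : s.Tu c, ps (Bet s c m t t)‖
        ≤ ∑ m ∈ (univ : Finset (Pr c → F)).erase 0, ‖∑ t : s.Tu c, ps (Bet s c m t t)‖ :=
          norm_sum_le _ _
      _ ≤ ∑ m ∈ (univ : Finset (Pr c → F)).erase 0, (Nat.card V : ℝ) ^ D / 3 ^ N := by
          apply Finset.sum_le_sum
          intro m hm
          exact sum_ps_le s c hs m (Finset.ne_of_mem_erase hm)
      _ = (((univ : Finset (Pr c → F)).erase 0).card : ℝ) * ((Nat.card V : ℝ) ^ D / 3 ^ N) := by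
          rw [sum_const, nsmul_eq_mul]
      _ ≤ 3 ^ Pc c * ((Nat.card V : ℝ) ^ D / 3 ^ N) := by
          apply mul_le_mul_of_nonneg_right _ (by positivity)
          have h4 : ((univ : Finset (Pr c → F)).erase 0).card ≤ 3 ^ Pc c := by
            refine (Finset.card_le_card (Finset.erase_subset _ _)).trans ?_
            rw [card_univ, Fintype.card_fun, card_Pr, ZMod.card]
          exact_mod_cast h4
  have h5 : (Sy'.card : ℝ) - (Nat.card V : ℝ) ^ D / 3 ^ Pc c =
      ((3 : ℝ) ^ Pc c * (Sy'.card : ℝ) - (Nat.card V : ℝ) ^ D) / 3 ^ Pc c := by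
    field_simp
  rw [h5, abs_div, abs_of_pos h3, div_le_iff₀ h3]
  linarith

end Pool.Agent.H451.JL
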