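import Pool.Agent.H451.JL.Stm

/-!
# JL-P: the probability that a random symmetric form has given values at independent vectors
-/

set_option autoImplicit false

open scoped Classical

namespace Pool.Agent.H451.JL

open Finset
open Pool.Agent.Y759.CX (fr fr_comp)
open Pool.Agent.Y85.XK (Sy finHom finHom2 finSy card_symm)

namespace PP

variable {V : Type} [AddCommGroup V] [Module F V] [Finite V] {D : ℕ}

omit [Finite V] in
theorem exists_dual {Y : Fin D → V} (hY : LinearIndependent F Y) :
    ∃ ys : Fin D → V →ₗ[F] F, ∀ a a', ys a (Y a') = if a = a' then 1 else 0 := by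
  have h1 : Function.Injective (Fintype.linearCombination F Y) :=
    linearIndependent_iff_injective_fintypeLinearCombination.1 hY
  obtain ⟨g, hg⟩ := LinearMap.exists_leftInverse_of_injective (Fintype.linearCombination F Y)
    (LinearMap.ker_eq_bot.2 h1)
  refine ⟨fun a => LinearMap.proj a ∘ₗ g, fun a a' => ?_⟩
  have h2 : g (Y a') = Pi.single a' (1 : F) := by
    have h3 := LinearMap.congr_fun hg (Pi.single a' (1 : F))
    rw [LinearMap.comp_apply, LinearMap.id_apply, Fintype.linearCombination_apply_single,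
      one_smul] at h3
    exact h3
  change g (Y a') a = _
  rw [h2, Pi.single_apply]

/-- the compatible families of values -/
def KK (Y : Fin D → V) : AddSubgroup (Fin D → V →ₗ[F] F) where
  carrier := {B | ∀ a a', B a (Y a') = B a' (Y a)}
  zero_mem' := fun _ _ => rfl
  add_mem' := fun {S T} hS hT a a' => by
    change S a (Y a') + T a (Y a') = S a' (Y a) + T a' (Y a)
    rw [hS, hT]
  neg_mem' := fun {S} hS a a' => by
    change - S a (Y a') = - S a' (Y a)
    rw [hS]

/-- the values of a form -/
def TT (Y : Fin D → V) : Sy V →+ KK Y where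
  toFun S := ⟨fun a => S.1 (Y a), fun a a' => S.2 (Y a) (Y a')⟩
  map_zero' := rfl
  map_add' := fun _ _ => rfl

theorem TT_surj {Y : Fin D → V} (hY : LinearIndependent F Y) : Function.Surjective (TT Y) := by
  obtain ⟨ys, hys⟩ := exists_dual hY
  rintro ⟨B, hB⟩
  have hB' : ∀ a a', B a (Y a') = B a' (Y a) := hB
  let S : V →ₗ[F] V →ₗ[F] F := ∑ a, ((ys a).smulRight (B a)) + ∑ a, ((B a).smulRight (ys a)) -
    ∑ a, ∑ a', (B a (Y a')) • ((ys a).smulRight (ys a'))
  have hS : ∀ x x', S x x' = ∑ a, ys a x * B a x' + ∑ a, B a x * ys a x' -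
      ∑ a, ∑ a', B a (Y a') * (ys a x * ys a' x') := by
    intro x x'
    simp only [S, LinearMap.sub_apply, LinearMap.add_apply, LinearMap.sum_apply,
      LinearMap.smulRight_apply, LinearMap.smul_apply, smul_eq_mul]
  refine ⟨⟨S, fun x y => ?_⟩, ?_⟩
  · rw [hS, hS]
    congr 1
    · rw [add_comm]
      congr 1
      · exact Finset.sum_congr rfl fun a _ => mul_comm _ _
      · exact Finset.sum_congr rfl fun a _ => mul_comm _ _
    · rw [Finset.sum_comm]
      refine Finset.sum_congr rfl fun a _ => Finset.sum_congr rfl fun a' _ => ?_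
      rw [hB' a' a, mul_comm (ys a' x)]
  · refine Subtype.ext (funext fun b => LinearMap.ext fun x' => ?_)
    change S (Y b) x' = B b x'
    rw [hS]
    simp only [hys]
    have e1 : ∑ a, (if a = b then (1 : F) else 0) * B a x' = B b x' := by
      simp
    have e2 : ∑ a, ∑ a', B a (Y a') * ((if a = b then (1 : F) else 0) * ys a' x') =
        ∑ a', B b (Y a') * ys a' x' := by
      rw [Finset.sum_eq_single b]
      · simp
      · intro a _ hab
        simp [hab]
      · intro h
        exact absurd (Finset.mem_univ b) h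
    rw [e1, e2]
    have e3 : ∑ a, B a (Y b) * ys a x' = ∑ a', B b (Y a') * ys a' x' :=
      Finset.sum_congr rfl fun a _ => by rw [hB']
    rw [e3]
    ring

/-- the matrix of the values -/
def Th (Y : Fin D → V) : (Fin D → V →ₗ[F] F) →+ Matrix (Fin D) (Fin D) F where
  toFun B := Matrix.of fun a a' => B a (Y a')
  map_zero' := rfl
  map_add' := fun _ _ => rfl

theorem Th_surj {Y : Fin D → V} (hY : LinearIndependent F Y) : Function.Surjective (Th Y) := by
  obtain ⟨ys, hys⟩ := exists_dual hY
  intro M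
  refine ⟨fun a => ∑ a', M a a' • ys a', ?_⟩
  ext a b
  change (∑ a', M a a' • ys a') (Y b) = M a b
  simp only [LinearMap.sum_apply, LinearMap.smul_apply, hys, smul_eq_mul]
  simp

theorem choose_id (D : ℕ) : D * (D + 1) / 2 + D.choose 2 = D * D := by
  have h1 : (D + 1).choose 2 = D.choose 2 + D := by
    rw [Nat.choose_succ_succ' D 1, Nat.choose_one_right, add_comm]
  have h2 : D * (D + 1) / 2 = (D + 1).choose 2 := by
    rw [Nat.choose_two_right, Nat.add_sub_cancel, mul_comm]
  have h3 : ∀ D : ℕ, D + 2 * D.choose 2 = D * D := by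
    intro D
    induction D with
    | zero => rfl
    | succ D ih =>
      have h4 : (D + 1).choose 2 = D.choose 2 + D := by
        rw [Nat.choose_succ_succ' D 1, Nat.choose_one_right, add_comm]
      rw [h4]
      nlinarith
  have := h3 D
  omega

theorem card_dual : Nat.card (V →ₗ[F] F) = Nat.card V := by
  have h1 := Module.natCard_eq_pow_finrank (K := F) (V := V)
  have h2 := Module.natCard_eq_pow_finrank (K := F) (V := V →ₗ[F] F)
  rw [h1, h2]
  congr 1
  exact Subspace.dual_finrank_eq

theorem card_KK {Y : Fin D → V} (hY : LinearIndependent F Y) :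
    (Nat.card (KK Y) : ℝ) * 3 ^ (D.choose 2) = (Nat.card V : ℝ) ^ D := by
  have h1 := fr_comp (Th Y) (Th_surj hY) (fun M => M.IsSymm)
  have e1 : fr (fun B => (Th Y B).IsSymm) = (Nat.card (KK Y) : ℝ) / (Nat.card V : ℝ) ^ D := by
    unfold fr
    congr 1
    · congr 1
      refine Nat.card_congr (Equiv.subtypeEquiv (Equiv.refl _) fun B => ?_)
      rw [Matrix.IsSymm.ext_iff]
      exact ⟨fun h a a' => h a' a, fun h a a' => h a' a⟩
    · rw [Nat.card_fun, card_dual, Nat.card_eq_fintype_card (α := Fin D), Fintype.card_fin]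
      push_cast
      rfl
  have e2 : fr (fun M : Matrix (Fin D) (Fin D) F => M.IsSymm) =
      (3 : ℝ) ^ (D * (D + 1) / 2) / (3 : ℝ) ^ (D * D) := by
    unfold fr
    have e3 : Nat.card (Matrix (Fin D) (Fin D) F) = 3 ^ (D * D) := by
      unfold Matrix
      rw [Nat.card_fun, Nat.card_fun, Nat.card_eq_fintype_card (α := Fin D), Fintype.card_fin,
        Nat.card_eq_fintype_card (α := F), ZMod.card, ← pow_mul]
    rw [card_symm, e3]
    push_cast
    rfl
  rw [e1, e2] at h1
  have hV : (Nat.card V : ℝ) ^ D ≠ 0 := by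
    have : 0 < Nat.card V := Nat.card_pos
    positivity
  have h3 : (3 : ℝ) ^ (D * D) = 3 ^ (D * (D + 1) / 2) * 3 ^ (D.choose 2) := by
    rw [← pow_add, choose_id]
  rw [h3, div_eq_div_iff hV (by positivity)] at h1
  have h4 : (3 : ℝ) ^ (D * (D + 1) / 2) ≠ 0 := by positivity
  have h5 : (3 : ℝ) ^ (D * (D + 1) / 2) * ((Nat.card (KK Y) : ℝ) * 3 ^ (D.choose 2)) =
      (3 : ℝ) ^ (D * (D + 1) / 2) * (Nat.card V : ℝ) ^ D := by
    rw [← h1]
    ring
  exact mul_left_cancel₀ h4 h5

end PP

open PP in
/-- **JL-P** -/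
theorem t_P : S_P := by
  intro V _ _ _ D Y B hY
  by_cases hB : ∀ a a', B a (Y a') = B a' (Y a)
  · rw [if_pos hB]
    have h1 := fr_comp (TT Y) (TT_surj hY) (fun k => k = ⟨B, hB⟩)
    have e1 : fr (fun S : Sy V => TT Y S = ⟨B, hB⟩) = fr (fun S : Sy V => ∀ a, S.1 (Y a) = B a) := by
      congr 1
      funext S
      rw [Subtype.ext_iff, funext_iff]
      rfl
    have e2 : fr (fun k : KK Y => k = ⟨B, hB⟩) = 1 / (Nat.card (KK Y) : ℝ) := by
      unfold fr
      rw [Nat.card_unique]
      norm_num
    rw [e1, e2] at h1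
    have h2 := card_KK hY
    rw [h1, ← h2]
    have h3 : (Nat.card (KK Y) : ℝ) ≠ 0 := by
      have : 0 < Nat.card (KK Y) := Nat.card_pos
      positivity
    field_simp
  · rw [if_neg hB]
    have e1 : fr (fun S : Sy V => ∀ a, S.1 (Y a) = B a) = 0 := by
      unfold fr
      have : IsEmpty {S : Sy V // ∀ a, S.1 (Y a) = B a} := ⟨fun S => hB fun a a' => by
        rw [← S.2 a, ← S.2 a']
        exact S.1.2 _ _⟩
      rw [Nat.card_of_isEmpty]
      simp
    rw [e1, zero_mul]

end Pool.Agent.H451.JL
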