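import Pool.Agent.H451.JL.Stm

/-! # JL-Q and JL-E: the truncated alternating sums and the errors -/

set_option autoImplicit false
set_option linter.unusedVariables false

open scoped Classical

namespace Pool.Agent.H451.JL

open Finset

namespace QL

theorem In_succ (t s : ℕ) : In (t + 1) s = In t s * ((3 : ℝ) ^ s - 3 ^ t) := by
  unfold In
  rw [prod_range_succ]

theorem In_succ_succ (t s : ℕ) : In (t + 1) (s + 1) = ((3 : ℝ) ^ (s + 1) - 1) * 3 ^ t * In t s := by
  unfold In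
  rw [prod_range_succ', pow_zero]
  have h : ∏ k ∈ range t, ((3 : ℝ) ^ (s + 1) - 3 ^ (k + 1)) =
      3 ^ t * ∏ i ∈ range t, ((3 : ℝ) ^ s - 3 ^ i) := by
    have h1 : (3 : ℝ) ^ t = ∏ _i ∈ range t, (3 : ℝ) := by simp
    rw [h1, ← prod_mul_distrib]
    refine prod_congr rfl fun i _ => ?_
    ring
  rw [h]
  ring

theorem In_zero_left (s : ℕ) : In 0 s = 1 := by simp [In]

theorem In_pos (t : ℕ) : 0 < In t t := by
  unfold In
  refine prod_pos fun i hi => ?_
  have : (3 : ℝ) ^ i < 3 ^ t := pow_lt_pow_right₀ (by norm_num) (mem_range.1 hi)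
  linarith

theorem In_nonneg (t s : ℕ) : 0 ≤ In t s := by
  unfold In
  by_cases h : s < t
  · rw [prod_eq_zero (mem_range.2 h) (sub_self _)]
  · refine prod_nonneg fun i hi => ?_
    have : (3 : ℝ) ^ i ≤ 3 ^ s := pow_le_pow_right₀ (by norm_num) (by
      have := mem_range.1 hi
      omega)
    linarith

theorem choose_succ (t : ℕ) : (t + 2).choose 2 = (t + 1).choose 2 + (t + 1) := by
  rw [Nat.choose_succ_succ' (t + 1) 1, Nat.choose_one_right, add_comm]

/-- the Pascal identity -/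
theorem pascal (t s : ℕ) : In (t + 1) (s + 1) / In (t + 1) (t + 1) =
    In t s / In t t + 3 ^ (t + 1) * (In (t + 1) s / In (t + 1) (t + 1)) := by
  have h1 : In (t + 1) (t + 1) = ((3 : ℝ) ^ (t + 1) - 1) * 3 ^ t * In t t := In_succ_succ t t
  have h2 := In_succ_succ t s
  have h3 := In_succ t s
  have hp : In t t ≠ 0 := (In_pos t).ne'
  have hq : ((3 : ℝ) ^ (t + 1) - 1) ≠ 0 := by
    have : (1 : ℝ) < 3 ^ (t + 1) := one_lt_pow₀ (by norm_num) (by omega)
    linarith
  have hr : (3 : ℝ) ^ t ≠ 0 := by positivity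
  rw [h1, h2, h3]
  field_simp
  ring

/-- the truncated sum -/
theorem sum_eq (t s : ℕ) : ∑ d ∈ range (t + 1), mu d * In d (s + 1) =
    (-1) ^ t * 3 ^ ((t + 1).choose 2) * (In t s / In t t) := by
  induction t with
  | zero =>
    simp [mu, In_zero_left]
  | succ t ih =>
    rw [sum_range_succ, ih]
    have h := pascal t s
    have h1 : mu (t + 1) * In (t + 1) (s + 1) =
        (-1) ^ (t + 1) * 3 ^ ((t + 1).choose 2) * (In (t + 1) (s + 1) / In (t + 1) (t + 1)) := by
      unfold mu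
      ring
    rw [h1, h, choose_succ, pow_add (3 : ℝ) ((t + 1).choose 2) (t + 1)]
    ring

theorem abs_mu (t : ℕ) : |mu t| = 3 ^ (t.choose 2) / In t t := by
  unfold mu
  rw [abs_div, abs_mul, abs_pow, abs_neg, abs_one, one_pow, one_mul, abs_of_pos (In_pos t),
    abs_of_pos (by positivity)]

noncomputable def Pm (m : ℕ) : ℝ := ∏ i ∈ range m, (1 - (1 / 3 : ℝ) ^ (i + 1))

theorem In_eq (m : ℕ) : In m m = 3 ^ (m ^ 2) * Pm m := by
  induction m with
  | zero => simp [In, Pm]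
  | succ m ih =>
    rw [In_succ_succ, ih]
    unfold Pm
    rw [prod_range_succ]
    have h : ((3 : ℝ) ^ (m + 1) - 1) = 3 ^ (m + 1) * (1 - (1 / 3 : ℝ) ^ (m + 1)) := by
      rw [mul_sub, mul_one, ← mul_pow]
      norm_num
    rw [h, show (m + 1) ^ 2 = m ^ 2 + m + (m + 1) by ring, pow_add, pow_add]
    ring

theorem Pm_ge (m : ℕ) : (1 + (1 / 3 : ℝ) ^ m) / 2 ≤ Pm m := by
  induction m with
  | zero => simp [Pm]
  | succ m ih =>
    have h1 : Pm (m + 1) = Pm m * (1 - (1 / 3 : ℝ) ^ (m + 1)) := by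
      unfold Pm
      rw [prod_range_succ]
    rw [h1, pow_succ]
    set x : ℝ := (1 / 3 : ℝ) ^ m with hx
    have hx0 : 0 ≤ x := by positivity
    have hx1 : x ≤ 1 := pow_le_one₀ (by norm_num) (by norm_num)
    have h2 : 0 ≤ 1 - x * (1 / 3) := by nlinarith
    have h3 := mul_le_mul_of_nonneg_right ih h2
    nlinarith

end QL

theorem t_Q : S_Q := by
  intro t r
  rcases r with _ | s
  · have h0 : ∀ d, In (d + 1) 0 = 0 := by
      intro d
      unfold In
      exact prod_eq_zero (mem_range.2 (Nat.succ_pos d)) (by simp)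
    rw [if_pos rfl, h0, mul_zero]
    have h1 : ∑ d ∈ range (t + 1), mu d * In d 0 = 1 := by
      rw [sum_range_succ', sum_eq_zero fun d _ => by rw [h0, mul_zero]]
      simp [mu, QL.In_zero_left]
    rw [h1]
    simp
  · rw [if_neg (Nat.succ_ne_zero s), QL.sum_eq, QL.abs_mu, zero_sub, abs_neg, abs_mul, abs_mul,
      abs_pow, abs_neg, abs_one, one_pow, one_mul, abs_of_pos (by positivity),
      abs_of_nonneg (div_nonneg (QL.In_nonneg _ _) (QL.In_nonneg _ _))]
    have h := QL.pascal t s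
    have h1 : 0 ≤ 3 ^ (t + 1) * (In (t + 1) s / In (t + 1) (t + 1)) :=
      mul_nonneg (by positivity) (div_nonneg (QL.In_nonneg _ _) (QL.In_nonneg _ _))
    calc (3 : ℝ) ^ ((t + 1).choose 2) * (In t s / In t t)
        ≤ 3 ^ ((t + 1).choose 2) * (In (t + 1) (s + 1) / In (t + 1) (t + 1)) := by
          refine mul_le_mul_of_nonneg_left ?_ (by positivity)
          rw [h]
          linarith
      _ = 3 ^ ((t + 1).choose 2) / In (t + 1) (t + 1) * In (t + 1) (s + 1) := by ring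

theorem t_E : S_E := by
  intro t
  have he : eT t = 3 ^ (t * (t + 1)) / In (t + 1) (t + 1) := by
    unfold eT
    rw [QL.abs_mu, div_mul_eq_mul_div, ← pow_add]
    congr 2
    have h := Nat.triangle_succ t
    rw [← two_mul, Nat.choose_two_right, Nat.add_sub_cancel]
    have h2 : 2 ∣ (t + 1) * t := (Nat.even_mul_succ_self t).two_dvd.trans (by rw [mul_comm])
    rw [Nat.mul_div_cancel' h2, mul_comm]
  have hp := QL.In_pos (t + 1)
  refine ⟨by rw [he]; positivity, ?_⟩
  rw [he, div_le_iff₀ hp, QL.In_eq]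
  have h1 := QL.Pm_ge (t + 1)
  have h2 : (1 / 2 : ℝ) ≤ QL.Pm (t + 1) := by
    have : (0 : ℝ) ≤ (1 / 3 : ℝ) ^ (t + 1) := by positivity
    linarith
  have h3 : (1 / 3 : ℝ) ^ t * (3 ^ ((t + 1) ^ 2) * QL.Pm (t + 1)) =
      3 ^ (t * (t + 1)) * (3 * QL.Pm (t + 1)) := by
    rw [show (t + 1) ^ 2 = t * (t + 1) + t + 1 by ring, pow_succ, pow_add]
    have h4 : (1 / 3 : ℝ) ^ t * 3 ^ t = 1 := by
      rw [← mul_pow]
      norm_num
    linear_combination (3 ^ (t * (t + 1)) * 3 * QL.Pm (t + 1)) * h4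
  rw [h3]
  have h5 : (0 : ℝ) < 3 ^ (t * (t + 1)) := by positivity
  nlinarith

end Pool.Agent.H451.JL
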