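import Pool.Agent.H451.JL.Stm2
import Pool.Graph.R_seed8.Y994.XL.LA

/-!
# Project JL (helper451): several Laplacian block systems with a common random symmetric block
-/

set_option autoImplicit false

open scoped Classical

namespace Pool.Agent.H451.JL

namespace SYSp

open Function Module Finset
open Pool.Agent.Y759.CX (fr fr_equiv fr_comp)
open Pool.Agent.Y85.XK (Sy bf bf_apply bf_l bf_symm bf_add mA mC mZ mL pa pa_surj all_zero
  mA_symm mZ_symm)
open Pool.Agent.Y703.XK (prs c9)
open Pool.Agent.Y703.XL (nA nG)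

section one

variable {V X : Type} [AddCommGroup V] [Module F V] [Finite V]
  [AddCommGroup X] [Module F X] [Finite X]

/-- the first equation -/
noncomputable def P1 (A : X →ₗ[F] X →ₗ[F] F) (c : X →ₗ[F] V →ₗ[F] F) :
    X × V →ₗ[F] X →ₗ[F] F :=
  A ∘ₗ LinearMap.fst F X V + c.flip ∘ₗ LinearMap.snd F X V

lemma P1_apply (A : X →ₗ[F] X →ₗ[F] F) (c : X →ₗ[F] V →ₗ[F] F) (p : X × V) (x' : X) :
    P1 A c p x' = A p.1 x' + c x' p.2 := rfl

lemma mem_ker (A : X →ₗ[F] X →ₗ[F] F) (c : X →ₗ[F] V →ₗ[F] F) (p : X × V) :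
    p ∈ LinearMap.ker (P1 A c) ↔ ∀ x', A p.1 x' + c x' p.2 = 0 := by
  rw [LinearMap.mem_ker]
  constructor
  · intro h x'
    rw [← P1_apply, h, LinearMap.zero_apply]
  · intro h
    exact LinearMap.ext fun x' => h x'

lemma flip_surj (c : X →ₗ[F] V →ₗ[F] F) (hc : ∀ x, (∀ y, c x y = 0) → x = 0) :
    Surjective c.flip := by
  have hinj : Injective c := by
    rw [← LinearMap.ker_eq_bot, LinearMap.ker_eq_bot']
    intro x hx
    exact hc x fun y => by rw [hx, LinearMap.zero_apply]
  intro φ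
  obtain ⟨ψ, hψ⟩ := LinearMap.dualMap_surjective_of_injective hinj φ
  obtain ⟨v, hv⟩ := (Module.evalEquiv F V).surjective ψ
  refine ⟨v, LinearMap.ext fun x => ?_⟩
  rw [← hψ, ← hv]
  rfl

lemma card3 (W : Type) [AddCommGroup W] [Module F W] [Finite W] :
    Nat.card W = 3 ^ finrank F W := by
  rw [Module.natCard_eq_pow_finrank (K := F) (V := W), Nat.card_eq_fintype_card, ZMod.card]

lemma card_ker (A : X →ₗ[F] X →ₗ[F] F) (c : X →ₗ[F] V →ₗ[F] F)
    (hc : ∀ x, (∀ y, c x y = 0) → x = 0) :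
    Nat.card (LinearMap.ker (P1 A c)) = Nat.card V := by
  have h1 : LinearMap.range (P1 A c) = ⊤ := by
    rw [LinearMap.range_eq_top]
    intro φ
    obtain ⟨v, hv⟩ := flip_surj c hc φ
    refine ⟨(0, v), ?_⟩
    rw [← hv]
    refine LinearMap.ext fun x => ?_
    rw [P1_apply, map_zero, LinearMap.zero_apply, zero_add]
    rfl
  have h2 := LinearMap.finrank_range_add_finrank_ker (P1 A c)
  rw [h1, finrank_top, Module.finrank_prod] at h2
  have h3 : finrank F (X →ₗ[F] F) = finrank F X := Subspace.dual_finrank_eq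
  rw [h3] at h2
  rw [card3, card3]
  congr 1
  omega

/-- a functional which vanishes on the common zeros of the functionals `c x` is one of them -/
lemma dual_c (c : X →ₗ[F] V →ₗ[F] F) (f : V →ₗ[F] F)
    (hf : ∀ y, (∀ x, c x y = 0) → f y = 0) : ∃ x, c x = f := by
  have h1 : f ∈ (LinearMap.range c).dualCoannihilator.dualAnnihilator := by
    rw [Submodule.mem_dualAnnihilator]
    intro y hy
    rw [Submodule.mem_dualCoannihilator] at hy
    exact hf y fun x => hy (c x) ⟨x, rfl⟩
  rw [Subspace.dualCoannihilator_dualAnnihilator_eq] at h1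
  exact h1

end one

section many

variable {V : Type} [AddCommGroup V] [Module F V] [Finite V] {k : ℕ}
  (X : Fin k → Type) [∀ j, AddCommGroup (X j)] [∀ j, Module F (X j)] [∀ j, Finite (X j)]
  (A : ∀ j, X j →ₗ[F] X j →ₗ[F] F) (c : ∀ j, X j →ₗ[F] V →ₗ[F] F)
  (Δ : Fin k → (V →ₗ[F] V →ₗ[F] F))

/-- the systems -/
noncomputable def mkS : Sys V k where
  L j := LinearMap.ker (P1 (A j) (c j))
  g j := inferInstance
  m j := inferInstance
  f j := Fintype.ofFinite _
  y j := LinearMap.snd F (X j) V ∘ₗ Submodule.subtype _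
  b j := -((c j ∘ₗ LinearMap.fst F (X j) V + Δ j ∘ₗ LinearMap.snd F (X j) V) ∘ₗ
    Submodule.subtype _)

lemma mk_b (j : Fin k) (p : LinearMap.ker (P1 (A j) (c j))) (y' : V) :
    (mkS X A c Δ).b j p y' = -(c j p.1.1 y' + Δ j p.1.2 y') := rfl

lemma mk_y (j : Fin k) (p : LinearMap.ker (P1 (A j) (c j))) :
    (mkS X A c Δ).y j p = p.1.2 := rfl

theorem ok_mkS {N m : ℕ} (hA : ∀ j x y, A j x y = A j y x)
    (hc : ∀ j x, (∀ y, c j x y = 0) → x = 0) (hΔ : ∀ j x y, Δ j x y = Δ j y x)
    (hX : ∀ j, Nat.card (X j) ≤ 3 ^ m) (hV : 3 ^ (m + N) ≤ Nat.card V)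
    (hD : ∀ i j, i ≠ j →
      Nat.card {y : V // ∀ y', Δ i y y' = Δ j y y'} * 3 ^ (2 * m + N) ≤ Nat.card V) :
    (mkS X A c Δ).OK N := by
  have hk1 : ∀ j (p : LinearMap.ker (P1 (A j) (c j))) (x' : X j),
      c j x' p.1.2 = -A j p.1.1 x' := by
    intro j p x'
    have := (mem_ker (A j) (c j) p.1).1 p.2 x'
    exact eq_neg_of_add_eq_zero_right this
  refine ⟨fun j => card_ker (A j) (c j) (hc j), ?_, ?_, ?_, ?_⟩
  · intro j (p : LinearMap.ker (P1 (A j) (c j))) (q : LinearMap.ker (P1 (A j) (c j)))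
    show -(c j p.1.1 q.1.2 + Δ j p.1.2 q.1.2) = -(c j q.1.1 p.1.2 + Δ j q.1.2 p.1.2)
    rw [hk1 j q, hk1 j p, hA j q.1.1, hΔ j p.1.2]
  · intro j (p : LinearMap.ker (P1 (A j) (c j))) (h1 : p.1.2 = 0) h2
    have h3 : p.1.1 = 0 := by
      refine hc j _ fun y => ?_
      have h4 : (mkS X A c Δ).b j p y = 0 := by rw [h2]; rfl
      rw [mk_b, h1, map_zero, LinearMap.zero_apply, add_zero, neg_eq_zero] at h4
      exact h4
    exact Subtype.ext (Prod.ext h3 h1)
  · intro j
    have h1 : Nat.card {p : (mkS X A c Δ).L j // (mkS X A c Δ).y j p = 0} ≤ Nat.card (X j) := by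
      have h2 : Nat.card {p : LinearMap.ker (P1 (A j) (c j)) // p.1.2 = 0} ≤ Nat.card (X j) := by
        refine Nat.card_le_card_of_injective
          (fun p : {p : LinearMap.ker (P1 (A j) (c j)) // p.1.2 = 0} => p.1.1.1) ?_
        intro p q h
        refine Subtype.ext (Subtype.ext (Prod.ext h ?_))
        rw [p.2, q.2]
      exact h2
    calc Nat.card {p : (mkS X A c Δ).L j // (mkS X A c Δ).y j p = 0} * 3 ^ N
        ≤ 3 ^ m * 3 ^ N := Nat.mul_le_mul_right _ (h1.trans (hX j))
      _ = 3 ^ (m + N) := (pow_add _ _ _).symm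
      _ ≤ Nat.card V := hV
  · intro i j hij
    have key : ∀ p : {p : LinearMap.ker (P1 (A i) (c i)) //
        ∀ q : LinearMap.ker (P1 (A j) (c j)),
          (mkS X A c Δ).b i p q.1.2 = (mkS X A c Δ).b j q p.1.2},
        ∃ x : X j, ∀ y', Δ j p.1.1.2 y' = Δ i p.1.1.2 y' + c i p.1.1.1 y' + c j x y' := by
      intro p
      obtain ⟨x, hx⟩ := dual_c (c j) (Δ j p.1.1.2 - Δ i p.1.1.2 - c i p.1.1.1) (by
        intro y hy
        have hq : ((0, y) : X j × V) ∈ LinearMap.ker (P1 (A j) (c j)) := by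
          rw [mem_ker]
          intro x'
          rw [map_zero, LinearMap.zero_apply, zero_add]
          exact hy x'
        have h2 := p.2 ⟨(0, y), hq⟩
        rw [mk_b, mk_b] at h2
        simp only [map_zero, LinearMap.zero_apply, zero_add] at h2
        rw [LinearMap.sub_apply, LinearMap.sub_apply, hΔ j p.1.1.2]
        linear_combination h2)
      refine ⟨x, fun y' => ?_⟩
      rw [hx, LinearMap.sub_apply, LinearMap.sub_apply]
      ring
    choose x hx using key
    let y0 : X i × X j → V := fun z =>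
      if h : ∃ y : V, ∀ y', Δ j y y' = Δ i y y' + c i z.1 y' + c j z.2 y' then h.choose else 0
    have hy0 : ∀ z : X i × X j, (∃ y : V, ∀ y', Δ j y y' = Δ i y y' + c i z.1 y' + c j z.2 y') →
        ∀ y', Δ j (y0 z) y' = Δ i (y0 z) y' + c i z.1 y' + c j z.2 y' := by
      intro z h
      have : y0 z = h.choose := dif_pos h
      rw [this]
      exact h.choose_spec
    have hcard : Nat.card {p : LinearMap.ker (P1 (A i) (c i)) //
        ∀ q : LinearMap.ker (P1 (A j) (c j)),
          (mkS X A c Δ).b i p q.1.2 = (mkS X A c Δ).b j q p.1.2} ≤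
        Nat.card ((X i × X j) × {y : V // ∀ y', Δ i y y' = Δ j y y'}) := by
      refine Nat.card_le_card_of_injective (fun p => ((p.1.1.1, x p),
        ⟨p.1.1.2 - y0 (p.1.1.1, x p), fun y' => ?_⟩)) ?_
      · have h1 := hy0 (p.1.1.1, x p) ⟨p.1.1.2, hx p⟩ y'
        have h2 := hx p y'
        simp only [map_sub, LinearMap.sub_apply]
        simp only at h1
        linear_combination h1 - h2
      · intro p q h
        have h1 : p.1.1.1 = q.1.1.1 := congrArg (fun z => z.1.1) h
        have h2 : x p = x q := congrArg (fun z => z.1.2) h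
        have h3 : p.1.1.2 - y0 (p.1.1.1, x p) = q.1.1.2 - y0 (q.1.1.1, x q) :=
          congrArg (fun z => z.2.1) h
        rw [h1, h2] at h3
        exact Subtype.ext (Subtype.ext (Prod.ext h1 (sub_left_inj.1 h3)))
    rw [Nat.card_prod, Nat.card_prod] at hcard
    calc Nat.card {p : (mkS X A c Δ).L i // ∀ q : (mkS X A c Δ).L j,
          (mkS X A c Δ).b i p ((mkS X A c Δ).y j q) = (mkS X A c Δ).b j q ((mkS X A c Δ).y i p)} *
          3 ^ N ≤ (Nat.card (X i) * Nat.card (X j) *
            Nat.card {y : V // ∀ y', Δ i y y' = Δ j y y'}) * 3 ^ N :=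
          Nat.mul_le_mul_right _ hcard
      _ ≤ (3 ^ m * 3 ^ m * Nat.card {y : V // ∀ y', Δ i y y' = Δ j y y'}) * 3 ^ N :=
          Nat.mul_le_mul_right _ (Nat.mul_le_mul_right _ (Nat.mul_le_mul (hX i) (hX j)))
      _ = Nat.card {y : V // ∀ y', Δ i y y' = Δ j y y'} * 3 ^ (2 * m + N) := by
          rw [pow_add, two_mul, pow_add]; ring
      _ ≤ Nat.card V := hD i j hij

/-- the number of the solutions is one iff all solutions vanish -/
lemma nG_one (j : Fin k) (T : V →ₗ[F] V →ₗ[F] F) :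
    nG (A j) (c j) (T + Δ j) = 1 ↔
      ∀ p : (mkS X A c Δ).L j, T ((mkS X A c Δ).y j p) = (mkS X A c Δ).b j p → p = 0 := by
  unfold Pool.Agent.Y703.XL.nG
  rw [Nat.card_eq_one_iff_exists]
  constructor
  · rintro ⟨a, ha⟩ (p : LinearMap.ker (P1 (A j) (c j))) (hp : T p.1.2 = (mkS X A c Δ).b j p)
    have h0 := ha ⟨0, fun x' => by simp, fun y' => by simp⟩
    have h1 := ha ⟨p.1, (mem_ker _ _ _).1 p.2, fun y' => by
      rw [LinearMap.add_apply, LinearMap.add_apply, hp, mk_b]
      ring⟩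
    have h2 : p.1 = 0 := congrArg Subtype.val (h1.trans h0.symm)
    exact Subtype.ext h2
  · intro h
    refine ⟨⟨0, fun x' => by simp, fun y' => by simp⟩, ?_⟩
    rintro ⟨p, h1, h2⟩
    have h3 := h ⟨p, (mem_ker _ _ _).2 h1⟩ (by
      refine LinearMap.ext fun y' => ?_
      rw [mk_b, mk_y]
      have := h2 y'
      rw [LinearMap.add_apply, LinearMap.add_apply] at this
      linear_combination this)
    have h4 : p = 0 := congrArg Subtype.val h3
    exact Subtype.ext h4

end many

section diag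

variable {J : Type} [Fintype J] [LinearOrder J]

lemma bf_mZ {U : Type} [Fintype U] (ks : J) (B : U → J → F) (y y' : {l : J // l ≠ ks} → F) :
    bf (mZ ks B) y y' = ∑ l : {l : J // l ≠ ks}, (-∑ u, B u l) * y l * y' l := by
  rw [bf_apply]
  refine sum_congr rfl fun l _ => ?_
  rw [sum_eq_single l]
  · unfold Pool.Agent.Y85.XK.mZ
    rw [if_pos rfl]
    ring
  · intro l' _ h
    unfold Pool.Agent.Y85.XK.mZ
    rw [if_neg (Ne.symm h)]
    ring
  · intro h
    exact absurd (mem_univ _) h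

lemma card_diag {U U' : Type} [Fintype U] [Fintype U'] (ks : J) (B : U → J → F)
    (B' : U' → J → F) (M : ℕ)
    (h : M < (univ.filter fun l => ∑ u, B u l ≠ ∑ u, B' u l).card) :
    Nat.card {y : {l : J // l ≠ ks} → F // ∀ y', bf (mZ ks B) y y' = bf (mZ ks B') y y'} *
      3 ^ M ≤ Nat.card ({l : J // l ≠ ks} → F) := by
  -- the kernel is contained in the functions supported where the sums agree
  let E : Type := {l : {l : J // l ≠ ks} // ∑ u, B u l = ∑ u, B' u l}
  have h1 : Nat.card {y : {l : J // l ≠ ks} → F //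
      ∀ y', bf (mZ ks B) y y' = bf (mZ ks B') y y'} ≤ Nat.card (E → F) := by
    refine Nat.card_le_card_of_injective (fun y (e : E) => y.1 e.1) ?_
    intro y z hyz
    have hsupp : ∀ y : {y : {l : J // l ≠ ks} → F //
        ∀ y', bf (mZ ks B) y y' = bf (mZ ks B') y y'}, ∀ l : {l : J // l ≠ ks},
        ∑ u, B u l ≠ ∑ u, B' u l → y.1 l = 0 := by
      intro y l hl
      have h2 : ∀ x : {l : J // l ≠ ks} → F,
          ∑ l : {l : J // l ≠ ks}, ((∑ u, B' u l - ∑ u, B u l) * y.1 l) * x l = 0 := by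
        intro x
        have h3 := y.2 x
        rw [bf_mZ, bf_mZ] at h3
        rw [← sub_eq_zero, ← sum_sub_distrib] at h3
        rw [← h3]
        refine sum_congr rfl fun l _ => ?_
        generalize ∑ u, B u l = s1
        generalize ∑ u, B' u l = s2
        ring
      have h4 := all_zero _ h2 l
      exact (mul_eq_zero.1 h4).resolve_left fun h5 => hl (sub_eq_zero.1 h5).symm
    refine Subtype.ext (funext fun l => ?_)
    by_cases hl : ∑ u, B u l = ∑ u, B' u l
    · exact congrFun hyz ⟨l, hl⟩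
    · rw [hsupp y l hl, hsupp z l hl]
  have h2 : Fintype.card E + M ≤ Fintype.card {l : J // l ≠ ks} := by
    have e1 : Fintype.card {l : J // l ≠ ks} = Fintype.card J - 1 := by
      rw [Fintype.card_subtype_compl, Fintype.card_subtype_eq]
    have e2 : Fintype.card E ≤ (univ.filter fun l : J => l ≠ ks ∧ ∑ u, B u l = ∑ u, B' u l).card := by
      rw [← Fintype.card_subtype]
      exact Fintype.card_le_of_injective (fun e : E => (⟨e.1.1, e.1.2, e.2⟩ :
        {l : J // l ≠ ks ∧ ∑ u, B u l = ∑ u, B' u l})) (by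
          intro a b hab
          exact Subtype.ext (Subtype.ext (congrArg
            (fun z : {l : J // l ≠ ks ∧ ∑ u, B u l = ∑ u, B' u l} => z.1) hab)))
    have e3 : (univ.filter fun l : J => l ≠ ks ∧ ∑ u, B u l = ∑ u, B' u l).card +
        (univ.filter fun l => ∑ u, B u l ≠ ∑ u, B' u l).card ≤ Fintype.card J := by
      rw [← card_union_of_disjoint]
      · exact card_le_univ _
      · rw [Finset.disjoint_left]
        intro l h3 h4
        exact (mem_filter.1 h4).2 (mem_filter.1 h3).2.2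
    omega
  calc _ ≤ Nat.card (E → F) * 3 ^ M := Nat.mul_le_mul_right _ h1
    _ = 3 ^ (Fintype.card E + M) := by
      rw [Nat.card_fun, Nat.card_eq_fintype_card, Nat.card_eq_fintype_card, ZMod.card, pow_add]
    _ ≤ 3 ^ Fintype.card {l : J // l ≠ ks} := Nat.pow_le_pow_right (by norm_num) h2
    _ = Nat.card ({l : J // l ≠ ks} → F) := by
      rw [Nat.card_fun, Nat.card_eq_fintype_card, Nat.card_eq_fintype_card, ZMod.card]

end diag

end SYSp

open Function Module Finset SYSp
open Pool.Agent.Y759.CX (fr fr_equiv fr_comp)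
open Pool.Agent.Y85.XK (Sy bf bf_apply bf_l bf_symm bf_add mA mC mZ mL pa pa_surj all_zero
  mA_symm mZ_symm)
open Pool.Agent.Y703.XK (prs c9)
open Pool.Agent.Y703.XL (nA nG)

theorem t_SYS : S_JL → S_SYS := by
  intro hJL k ε hε
  obtain ⟨N, hN⟩ := hJL k ε hε
  refine ⟨N, ?_⟩
  intro U _ J _ _ A B m ks hA hm hJ hB hD
  have hcV : Nat.card ({l : J // l ≠ ks} → F) = 3 ^ (Fintype.card J - 1) := by
    rw [Nat.card_fun, Nat.card_eq_fintype_card, Nat.card_eq_fintype_card, ZMod.card,
      Fintype.card_subtype_compl, Fintype.card_subtype_eq]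
  let s : Sys ({l : J // l ≠ ks} → F) k := mkS (fun j => U j → F)
    (fun j => bf (mA (A j) (B j))) (fun j => bf (mC ks (B j))) (fun j => bf (mZ ks (B j)))
  have hok : s.OK N := by
    refine ok_mkS (m := m) _ _ _ _ (fun j => bf_symm _ (mA_symm _ _ (hA j))) ?_
      (fun j => bf_symm _ (mZ_symm _ _)) ?_ ?_ ?_
    · intro j x hx
      by_contra hne
      obtain ⟨l, hl, hl'⟩ := hB j x (by
        by_contra hc
        push Not at hc
        exact hne (funext hc))
      apply hl'
      exact all_zero (fun l : {l : J // l ≠ ks} => ∑ i, x i * mC ks (B j) i l) (fun y => by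
        rw [← bf_l]
        exact hx y) ⟨l, hl⟩
    · intro j
      rw [Nat.card_fun, Nat.card_eq_fintype_card, Nat.card_eq_fintype_card, ZMod.card]
      exact Nat.pow_le_pow_right (by norm_num) (hm j)
    · rw [hcV]
      exact Nat.pow_le_pow_right (by norm_num) (by omega)
    · intro i j hij
      exact card_diag ks (B i) (B j) (2 * m + N) (hD i j hij)
  have h1 := hN _ s hok
  have h5 : ((univ.filter fun α : prs J → F =>
      ∀ j, nA (A j) (B j) (Pool.Agent.Y703.XK.ext α) = 3).card : ℝ) / 3 ^ (prs J).card =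
      fr (fun S : Sy ({l : J // l ≠ ks} → F) =>
        ∀ j, ∀ p : s.L j, S.1 (s.y j p) = s.b j p → p = 0) := by
    rw [← fr_comp (pa ks) (pa_surj ks)]
    unfold Pool.Agent.Y759.CX.fr
    have h6 : Nat.card (prs J → F) = 3 ^ (prs J).card := by
      rw [Nat.card_fun, Nat.card_eq_fintype_card, Nat.card_eq_fintype_card, ZMod.card,
        Fintype.card_coe]
    rw [h6, Nat.card_eq_fintype_card, Fintype.card_subtype]
    push_cast
    congr 3
    refine Finset.filter_congr fun α _ => ?_
    refine forall_congr' fun j => ?_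
    rw [Pool.Agent.Y994.XL.nA_eq ks (A j) (B j) (hA j) α, bf_add]
    have h7 := nG_one (fun j => U j → F) (fun j => bf (mA (A j) (B j)))
      (fun j => bf (mC ks (B j))) (fun j => bf (mZ ks (B j))) j (pa ks α).1
    refine Iff.trans ?_ h7
    show 3 * nG (bf (mA (A j) (B j))) (bf (mC ks (B j))) (bf (mL ks α) + bf (mZ ks (B j))) = 3 ↔
      nG (bf (mA (A j) (B j))) (bf (mC ks (B j))) (bf (mL ks α) + bf (mZ ks (B j))) = 1
    omega
  rw [h5]
  exact h1

end Pool.Agent.H451.JL
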