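import Pool.Agent.H451.JL.Stm

set_option autoImplicit false

open scoped Classical

namespace Pool.Agent.H451.JL

open Finset

/-- the moments of a product of combinations of the functions `In d` -/
lemma tr_moment (k t : ℕ) (a : ℕ → ℝ) (Ω : Type) [Fintype Ω] (r : Ω → Fin k → ℕ)
    (δ : ℝ)
    (hM : ∀ d : Fin k → ℕ, (∀ j, d j ≤ t + 1) →
      |(∑ ω, ∏ j, In (d j) (r ω j)) / (Fintype.card Ω : ℝ) -
        ∏ j, (3 : ℝ) ^ ((d j).choose 2)| ≤ δ) :
    |(∑ ω, ∏ j, ∑ d ∈ range (t + 2), a d * In d (r ω j)) / (Fintype.card Ω : ℝ) -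
      (∑ d ∈ range (t + 2), a d * (3 : ℝ) ^ (d.choose 2)) ^ k| ≤
      (∑ d ∈ range (t + 2), |a d|) ^ k * δ := by
  have h1 : (∑ ω, ∏ j, ∑ d ∈ range (t + 2), a d * In d (r ω j)) / (Fintype.card Ω : ℝ) =
      ∑ p ∈ Fintype.piFinset (fun _ : Fin k => range (t + 2)), (∏ j, a (p j)) *
        ((∑ ω, ∏ j, In (p j) (r ω j)) / (Fintype.card Ω : ℝ)) := by
    have : (∑ ω, ∏ j, ∑ d ∈ range (t + 2), a d * In d (r ω j)) =
        ∑ p ∈ Fintype.piFinset (fun _ : Fin k => range (t + 2)), (∏ j, a (p j)) *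
        (∑ ω, ∏ j, In (p j) (r ω j)) := by
      simp_rw [Finset.prod_univ_sum, Finset.mul_sum]
      rw [Finset.sum_comm]
      refine Finset.sum_congr rfl fun p _ => Finset.sum_congr rfl fun ω _ => ?_
      rw [Finset.prod_mul_distrib]
    rw [this, Finset.sum_div]
    refine Finset.sum_congr rfl fun p _ => ?_
    rw [mul_div_assoc]
  have h2 : (∑ d ∈ range (t + 2), a d * (3 : ℝ) ^ (d.choose 2)) ^ k =
      ∑ p ∈ Fintype.piFinset (fun _ : Fin k => range (t + 2)), (∏ j, a (p j)) *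
        ∏ j, (3 : ℝ) ^ ((p j).choose 2) := by
    have : (∑ d ∈ range (t + 2), a d * (3 : ℝ) ^ (d.choose 2)) ^ k =
        ∏ _j : Fin k, ∑ d ∈ range (t + 2), a d * (3 : ℝ) ^ (d.choose 2) := by simp
    rw [this, Finset.prod_univ_sum]
    refine Finset.sum_congr rfl fun p _ => ?_
    rw [Finset.prod_mul_distrib]
  have h3 : (∑ d ∈ range (t + 2), |a d|) ^ k =
      ∑ p ∈ Fintype.piFinset (fun _ : Fin k => range (t + 2)), ∏ j, |a (p j)| := by
    have : (∑ d ∈ range (t + 2), |a d|) ^ k = ∏ _j : Fin k, ∑ d ∈ range (t + 2), |a d| := by simp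
    rw [this, Finset.prod_univ_sum]
  rw [h1, h2, h3, ← Finset.sum_sub_distrib, Finset.sum_mul]
  refine (Finset.abs_sum_le_sum_abs _ _).trans (Finset.sum_le_sum fun p hp => ?_)
  rw [← mul_sub, abs_mul, Finset.abs_prod]
  refine mul_le_mul_of_nonneg_left (hM p fun j => ?_) (Finset.prod_nonneg fun j _ => abs_nonneg _)
  have := (Fintype.mem_piFinset.mp hp) j
  rw [Finset.mem_range] at this
  omega

lemma In_nonneg (d r : ℕ) : 0 ≤ In d r := by
  unfold In
  by_cases h : r < d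
  · refine le_of_eq (Finset.prod_eq_zero (Finset.mem_range.mpr h) ?_).symm
    simp
  · refine Finset.prod_nonneg fun i hi => ?_
    rw [Finset.mem_range] at hi
    have : (3 : ℝ) ^ i ≤ 3 ^ r := pow_le_pow_right₀ (by norm_num) (by omega)
    linarith

lemma In_zero (r : ℕ) : In 0 r = 1 := by simp [In]

/-- comparison of two products -/
lemma tr_prod {k : ℕ} (s : Finset (Fin k)) (f P e : Fin k → ℝ) (hf : ∀ j, |f j| ≤ 1)
    (he : ∀ j, |f j - P j| ≤ e j) :
    |∏ j ∈ s, f j - ∏ j ∈ s, P j| ≤ ∏ j ∈ s, (1 + e j) - 1 ∧ |∏ j ∈ s, P j| ≤ ∏ j ∈ s, (1 + e j) := by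
  have he0 : ∀ j, 0 ≤ e j := fun j => (abs_nonneg _).trans (he j)
  have hP : ∀ j, |P j| ≤ 1 + e j := fun j => by
    have h1 := hf j
    have h2 := he j
    rw [abs_le] at *
    constructor <;> linarith
  induction s using Finset.induction_on with
  | empty => simp
  | insert a s ha ih =>
    rw [Finset.prod_insert ha, Finset.prod_insert ha, Finset.prod_insert ha]
    obtain ⟨h1, h2⟩ := ih
    have hE : 0 ≤ ∏ j ∈ s, (1 + e j) := Finset.prod_nonneg fun j _ => by linarith [he0 j]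
    constructor
    · have : f a * ∏ j ∈ s, f j - P a * ∏ j ∈ s, P j =
          f a * (∏ j ∈ s, f j - ∏ j ∈ s, P j) + (f a - P a) * ∏ j ∈ s, P j := by ring
      rw [this]
      refine (abs_add_le _ _).trans ?_
      rw [abs_mul, abs_mul]
      have h3 : |f a| * |∏ j ∈ s, f j - ∏ j ∈ s, P j| ≤ 1 * (∏ j ∈ s, (1 + e j) - 1) :=
        mul_le_mul (hf a) h1 (abs_nonneg _) zero_le_one
      have h4 : |f a - P a| * |∏ j ∈ s, P j| ≤ e a * ∏ j ∈ s, (1 + e j) :=
        mul_le_mul (he a) h2 (abs_nonneg _) (he0 a)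
      linarith
    · rw [abs_mul]
      exact mul_le_mul (hP a) h2 (abs_nonneg _) (by linarith [he0 a])

theorem t_TR : S_Q → S_TR := by
  intro hQ k t
  set a : ℕ → ℝ := fun d => if d ≤ t then mu d else 0 with ha
  set b : ℕ → ℝ := fun d => if d = 0 then 1 else if d = t + 1 then |mu (t + 1)| else 0 with hb
  refine ⟨(∑ d ∈ range (t + 2), |a d|) ^ k + (∑ d ∈ range (t + 2), |b d|) ^ k, ?_, ?_⟩
  · exact add_nonneg (pow_nonneg (Finset.sum_nonneg fun _ _ => abs_nonneg _) _)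
      (pow_nonneg (Finset.sum_nonneg fun _ _ => abs_nonneg _) _)
  intro Ω _ r δ hc hδ hM
  have hcR : (0 : ℝ) < Fintype.card Ω := by exact_mod_cast hc
  have hA := tr_moment k t a Ω r δ hM
  have hB := tr_moment k t b Ω r δ hM
  -- identification of the sums
  have a1 : ∀ g : ℕ → ℝ, ∑ d ∈ range (t + 2), a d * g d = ∑ d ∈ range (t + 1), mu d * g d := by
    intro g
    rw [Finset.sum_range_succ]
    have : a (t + 1) = 0 := by simp [ha]
    rw [this, zero_mul, add_zero]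
    refine Finset.sum_congr rfl fun d hd => ?_
    rw [Finset.mem_range] at hd
    have : a d = mu d := by simp [ha, Nat.lt_succ_iff.mp hd]
    rw [this]
  have b1 : ∀ g : ℕ → ℝ, ∑ d ∈ range (t + 2), b d * g d = g 0 + |mu (t + 1)| * g (t + 1) := by
    intro g
    rw [Finset.sum_range_succ, Finset.sum_range_succ']
    have h1 : b (t + 1) = |mu (t + 1)| := by simp [hb]
    have h0 : b 0 = 1 := by simp [hb]
    have h2 : ∑ d ∈ range t, b (d + 1) * g (d + 1) = 0 := by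
      refine Finset.sum_eq_zero fun d hd => ?_
      rw [Finset.mem_range] at hd
      have : b (d + 1) = 0 := by
        simp only [hb]
        rw [if_neg (by omega), if_neg (by omega)]
      rw [this, zero_mul]
    rw [h1, h0, h2]
    ring
  have eA : (∑ d ∈ range (t + 2), a d * (3 : ℝ) ^ (d.choose 2)) = sT t := by
    rw [a1 (fun d => (3 : ℝ) ^ (d.choose 2))]
    rfl
  have eB : (∑ d ∈ range (t + 2), b d * (3 : ℝ) ^ (d.choose 2)) = 1 + eT t := by
    rw [b1 (fun d => (3 : ℝ) ^ (d.choose 2))]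
    simp [eT]
  rw [eA] at hA
  rw [eB] at hB
  set Pf : Ω → Fin k → ℝ := fun ω j => ∑ d ∈ range (t + 1), mu d * In d (r ω j) with hPf
  set Ef : Ω → Fin k → ℝ := fun ω j => |mu (t + 1)| * In (t + 1) (r ω j) with hEf
  have cA : ∀ ω, ∏ j, ∑ d ∈ range (t + 2), a d * In d (r ω j) = ∏ j, Pf ω j := by
    intro ω
    refine Finset.prod_congr rfl fun j _ => ?_
    rw [a1 (fun d => In d (r ω j))]
  have cB : ∀ ω, ∏ j, ∑ d ∈ range (t + 2), b d * In d (r ω j) = ∏ j, (1 + Ef ω j) := by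
    intro ω
    refine Finset.prod_congr rfl fun j _ => ?_
    rw [b1 (fun d => In d (r ω j)), In_zero]
  simp_rw [cA] at hA
  simp_rw [cB] at hB
  -- the indicator
  have hI : ((univ.filter fun ω => ∀ j, r ω j = 0).card : ℝ) =
      ∑ ω, ∏ j, (if r ω j = 0 then (1 : ℝ) else 0) := by
    rw [Finset.card_filter]
    push_cast
    refine Finset.sum_congr rfl fun ω _ => ?_
    rw [Finset.prod_ite_zero]
    simp
  have hdiff : |(∑ ω, ∏ j, (if r ω j = 0 then (1 : ℝ) else 0)) - ∑ ω, ∏ j, Pf ω j| ≤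
      (∑ ω, ∏ j, (1 + Ef ω j)) - Fintype.card Ω := by
    rw [← Finset.sum_sub_distrib]
    refine (Finset.abs_sum_le_sum_abs _ _).trans ?_
    have : (∑ ω, ∏ j, (1 + Ef ω j)) - (Fintype.card Ω : ℝ) = ∑ ω : Ω, (∏ j, (1 + Ef ω j) - 1) := by
      rw [Finset.sum_sub_distrib]
      simp
    rw [this]
    refine Finset.sum_le_sum fun ω _ => ?_
    refine (tr_prod univ (fun j => if r ω j = 0 then (1 : ℝ) else 0) (Pf ω) (Ef ω) ?_ ?_).1
    · intro j
      split_ifs <;> simp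
    · intro j
      exact hQ t (r ω j)
  rw [hI]
  have hdiff2 : |(∑ ω, ∏ j, (if r ω j = 0 then (1 : ℝ) else 0)) / (Fintype.card Ω : ℝ) -
      (∑ ω, ∏ j, Pf ω j) / (Fintype.card Ω : ℝ)| ≤
      (∑ ω, ∏ j, (1 + Ef ω j)) / (Fintype.card Ω : ℝ) - 1 := by
    rw [← sub_div, abs_div, abs_of_pos hcR, div_le_iff₀ hcR, sub_mul, div_mul_cancel₀ _ hcR.ne']
    linarith
  rw [abs_le] at *
  obtain ⟨A1, A2⟩ := hA
  obtain ⟨B1, B2⟩ := hB
  obtain ⟨D1, D2⟩ := hdiff2
  constructor <;> linarith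

end Pool.Agent.H451.JL
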