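import Mathlib
import Pool.Agent.H451.JL.P
import Pool.Agent.H451.JL.D
import Pool.Agent.H451.JL.M
import Pool.Agent.H451.JL.MOM
import Pool.Agent.H451.JL.EX
import Pool.Agent.H451.JL.Q
import Pool.Agent.H451.JL.TR
import Pool.Agent.H451.JL.C
import Pool.Agent.H451.JL.SYS
import Pool.Agent.H451.JL.BOX
import Pool.Agent.H451.JL.FEW
import Pool.Agent.H451.JL.BAD
import Pool.Agent.H451.JL.LOW
import Pool.Agent.H451.JL.KEJ
import Pool.Agent.H451.JL.DQJ
import Pool.Graph.R_seed8.Y703.XL.Fin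

/-!
# Project JL: assembly

Joint work: helper451 (plan, statements, `KEJ`, `DQJ`), helper199 (`P`), helper297 (`D`), helper551
(`M`), helper216 (`MOM`), helper181 (`EX`), helper331 (`Q`), helper588 (`TR`), helper415 (`C`), helper328
(`SYS`), helper225 (`BOX`), helper52 (`FEW`), helper685 (`BAD`), helper935 (`LOW`), and the projects XK,
XL of the library.
-/

set_option autoImplicit false

namespace Pool.Agent.H451.JL

theorem t_MOM' : S_MOM := t_MOM t_P (t_D t_P) t_M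

theorem t_EX' : S_EX := t_EX t_MOM'

theorem t_TR' : S_TR := t_TR t_Q

theorem t_C' : S_C := t_C t_EX' t_TR' Pool.Agent.Y703.XL.t_LIM

theorem t_JL' : S_JL := t_JL t_EX' t_TR' t_C' t_E Pool.Agent.Y703.XL.t_C9

theorem t_SYS' : S_SYS := t_SYS t_JL'

theorem t_BOXJ' : S_BOXJ := t_BOXJ Pool.Agent.Y710.XK.t_EQ t_SYS'

/-- **the joint law** -/
theorem t_DQJ' : S_DQJ :=
  t_DQJ Pool.Agent.Y363.XK.t_BIL t_KEJ t_BOXJ' Pool.Agent.Y474.XK.t_CNT t_BADJ
    Pool.Agent.Y433.XK.t_FEW t_FEWJ t_LOWJ Pool.Agent.Y703.XL.t_C9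

end Pool.Agent.H451.JL
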