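import Mathlib
import Pool.Agent.H451.JL.Stm3

set_option autoImplicit false

open scoped Classical

namespace Pool.Agent.H451.JL

open Finset
open Pool.Agent.Y692.QS (Ei w nr toC)
open Pool.Agent.Y715.T.Rec (cs)
open Pool.Agent.Y715.T.RecG (Pq)
open Pool.Agent.H451.BB (Base DD)
open Pool.Agent.Y703.CT (Dt pD Ker)

theorem t_BASE : S_BASE := by
  intro T w δ hT hδ hn h9
  obtain ⟨s, hs⟩ : ∃ s : Finset Ei, s = sw w T := ⟨_, rfl⟩
  unfold nW at hn
  unfold eD at h9 ⊢
  rw [← hs] at hn h9 ⊢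
  have hsT : ∀ ρ ∈ s, Pq ρ ∧ w ρ ≠ 0 := by
    intro ρ hρ
    rw [hs, sw, mem_filter] at hρ
    exact ⟨hT ρ hρ.1, hρ.2⟩
  have hne : s.Nonempty := by
    rw [nonempty_iff_ne_empty]
    rintro rfl
    have h1 : Nat.card {v : (∅ : Finset Ei) → F // ∀ π : (∅ : Finset Ei),
        ∑ ρ : (∅ : Finset Ei), cs π ρ * w ρ * (v ρ - v π) = 0} ≤ 1 := by
      have : Subsingleton {v : (∅ : Finset Ei) → F // ∀ π : (∅ : Finset Ei),
        ∑ ρ : (∅ : Finset Ei), cs π ρ * w ρ * (v ρ - v π) = 0} := inferInstance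
      exact Finite.card_le_one_iff_subsingleton.2 this
    omega
  obtain ⟨n, hcard⟩ : ∃ n, s.card = n + 1 := ⟨s.card - 1, by
    have := hne.card_pos
    omega⟩
  let ev : Fin (n + 1) ≃ s := (finCongr hcard.symm).trans s.equivFin.symm
  let π : Fin (n + 1) → Ei := fun i => (ev i : Ei)
  let e : Fin (n + 1) → ZMod 3 := fun i => δ * w (π i)
  have hπ : ∀ i, Pq (π i) ∧ w (π i) ≠ 0 := fun i => hsT _ (ev i).2
  have hpD : ∏ ρ ∈ s, ρ ^ (δ * w ρ).val = pD π e := by
    unfold pD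
    rw [← Finset.prod_coe_sort, ← Equiv.prod_comp ev]
  refine Or.inr ⟨n, π, e, ⟨fun j => (hπ j).1, ?_, fun j => mul_ne_zero hδ (hπ j).2⟩, ?_, ?_, hpD⟩
  · intro i j hij hd
    exact hij (ev.injective (Subtype.ext
      (Pool.Agent.Y699.E.eq_of_dvd (hπ j).1 (hπ i).1 hd))).symm
  · intro v hv
    let X : Type := {v : s → F // ∀ π : s, ∑ ρ : s, cs π ρ * w ρ * (v ρ - v π) = 0}
    have hX : Nat.card X = 3 := hn
    have hv' : ∀ π : s, ∑ ρ : s, cs π ρ * w ρ * (v (ev.symm ρ) - v (ev.symm π)) = 0 := by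
      intro ρ0
      have h1 := hv (ev.symm ρ0)
      have h2 : ∑ i, e i * cs (π (ev.symm ρ0)) (π i) * (v i - v (ev.symm ρ0)) =
          δ * ∑ ρ : s, cs ρ0 ρ * w ρ * (v (ev.symm ρ) - v (ev.symm ρ0)) := by
        rw [Finset.mul_sum, ← Equiv.sum_comp ev]
        refine Finset.sum_congr rfl fun i _ => ?_
        simp only [π, e, Equiv.apply_symm_apply, Equiv.symm_apply_apply]
        ring
      rw [h2] at h1
      exact (mul_eq_zero.1 h1).resolve_left hδ
    let c : F → X := fun a => ⟨fun _ => a, fun π => by simp⟩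
    have hcinj : Function.Injective c := by
      intro a b hab
      have h1 := congrArg Subtype.val hab
      obtain ⟨ρ, hρ⟩ := hne
      exact congrFun h1 ⟨ρ, hρ⟩
    have hXf : Finite X := Subtype.finite
    have hcsurj : Function.Surjective c := by
      have h1 : Function.Bijective c := by
        rw [Nat.bijective_iff_injective_and_card]
        refine ⟨hcinj, ?_⟩
        rw [hX, Nat.card_eq_fintype_card, ZMod.card]
      exact h1.2
    obtain ⟨a, ha⟩ := hcsurj ⟨fun ρ => v (ev.symm ρ), hv'⟩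
    have ha' := congrArg Subtype.val ha
    intro i j
    have h1 := congrFun ha' (ev i)
    have h2 := congrFun ha' (ev j)
    simp only [c, Equiv.symm_apply_apply] at h1 h2
    rw [← h1, ← h2]
  · rw [← hpD]
    exact h9

end Pool.Agent.H451.JL
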