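import Mathlib
import Pool.Agent.H451.JL.Stm3

/-!
# Project JL (helper451): the factorisation of the parameters `D_T`
-/

set_option autoImplicit false
set_option linter.unusedVariables false

open scoped Classical

namespace Pool.Agent.H451.JL

open Finset
open Pool.Agent.Y692.QS (Ei w nr toC)
open Pool.Agent.Y715.T.Rec (cs)
open Pool.Agent.Y715.T.RecG (Pq)
open Pool.Agent.H451.BB (Base DD)
open Pool.Agent.Y699.E (prm prm_one prm_mul prm_pow prm_ne_zero PD mem_PD PD_pow_mul notMem_PD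
  pp_induction)

/-- the factorisation of one primary element -/
theorem fac_one : ∀ a : Ei, prm a → ∃ e : Ei → ℕ, a = ∏ u ∈ PD a, u ^ (e u) := by
  refine pp_induction ?_ ?_
  · refine ⟨fun _ => 0, ?_⟩
    simp
  · rintro π m k hπ hm hd hk ⟨e, he⟩
    refine ⟨Function.update e π k, ?_⟩
    rw [PD_pow_mul hπ hm hk, prod_insert (notMem_PD hm hd), Function.update_self]
    congr 1
    conv_lhs => rw [he]
    refine prod_congr rfl fun u hu => ?_
    rw [Function.update_of_ne]
    rintro rfl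
    exact notMem_PD hm hd hu

theorem t_PRM : S_PRM := by
  intro n a ha
  choose e he using fun i => fac_one (a i) (ha i)
  refine ⟨univ.biUnion fun i => PD (a i), fun i u => if u ∈ PD (a i) then e i u else 0, ?_, ?_, ?_⟩
  · intro π hπ
    obtain ⟨i, -, hi⟩ := mem_biUnion.1 hπ
    exact ((mem_PD (prm_ne_zero (ha i))).1 hi).1
  · intro π hπ
    obtain ⟨i, -, hi⟩ := mem_biUnion.1 hπ
    exact ⟨i, ((mem_PD (prm_ne_zero (ha i))).1 hi).2⟩
  · intro i
    conv_lhs => rw [he i]
    refine prod_subset_one_on_sdiff (fun u hu => mem_biUnion.2 ⟨i, mem_univ _, hu⟩) ?_ ?_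
    · intro u hu
      change u ^ (if u ∈ PD (a i) then e i u else 0) = 1
      rw [if_neg (mem_sdiff.1 hu).2, pow_zero]
    · intro u hu
      change u ^ e i u = u ^ (if u ∈ PD (a i) then e i u else 0)
      rw [if_pos hu]

theorem dE_sq {n : ℕ} (T : Finset (Fin (n + 1))) : dE T * dE T = 1 := by
  unfold dE
  split_ifs <;> decide

theorem t_FACT : S_FACT := by
  intro n U S e hU hdis T
  refine ⟨∏ u ∈ U, u ^ (eE e T u / 3), ?_, ?_⟩
  · have h0 : ∀ V : Finset Ei, V ⊆ U → prm (∏ u ∈ V, u ^ (eE e T u / 3)) := by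
      intro V
      induction V using Finset.induction_on with
      | empty =>
        intro _
        rw [prod_empty]
        exact prm_one
      | insert u V hu ih =>
        intro hV
        rw [prod_insert hu]
        exact prm_mul (prm_pow (hU u (hV (mem_insert_self _ _))).three _)
          (ih fun x hx => hV (mem_insert_of_mem hx))
    exact h0 U subset_rfl
  -- the left hand side
  have h1 : DD (Fin.snoc (α := fun _ => Ei) (fun i => ∏ u ∈ U, u ^ (e i u)) (∏ π ∈ S, π)) T =
      (∏ π ∈ S, π) ^ (dE T).val * ∏ u ∈ U, u ^ (eE e T u) := by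
    unfold DD
    have h2 : ∏ i : Fin (n + 1), (Fin.snoc (α := fun _ => Ei) (fun i => ∏ u ∈ U, u ^ (e i u))
        (∏ π ∈ S, π)) i = (∏ i : Fin n, ∏ u ∈ U, u ^ (e i u)) * ∏ π ∈ S, π := by
      rw [Fin.prod_univ_castSucc]
      simp only [Fin.snoc_castSucc, Fin.snoc_last]
    have h3 : ∏ i ∈ T, (Fin.snoc (α := fun _ => Ei) (fun i => ∏ u ∈ U, u ^ (e i u))
        (∏ π ∈ S, π)) i = (∏ i ∈ univ.filter (fun i : Fin n => i.castSucc ∈ T),
          ∏ u ∈ U, u ^ (e i u)) * if Fin.last n ∈ T then ∏ π ∈ S, π else 1 := by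
      have h4 : ∏ i ∈ T, (Fin.snoc (α := fun _ => Ei) (fun i => ∏ u ∈ U, u ^ (e i u))
          (∏ π ∈ S, π)) i = ∏ i : Fin (n + 1), if i ∈ T then
            (Fin.snoc (α := fun _ => Ei) (fun i => ∏ u ∈ U, u ^ (e i u)) (∏ π ∈ S, π)) i else 1 := by
        rw [prod_ite_mem, univ_inter]
      rw [h4, Fin.prod_univ_castSucc, prod_filter]
      simp only [Fin.snoc_castSucc, Fin.snoc_last]
    rw [h2, h3]
    have h5 : ∏ i : Fin n, ∏ u ∈ U, u ^ (e i u) = ∏ u ∈ U, u ^ (∑ i, e i u) := by
      rw [prod_comm]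
      exact prod_congr rfl fun u _ => prod_pow_eq_pow_sum _ _ _
    have h6 : ∏ i ∈ univ.filter (fun i : Fin n => i.castSucc ∈ T), ∏ u ∈ U, u ^ (e i u) =
        ∏ u ∈ U, u ^ (∑ i ∈ univ.filter (fun i : Fin n => i.castSucc ∈ T), e i u) := by
      rw [prod_comm]
      exact prod_congr rfl fun u _ => prod_pow_eq_pow_sum _ _ _
    have h7 : ∏ u ∈ U, u ^ (eE e T u) = (∏ u ∈ U, u ^ (∑ i, e i u)) *
        ∏ u ∈ U, u ^ (∑ i ∈ univ.filter (fun i : Fin n => i.castSucc ∈ T), e i u) := by
      rw [← prod_mul_distrib]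
      exact prod_congr rfl fun u _ => pow_add _ _ _
    rw [h5, h6, h7]
    have h8 : (if Fin.last n ∈ T then ∏ π ∈ S, π else 1) * (∏ π ∈ S, π) =
        (∏ π ∈ S, π) ^ (dE T).val := by
      unfold dE
      split_ifs
      · have h9 : (-1 : F).val = 2 := by decide
        rw [h9, sq]
      · have h9 : (1 : F).val = 1 := by decide
        rw [h9, pow_one, one_mul]
    rw [← h8]
    ring
  -- the right hand side
  have h2 : eD (dE T) (wE e U T) (S ∪ U) =
      (∏ π ∈ S, π) ^ (dE T).val * ∏ u ∈ U, u ^ (eE e T u % 3) := by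
    have h3 : eD (dE T) (wE e U T) (S ∪ U) =
        ∏ ρ ∈ S ∪ U, ρ ^ (dE T * wE e U T ρ).val := by
      unfold eD sw
      rw [prod_filter]
      refine prod_congr rfl fun ρ _ => ?_
      split_ifs with h4
      · rfl
      · have h5 : wE e U T ρ = 0 := by
          by_contra h6
          exact h4 h6
        rw [h5, mul_zero, ZMod.val_zero, pow_zero]
    rw [h3, prod_union hdis]
    congr 1
    · rw [← prod_pow]
      refine prod_congr rfl fun ρ hρ => ?_
      have h5 : ρ ∉ U := disjoint_left.1 hdis hρ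
      unfold wE
      rw [if_neg h5, mul_one]
    · refine prod_congr rfl fun ρ hρ => ?_
      unfold wE
      rw [if_pos hρ, ← mul_assoc, dE_sq, one_mul, ZMod.val_natCast]
  rw [h1, h2]
  have h3 : ∏ u ∈ U, u ^ (eE e T u) =
      (∏ u ∈ U, u ^ (eE e T u / 3)) ^ 3 * ∏ u ∈ U, u ^ (eE e T u % 3) := by
    rw [← prod_pow, ← prod_mul_distrib]
    refine prod_congr rfl fun u _ => ?_
    rw [← pow_mul, ← pow_add]
    congr 1
    omega
  rw [h3]
  exact mul_left_comm _ _ _

end Pool.Agent.H451.JL
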